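import Mathlib

/-! Local bounds for binomial probabilities. -/

set_option autoImplicit false

namespace Pool.Agent.H189R2.Iid

open Finset

theorem fact_le {n : ℕ} (hn : 1 ≤ n) :
    (n.factorial : ℝ) ≤ Real.exp 1 * Real.sqrt n * (n / Real.exp 1) ^ n := by
  obtain ⟨m, rfl⟩ : ∃ m, n = m + 1 := ⟨n - 1, by omega⟩
  have h := Stirling.stirlingSeq'_antitone (Nat.zero_le m)
  simp only [Function.comp, Nat.succ_eq_add_one, zero_add] at h
  rw [Stirling.stirlingSeq_one] at h
  unfold Stirling.stirlingSeq at h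
  rw [div_le_iff₀ (by positivity)] at h
  refine h.trans (le_of_eq ?_)
  rw [Real.sqrt_mul (by norm_num : (0 : ℝ) ≤ 2)]
  have : Real.sqrt 2 ≠ 0 := by positivity
  field_simp

/-- the central term -/
theorem central {N k : ℕ} (hk : 1 ≤ k) (hN : 2 * k ≤ N) :
    (N.choose k : ℝ) * (((k : ℝ) / N) ^ k * (1 - (k : ℝ) / N) ^ (N - k)) ≤ 1 / Real.sqrt k := by
  have hN0 : (0 : ℝ) < N := by exact_mod_cast (by omega : 0 < N)
  have hk0 : (0 : ℝ) < k := by exact_mod_cast hk
  have hkN : k ≤ N := by omega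
  have hNk : ((N - k : ℕ) : ℝ) = N - k := Nat.cast_sub hkN
  have hNk2 : (N : ℝ) ≤ 2 * (N - k) := by
    have : (2 * k : ℝ) ≤ N := by exact_mod_cast hN
    linarith
  set e := Real.exp 1 with he
  have he0 : 0 < e := Real.exp_pos 1
  have h1 : (N.choose k : ℝ) * k.factorial * (N - k).factorial = N.factorial := by
    exact_mod_cast Nat.choose_mul_factorial_mul_factorial hkN
  have h2 := Stirling.le_factorial_stirling k
  have h3 := Stirling.le_factorial_stirling (N - k)
  have h4 := fact_le (n := N) (by omega)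
  rw [hNk] at h3
  have s1 : 2 * Real.sqrt k ≤ Real.sqrt (2 * Real.pi * k) := by
    have : 2 * Real.sqrt k = Real.sqrt (4 * k) := by
      rw [Real.sqrt_mul (by norm_num : (0 : ℝ) ≤ 4)]
      congr 1
      rw [show (4 : ℝ) = 2 ^ 2 by norm_num, Real.sqrt_sq (by norm_num)]
    rw [this]
    apply Real.sqrt_le_sqrt
    nlinarith [Real.pi_gt_three]
  have s2 : 3 / 2 * Real.sqrt N ≤ Real.sqrt (2 * Real.pi * (N - k)) := by
    have : 3 / 2 * Real.sqrt N = Real.sqrt (9 / 4 * N) := by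
      rw [Real.sqrt_mul (by norm_num : (0 : ℝ) ≤ 9 / 4)]
      congr 1
      rw [show (9 / 4 : ℝ) = (3 / 2) ^ 2 by norm_num, Real.sqrt_sq (by norm_num)]
    rw [this]
    apply Real.sqrt_le_sqrt
    nlinarith [Real.pi_gt_three]
  set A : ℝ := ((k : ℝ) / e) ^ k with hA
  set B : ℝ := (((N : ℝ) - k) / e) ^ (N - k) with hB
  set D : ℝ := ((N : ℝ) / e) ^ N with hD
  have hA0 : 0 < A := by positivity
  have hB0 : 0 < B := by
    rw [hB]
    have : (0 : ℝ) < N - k := by linarith
    positivity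
  have hD0 : 0 < D := by positivity
  have h5 : (N.choose k : ℝ) * (2 * Real.sqrt k * A) * (3 / 2 * Real.sqrt N * B) ≤
      e * Real.sqrt N * D := by
    refine le_trans ?_ h4
    rw [← h1]
    have t1 : 2 * Real.sqrt k * A ≤ k.factorial := (mul_le_mul_of_nonneg_right s1 hA0.le).trans h2
    have t2 : 3 / 2 * Real.sqrt N * B ≤ (N - k).factorial :=
      (mul_le_mul_of_nonneg_right s2 hB0.le).trans h3
    have : (0 : ℝ) ≤ N.choose k := Nat.cast_nonneg _
    gcongr
  have hAB : A * B = ((k : ℝ) / N) ^ k * (1 - (k : ℝ) / N) ^ (N - k) * D := by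
    have e1 : D = ((N : ℝ) / e) ^ k * ((N : ℝ) / e) ^ (N - k) := by
      rw [hD, ← pow_add]
      congr 1
      omega
    have e2 : (k : ℝ) / e = k / N * (N / e) := by field_simp
    have e3 : ((N : ℝ) - k) / e = (1 - k / N) * (N / e) := by field_simp
    rw [hA, hB, e1, e2, e3, mul_pow, mul_pow]
    ring
  set G := (N.choose k : ℝ) * (((k : ℝ) / N) ^ k * (1 - (k : ℝ) / N) ^ (N - k)) with hG
  have hsN : 0 < Real.sqrt N := Real.sqrt_pos.mpr hN0
  have hsk : 0 < Real.sqrt k := Real.sqrt_pos.mpr hk0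
  have h6 : (3 * (G * Real.sqrt k)) * (Real.sqrt N * D) ≤ e * (Real.sqrt N * D) := by
    calc (3 * (G * Real.sqrt k)) * (Real.sqrt N * D) =
          (N.choose k : ℝ) * (2 * Real.sqrt k * A) * (3 / 2 * Real.sqrt N * B) := by
          rw [hG]
          calc _ = 3 * (N.choose k : ℝ) * Real.sqrt k * Real.sqrt N *
                (((k : ℝ) / N) ^ k * (1 - (k : ℝ) / N) ^ (N - k) * D) := by ring
            _ = 3 * (N.choose k : ℝ) * Real.sqrt k * Real.sqrt N * (A * B) := by rw [hAB]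
            _ = _ := by ring
      _ ≤ e * Real.sqrt N * D := h5
      _ = _ := by ring
  have h7 : 3 * (G * Real.sqrt k) ≤ e := le_of_mul_le_mul_right h6 (by positivity)
  have h8 : e < 3 := by
    have := Real.exp_one_lt_d9
    rw [he]; linarith
  rw [le_div_iff₀ hsk]
  linarith

theorem log_le_quad {y : ℝ} (hy : 0 < y) :
    Real.log y ≤ (y - 1) - (y - 1) ^ 2 / (4 * max 1 y) := by
  set t := Real.sqrt y with ht
  have ht0 : 0 < t := Real.sqrt_pos.mpr hy
  have hty : t ^ 2 = y := Real.sq_sqrt hy.le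
  set M := max 1 y with hM
  have hM0 : 0 < M := lt_of_lt_of_le one_pos (le_max_left _ _)
  have h1 : Real.log y = 2 * Real.log t := by
    rw [← hty, Real.log_pow]; push_cast; ring
  have h2 := Real.log_le_sub_one_of_pos ht0
  have h3 : (t + 1) ^ 2 ≤ 4 * M := by
    have m1 : 1 ≤ M := le_max_left _ _
    have m2 : y ≤ M := le_max_right _ _
    nlinarith [sq_nonneg (t - 1)]
  have h4 : (y - 1) ^ 2 / (4 * M) ≤ (t - 1) ^ 2 := by
    rw [div_le_iff₀ (by positivity)]
    have : (y - 1) ^ 2 = (t - 1) ^ 2 * (t + 1) ^ 2 := by rw [← hty]; ring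
    rw [this]
    exact mul_le_mul_of_nonneg_left h3 (sq_nonneg _)
  have h5 : (y - 1) - (t - 1) ^ 2 = 2 * (t - 1) := by rw [← hty]; ring
  linarith

/-- Gaussian bound for binomial probabilities -/
theorem weight {N k : ℕ} (hk : 1 ≤ k) (hN : 2 * k ≤ N) {f : ℝ} (hf0 : 0 ≤ f) (hf1 : f ≤ 1) :
    (N.choose k : ℝ) * (f ^ k * (1 - f) ^ (N - k)) ≤
      1 / Real.sqrt k * Real.exp (-(N * (f - k / N) ^ 2 / (4 * max ((k : ℝ) / N) f))) := by
  have hN0 : (0 : ℝ) < N := by exact_mod_cast (by omega : 0 < N)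
  have hk0 : (0 : ℝ) < k := by exact_mod_cast hk
  have hkN : (2 * k : ℝ) ≤ N := by exact_mod_cast hN
  set α : ℝ := (k : ℝ) / N with hα
  have hα0 : 0 < α := by positivity
  have hα1 : α < 1 := by rw [hα, div_lt_one hN0]; linarith
  have hrhs : 0 ≤ 1 / Real.sqrt k * Real.exp (-(N * (f - α) ^ 2 / (4 * max α f))) := by positivity
  rcases hf0.eq_or_lt with h0 | h0
  · rw [← h0, zero_pow (by omega), zero_mul, mul_zero]
    rw [← h0] at hrhs
    exact hrhs
  have key : f ^ k * (1 - f) ^ (N - k) ≤ α ^ k * (1 - α) ^ (N - k) *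
      Real.exp (-(N * (f - α) ^ 2 / (4 * max α f))) := by
    have e1 : f = α * (f / α) := by field_simp
    have e2 : (1 - f) = (1 - α) * ((1 - f) / (1 - α)) := by
      have : 1 - α ≠ 0 := by linarith
      field_simp
    have h1 : (f / α) ^ k ≤ Real.exp (N * (f - α) - N * (f - α) ^ 2 / (4 * max α f)) := by
      have hfa : 0 < f / α := by positivity
      have hl := log_le_quad hfa
      have h2 : f / α ≤ Real.exp ((f / α - 1) - (f / α - 1) ^ 2 / (4 * max 1 (f / α))) := by
        rw [← Real.log_le_iff_le_exp hfa]; exact hl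
      refine (pow_le_pow_left₀ hfa.le h2 k).trans (le_of_eq ?_)
      rw [← Real.exp_nat_mul]
      congr 1
      have hmax : max 1 (f / α) = max α f / α := by
        rw [← max_div_div_right hα0.le α f, div_self hα0.ne']
      have hm0 : 0 < max α f := lt_of_lt_of_le hα0 (le_max_left _ _)
      have hkα : (k : ℝ) = N * α := by rw [hα]; field_simp
      rw [hmax]
      set m := max α f
      rw [hkα]
      field_simp
    have h2 : ((1 - f) / (1 - α)) ^ (N - k) ≤ Real.exp (N * (α - f)) := by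
      have ha : 0 < 1 - α := by linarith
      have hb : 0 ≤ (1 - f) / (1 - α) := div_nonneg (by linarith) ha.le
      have h3 : (1 - f) / (1 - α) ≤ Real.exp ((1 - f) / (1 - α) - 1) := by
        have := Real.add_one_le_exp ((1 - f) / (1 - α) - 1)
        linarith
      refine (pow_le_pow_left₀ hb h3 (N - k)).trans (le_of_eq ?_)
      rw [← Real.exp_nat_mul]
      congr 1
      rw [Nat.cast_sub (by omega)]
      have hkα : (k : ℝ) = N * α := by rw [hα]; field_simp
      rw [hkα]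
      have : 1 - α ≠ 0 := ha.ne'
      field_simp
      ring
    calc f ^ k * (1 - f) ^ (N - k) = (α * (f / α)) ^ k *
          ((1 - α) * ((1 - f) / (1 - α))) ^ (N - k) := by rw [← e1, ← e2]
      _ = α ^ k * (1 - α) ^ (N - k) * ((f / α) ^ k * ((1 - f) / (1 - α)) ^ (N - k)) := by
          rw [mul_pow, mul_pow]; ring
      _ ≤ α ^ k * (1 - α) ^ (N - k) * (Real.exp (N * (f - α) - N * (f - α) ^ 2 / (4 * max α f)) *
          Real.exp (N * (α - f))) := by
          have ha : 0 ≤ 1 - α := by linarith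
          have hb : 0 ≤ (1 - f) / (1 - α) := div_nonneg (by linarith) ha
          gcongr
      _ = _ := by
          rw [← Real.exp_add]
          congr 2
          ring
  calc (N.choose k : ℝ) * (f ^ k * (1 - f) ^ (N - k)) ≤
        (N.choose k : ℝ) * (α ^ k * (1 - α) ^ (N - k) *
          Real.exp (-(N * (f - α) ^ 2 / (4 * max α f)))) :=
        mul_le_mul_of_nonneg_left key (Nat.cast_nonneg _)
    _ = (N.choose k : ℝ) * (α ^ k * (1 - α) ^ (N - k)) *
          Real.exp (-(N * (f - α) ^ 2 / (4 * max α f))) := by ring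
    _ ≤ _ := mul_le_mul_of_nonneg_right (central hk hN) (Real.exp_pos _).le

/-- shells -/
theorem dominate {N k : ℕ} (hk : 1 ≤ k) (hN : 2 * k ≤ N) {f : ℝ} (hf0 : 0 ≤ f) (hf1 : f ≤ 1) :
    (N.choose k : ℝ) * (f ^ k * (1 - f) ^ (N - k)) ≤ 1 / Real.sqrt k *
      (∑ j ∈ range (k + 1), Real.exp (-(1 / 16)) ^ j *
        (if |f - k / N| ≤ min ((j + 1) * (Real.sqrt k / N)) ((k : ℝ) / N) then 1 else 0) +
      ∑ j ∈ range N, Real.exp (-(1 / 16)) ^ j *
        (if |f - 0| ≤ ((j : ℝ) + 1) / N then 1 else 0)) := by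
  have hN0 : (0 : ℝ) < N := by exact_mod_cast (by omega : 0 < N)
  have hk0 : (0 : ℝ) < k := by exact_mod_cast hk
  have hkN : (2 * k : ℝ) ≤ N := by exact_mod_cast hN
  have hsk : 0 < Real.sqrt k := Real.sqrt_pos.mpr hk0
  have hsk2 : Real.sqrt k ^ 2 = k := Real.sq_sqrt hk0.le
  refine (weight hk hN hf0 hf1).trans (mul_le_mul_of_nonneg_left ?_ (by positivity))
  set α : ℝ := (k : ℝ) / N with hα
  have hα0 : 0 < α := by positivity
  set r := Real.exp (-(1 / 16)) with hr
  have hr0 : 0 < r := Real.exp_pos _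
  have hterm1 : ∀ j ∈ range (k + 1), 0 ≤ r ^ j *
      (if |f - α| ≤ min ((j + 1) * (Real.sqrt k / N)) α then (1 : ℝ) else 0) := by
    intro j _
    split_ifs <;> positivity
  have hterm2 : ∀ j ∈ range N, 0 ≤ r ^ j *
      (if |f - 0| ≤ ((j : ℝ) + 1) / N then (1 : ℝ) else 0) := by
    intro j _
    split_ifs <;> positivity
  have hexp : ∀ j : ℕ, r ^ j = Real.exp (-((j : ℝ) / 16)) := by
    intro j
    rw [hr, ← Real.exp_nat_mul]
    congr 1
    ring
  by_cases hfα : f ≤ 2 * α
  · have habs : |f - α| ≤ α := abs_le.mpr ⟨by linarith, by linarith⟩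
    set σ := Real.sqrt k / N with hσ
    have hσ0 : 0 < σ := by positivity
    set j := ⌊|f - α| / σ⌋₊ with hj
    have hj1 : (j : ℝ) ≤ |f - α| / σ := Nat.floor_le (by positivity)
    have hj2 : |f - α| / σ < j + 1 := Nat.lt_floor_add_one _
    rw [le_div_iff₀ hσ0] at hj1
    rw [div_lt_iff₀ hσ0] at hj2
    have hασ : α = Real.sqrt k * σ := by
      rw [hα, hσ]
      rw [mul_div_assoc', ← sq, hsk2]
    have hjk : j < k + 1 := by
      have h1 : (j : ℝ) * σ ≤ Real.sqrt k * σ := by rw [← hασ]; exact hj1.trans habs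
      have h2 : (j : ℝ) ≤ Real.sqrt k := le_of_mul_le_mul_right h1 hσ0
      have h3 : Real.sqrt k ≤ k := by
        have : (1 : ℝ) ≤ k := by exact_mod_cast hk
        rw [Real.sqrt_le_left hk0.le]
        nlinarith
      have h4 : (j : ℝ) ≤ k := h2.trans h3
      have : j ≤ k := by exact_mod_cast h4
      omega
    have hmem : j ∈ range (k + 1) := mem_range.mpr hjk
    have hle1 := single_le_sum hterm1 hmem
    have hle2 := sum_nonneg hterm2
    refine le_trans ?_ (le_add_of_le_of_nonneg hle1 hle2)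
    rw [if_pos (le_min hj2.le habs), mul_one, hexp]
    apply Real.exp_le_exp.mpr
    apply neg_le_neg
    have hmax : max α f ≤ 2 * α := max_le (by linarith) hfα
    have hm0 : 0 < max α f := lt_of_lt_of_le hα0 (le_max_left _ _)
    have h5 : (j : ℝ) ^ 2 * σ ^ 2 ≤ (f - α) ^ 2 := by
      have := pow_le_pow_left₀ (by positivity) hj1 2
      rwa [mul_pow, sq_abs] at this
    have h6 : (j : ℝ) / 16 ≤ (j : ℝ) ^ 2 / 8 := by
      rcases Nat.eq_zero_or_pos j with h | h
      · rw [h]; norm_num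
      · have : (1 : ℝ) ≤ j := by exact_mod_cast h
        nlinarith
    refine h6.trans ?_
    rw [div_le_div_iff₀ (by norm_num) (by positivity)]
    have h7 : N * σ ^ 2 = α := by
      rw [hσ, hα, div_pow, hsk2]
      field_simp
    have h8 : (j : ℝ) ^ 2 * α ≤ N * (f - α) ^ 2 := by
      calc (j : ℝ) ^ 2 * α = N * ((j : ℝ) ^ 2 * σ ^ 2) := by rw [← h7]; ring
        _ ≤ _ := mul_le_mul_of_nonneg_left h5 hN0.le
    have h9 : (j : ℝ) ^ 2 * (4 * max α f) ≤ (j : ℝ) ^ 2 * (4 * (2 * α)) := by gcongr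
    nlinarith
  · push Not at hfα
    have hmax : max α f = f := max_eq_right (by linarith)
    have hf0' : 0 < f := by linarith
    set j := ⌈(N : ℝ) * f⌉₊ - 1 with hj
    have hc1 : 1 ≤ ⌈(N : ℝ) * f⌉₊ := Nat.one_le_ceil_iff.mpr (by positivity)
    have hc2 : ⌈(N : ℝ) * f⌉₊ ≤ N := by
      rw [Nat.ceil_le]
      nlinarith
    have hjc : (j : ℝ) + 1 = (⌈(N : ℝ) * f⌉₊ : ℝ) := by
      have : j + 1 = ⌈(N : ℝ) * f⌉₊ := by omega
      exact_mod_cast this
    have hj1 : (N : ℝ) * f ≤ j + 1 := by rw [hjc]; exact Nat.le_ceil _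
    have hj2 : (j : ℝ) ≤ N * f := by
      have := Nat.ceil_lt_add_one (by positivity : 0 ≤ (N : ℝ) * f)
      linarith
    have hmem : j ∈ range N := mem_range.mpr (by omega)
    have hle1 := single_le_sum hterm2 hmem
    have hle2 := sum_nonneg hterm1
    refine le_trans ?_ (le_add_of_nonneg_of_le hle2 hle1)
    have hcond : |f - 0| ≤ ((j : ℝ) + 1) / N := by
      rw [sub_zero, abs_of_pos hf0', le_div_iff₀ hN0]
      linarith
    rw [if_pos hcond, mul_one, hexp, hmax]
    apply Real.exp_le_exp.mpr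
    apply neg_le_neg
    rw [div_le_div_iff₀ (by norm_num) (by positivity)]
    have h1 : (f / 2) ^ 2 ≤ (f - α) ^ 2 := by
      apply pow_le_pow_left₀ (by positivity)
      linarith
    have h2 : (N : ℝ) * (f / 2) ^ 2 ≤ N * (f - α) ^ 2 := mul_le_mul_of_nonneg_left h1 hN0.le
    have h3 : (j : ℝ) * f ≤ N * f * f := mul_le_mul_of_nonneg_right hj2 hf0'.le
    nlinarith

theorem sum_geom {r : ℝ} (hr0 : 0 ≤ r) (hr1 : r < 1) (J : ℕ) :
    ∑ j ∈ range J, ((j : ℝ) + 1) * r ^ j ≤ 1 / (1 - r) ^ 2 := by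
  have h1 : 0 < 1 - r := by linarith
  have h : (∑ j ∈ range J, ((j : ℝ) + 1) * r ^ j) * (1 - r) ^ 2 =
      1 - (J + 1) * r ^ J + J * r ^ (J + 1) := by
    induction J with
    | zero => simp
    | succ J ih =>
      rw [sum_range_succ, add_mul, ih]
      push_cast
      ring
  rw [le_div_iff₀ (by positivity), h]
  have : (J : ℝ) * r ^ (J + 1) ≤ (J + 1) * r ^ J := by
    rw [pow_succ]
    have h2 : 0 ≤ r ^ J := pow_nonneg hr0 J
    have h3 : (J : ℝ) * (r ^ J * r) ≤ J * r ^ J := by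
      have : r ^ J * r ≤ r ^ J := mul_le_of_le_one_right h2 hr1.le
      exact mul_le_mul_of_nonneg_left this (Nat.cast_nonneg J)
    nlinarith
  linarith

end Pool.Agent.H189R2.Iid
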