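import Pool.Agent.H189R2.Iid.Bin

/-! Lower bounds for binomial probabilities near the mean. -/

set_option autoImplicit false

namespace Pool.Agent.H189R2.Iid

open Finset

theorem central_low {N k : ℕ} (hk : 1 ≤ k) (hkN : k < N) :
    1 / (4 * Real.sqrt k) ≤
      (N.choose k : ℝ) * (((k : ℝ) / N) ^ k * (1 - (k : ℝ) / N) ^ (N - k)) := by
  have hN0 : (0 : ℝ) < N := by exact_mod_cast (by omega : 0 < N)
  have hk0 : (0 : ℝ) < k := by exact_mod_cast hk
  have hNk : ((N - k : ℕ) : ℝ) = N - k := Nat.cast_sub hkN.le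
  have hNk0 : (0 : ℝ) < N - k := by rw [← hNk]; exact_mod_cast (by omega : 0 < N - k)
  set e := Real.exp 1 with he
  have he0 : 0 < e := Real.exp_pos 1
  have h1 : (N.choose k : ℝ) * k.factorial * (N - k).factorial = N.factorial := by
    exact_mod_cast Nat.choose_mul_factorial_mul_factorial hkN.le
  have h2 := fact_le hk
  have h3 := fact_le (n := N - k) (by omega)
  have h4 := Stirling.le_factorial_stirling N
  rw [hNk] at h3
  have s1 : 2 * Real.sqrt N ≤ Real.sqrt (2 * Real.pi * N) := by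
    have : 2 * Real.sqrt N = Real.sqrt (4 * N) := by
      rw [Real.sqrt_mul (by norm_num : (0 : ℝ) ≤ 4)]
      congr 1
      rw [show (4 : ℝ) = 2 ^ 2 by norm_num, Real.sqrt_sq (by norm_num)]
    rw [this]
    apply Real.sqrt_le_sqrt
    nlinarith [Real.pi_gt_three]
  have s2 : Real.sqrt (N - k) ≤ Real.sqrt N := Real.sqrt_le_sqrt (by linarith)
  set A : ℝ := ((k : ℝ) / e) ^ k with hA
  set B : ℝ := (((N : ℝ) - k) / e) ^ (N - k) with hB
  set D : ℝ := ((N : ℝ) / e) ^ N with hD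
  have hA0 : 0 < A := by positivity
  have hB0 : 0 < B := by positivity
  have hD0 : 0 < D := by positivity
  have hC0 : (0 : ℝ) ≤ N.choose k := Nat.cast_nonneg _
  have h5 : 2 * Real.sqrt N * D ≤
      (N.choose k : ℝ) * (e * Real.sqrt k * A) * (e * Real.sqrt N * B) := by
    calc 2 * Real.sqrt N * D ≤ Real.sqrt (2 * Real.pi * N) * D :=
          mul_le_mul_of_nonneg_right s1 hD0.le
      _ ≤ N.factorial := h4
      _ = (N.choose k : ℝ) * k.factorial * (N - k).factorial := h1.symm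
      _ ≤ (N.choose k : ℝ) * (e * Real.sqrt k * A) * (e * Real.sqrt (N - k) * B) := by
          gcongr
      _ ≤ _ := by gcongr
  have hAB : A * B = ((k : ℝ) / N) ^ k * (1 - (k : ℝ) / N) ^ (N - k) * D := by
    have e1 : D = ((N : ℝ) / e) ^ k * ((N : ℝ) / e) ^ (N - k) := by
      rw [hD, ← pow_add]
      congr 1
      omega
    have e2 : (k : ℝ) / e = k / N * (N / e) := by field_simp
    have e3 : ((N : ℝ) - k) / e = (1 - k / N) * (N / e) := by field_simp
    rw [hA, hB, e1, e2, e3, mul_pow, mul_pow]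
    ring
  set G := (N.choose k : ℝ) * (((k : ℝ) / N) ^ k * (1 - (k : ℝ) / N) ^ (N - k)) with hG
  have hsN : 0 < Real.sqrt N := Real.sqrt_pos.mpr hN0
  have hsk : 0 < Real.sqrt k := Real.sqrt_pos.mpr hk0
  have h6 : 2 * (Real.sqrt N * D) ≤ (e ^ 2 * (G * Real.sqrt k)) * (Real.sqrt N * D) := by
    calc 2 * (Real.sqrt N * D) = 2 * Real.sqrt N * D := by ring
      _ ≤ _ := h5
      _ = (N.choose k : ℝ) * (e ^ 2 * Real.sqrt k * Real.sqrt N) * (A * B) := by ring
      _ = _ := by rw [hAB, hG]; ring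
  have h7 : 2 ≤ e ^ 2 * (G * Real.sqrt k) := le_of_mul_le_mul_right h6 (by positivity)
  have h8 : e < 2.72 := by
    have := Real.exp_one_lt_d9
    rw [he]; linarith
  have h9 : e ^ 2 ≤ 8 := by nlinarith
  have hG0 : 0 ≤ G * Real.sqrt k := by
    by_contra hcon
    push Not at hcon
    have : e ^ 2 * (G * Real.sqrt k) < 0 := mul_neg_of_pos_of_neg (by positivity) hcon
    linarith
  have h10 : e ^ 2 * (G * Real.sqrt k) ≤ 8 * (G * Real.sqrt k) :=
    mul_le_mul_of_nonneg_right h9 hG0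
  rw [div_le_iff₀ (by positivity)]
  linarith

theorem tilt {N k : ℕ} (hk : 1 ≤ k) (hkN : k < N) {p : ℝ} (hp0 : 0 < p) (hp1 : p < 1) :
    ((k : ℝ) / N) ^ k * (1 - (k : ℝ) / N) ^ (N - k) *
      Real.exp (-(N * ((k : ℝ) / N - p) ^ 2 / (p * (1 - p)))) ≤ p ^ k * (1 - p) ^ (N - k) := by
  have hN0 : (0 : ℝ) < N := by exact_mod_cast (by omega : 0 < N)
  have hk0 : (0 : ℝ) < k := by exact_mod_cast hk
  have hNk : ((N - k : ℕ) : ℝ) = N - k := Nat.cast_sub hkN.le
  have hNk0 : (0 : ℝ) < N - k := by rw [← hNk]; exact_mod_cast (by omega : 0 < N - k)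
  set r : ℝ := (k : ℝ) / N with hr
  have hr0 : 0 < r := by positivity
  have hr1 : r < 1 := by rw [hr, div_lt_one hN0]; linarith
  have hkr : (k : ℝ) = N * r := by rw [hr]; field_simp
  have hq0 : 0 < 1 - p := by linarith
  have hq1 : 0 < 1 - r := by linarith
  have e1 : r * Real.exp (1 - r / p) ≤ p := by
    have h := Real.add_one_le_exp (r / p - 1)
    rw [sub_add_cancel] at h
    have h2 : Real.exp (1 - r / p) = (Real.exp (r / p - 1))⁻¹ := by
      rw [← Real.exp_neg]; congr 1; ring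
    rw [h2, ← div_eq_mul_inv, div_le_iff₀ (Real.exp_pos _)]
    rw [div_le_iff₀ hp0] at h
    linarith
  have e2 : (1 - r) * Real.exp (1 - (1 - r) / (1 - p)) ≤ 1 - p := by
    have h := Real.add_one_le_exp ((1 - r) / (1 - p) - 1)
    rw [sub_add_cancel] at h
    have h2 : Real.exp (1 - (1 - r) / (1 - p)) = (Real.exp ((1 - r) / (1 - p) - 1))⁻¹ := by
      rw [← Real.exp_neg]; congr 1; ring
    rw [h2, ← div_eq_mul_inv, div_le_iff₀ (Real.exp_pos _)]
    rw [div_le_iff₀ hq0] at h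
    linarith
  have f1 := pow_le_pow_left₀ (by positivity) e1 k
  have f2 := pow_le_pow_left₀ (by positivity) e2 (N - k)
  have f3 : Real.exp (-(N * (r - p) ^ 2 / (p * (1 - p)))) =
      Real.exp (1 - r / p) ^ k * Real.exp (1 - (1 - r) / (1 - p)) ^ (N - k) := by
    rw [← Real.exp_nat_mul, ← Real.exp_nat_mul, ← Real.exp_add, hNk, hkr]
    congr 1
    field_simp
    ring
  rw [f3]
  calc _ = (r * Real.exp (1 - r / p)) ^ k *
        ((1 - r) * Real.exp (1 - (1 - r) / (1 - p))) ^ (N - k) := by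
        rw [mul_pow, mul_pow]; ring
    _ ≤ _ := mul_le_mul f1 f2 (by positivity) (by positivity)

/-- the probability of exactly `k` successes when the success probability is close to `k / N` -/
theorem binom_low {m g N k : ℕ} (hg : 1 ≤ g) (hm : 6 * (g + 2) ≤ 5 * m) (hN1 : m * g ≤ N)
    (hN2 : N ≤ 4 * (m * g)) (hk1 : g * N ≤ m * k) (hk2 : m * k ≤ (g + 2) * N) {p : ℝ}
    (hp1 : (g : ℝ) / m ≤ p) (hp2 : p ≤ ((g : ℝ) + 2) / m) :
    Real.exp (-96) / (16 * g) ≤ (N.choose k : ℝ) * (p ^ k * (1 - p) ^ (N - k)) := by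
  have hg0 : (1 : ℝ) ≤ g := by exact_mod_cast hg
  have hm1 : (6 : ℝ) * (g + 2) ≤ 5 * m := by exact_mod_cast hm
  have hm0 : (0 : ℝ) < m := by linarith
  have hN1' : (m : ℝ) * g ≤ N := by exact_mod_cast hN1
  have hN2' : (N : ℝ) ≤ 4 * (m * g) := by exact_mod_cast hN2
  have hk1' : (g : ℝ) * N ≤ m * k := by exact_mod_cast hk1
  have hk2' : (m : ℝ) * k ≤ (g + 2) * N := by exact_mod_cast hk2
  have hN0 : (0 : ℝ) < N := lt_of_lt_of_le (by positivity) hN1'
  have hk0 : 1 ≤ k := by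
    by_contra hcon
    have : k = 0 := by omega
    rw [this] at hk1'
    simp only [Nat.cast_zero, mul_zero] at hk1'
    have : 0 < (g : ℝ) * N := by positivity
    linarith
  have h34 : ((g : ℝ) + 2) / m ≤ 5 / 6 := by
    rw [div_le_iff₀ hm0]; linarith
  have hr2 : (k : ℝ) / N ≤ ((g : ℝ) + 2) / m := by
    rw [div_le_div_iff₀ hN0 hm0]; linarith
  have hr1 : (g : ℝ) / m ≤ (k : ℝ) / N := by
    rw [div_le_div_iff₀ hm0 hN0]; linarith
  have hkN : k < N := by
    have : (k : ℝ) / N < 1 := by linarith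
    rw [div_lt_one hN0] at this
    exact_mod_cast this
  have hgm : (0 : ℝ) < (g : ℝ) / m := by positivity
  have hp0 : 0 < p := by linarith
  have hpl : p < 1 := by linarith
  have h1 := central_low hk0 hkN
  have h2 := tilt hk0 hkN hp0 hpl
  have h3 : (N : ℝ) * ((k : ℝ) / N - p) ^ 2 / (p * (1 - p)) ≤ 96 := by
    have hd : |(k : ℝ) / N - p| ≤ 2 / m := by
      rw [abs_le]
      have : ((g : ℝ) + 2) / m = g / m + 2 / m := by ring
      constructor <;> linarith
    have hd2 : ((k : ℝ) / N - p) ^ 2 ≤ (2 / m) ^ 2 := by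
      rw [← sq_abs]
      exact pow_le_pow_left₀ (abs_nonneg _) hd 2
    have hpp : (g : ℝ) / m * (1 / 6) ≤ p * (1 - p) :=
      mul_le_mul hp1 (by linarith) (by norm_num) hp0.le
    have hpp0 : 0 < p * (1 - p) := mul_pos hp0 (by linarith)
    rw [div_le_iff₀ hpp0]
    calc (N : ℝ) * ((k : ℝ) / N - p) ^ 2 ≤ (4 * (m * g)) * (2 / m) ^ 2 := by gcongr
      _ = 96 * ((g : ℝ) / m * (1 / 6)) := by field_simp; ring
      _ ≤ _ := by gcongr
  have h4 : Real.sqrt k ≤ 4 * g := by
    apply Real.sqrt_le_iff.mpr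
    refine ⟨by positivity, ?_⟩
    have : (m : ℝ) * k ≤ m * (16 * g ^ 2) := by
      calc (m : ℝ) * k ≤ (g + 2) * (4 * (m * g)) := hk2'.trans (by gcongr)
        _ = m * (4 * g * (g + 2)) := by ring
        _ ≤ _ := by
            apply mul_le_mul_of_nonneg_left _ hm0.le
            nlinarith
    have := le_of_mul_le_mul_left this hm0
    nlinarith
  have hsk : 0 < Real.sqrt k := Real.sqrt_pos.mpr (by exact_mod_cast hk0)
  calc Real.exp (-96) / (16 * g) = 1 / (4 * (4 * g)) * Real.exp (-96) := by ring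
    _ ≤ 1 / (4 * Real.sqrt k) *
        Real.exp (-(N * ((k : ℝ) / N - p) ^ 2 / (p * (1 - p)))) := by
        apply mul_le_mul _ (Real.exp_le_exp.mpr (by linarith)) (Real.exp_pos _).le (by positivity)
        apply one_div_le_one_div_of_le (by positivity)
        linarith
    _ ≤ (N.choose k : ℝ) * (((k : ℝ) / N) ^ k * (1 - (k : ℝ) / N) ^ (N - k)) *
        Real.exp (-(N * ((k : ℝ) / N - p) ^ 2 / (p * (1 - p)))) :=
        mul_le_mul_of_nonneg_right h1 (Real.exp_pos _).le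
    _ = (N.choose k : ℝ) * (((k : ℝ) / N) ^ k * (1 - (k : ℝ) / N) ^ (N - k) *
        Real.exp (-(N * ((k : ℝ) / N - p) ^ 2 / (p * (1 - p))))) := by ring
    _ ≤ _ := mul_le_mul_of_nonneg_left h2 (Nat.cast_nonneg _)

end Pool.Agent.H189R2.Iid
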