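import Pool.Agent.H189R2.Lev.Lines

/-! Concave chains of levels of a simple arrangement of lines, and the number of crossings between
the edges of two levels. -/

set_option autoImplicit false

namespace Pool.Agent.H189R2.Iid

open Finset Pool.Agent.H189R2.Lev

/-- the vertices of a simple arrangement, listed from left to right -/
structure Arr (n N : ℕ) where
  a : Fin n → ℝ
  B : Fin n → ℝ
  x : ℕ → ℝ
  u : ℕ → Fin n
  w : ℕ → Fin n
  ha : Function.Injective a
  hx : ∀ s t, s < t → t < N → x s < x t
  huw : ∀ t < N, a (w t) < a (u t)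
  hcr : ∀ t < N, ht a B (u t) (x t) = ht a B (w t) (x t)
  hall : ∀ l l', a l' < a l → ∃ t < N, u t = l ∧ w t = l'

namespace Arr

variable {n N : ℕ} (A : Arr n N)

/-- height -/
def h (l : Fin n) (z : ℝ) : ℝ := ht A.a A.B l z

theorem h_sub (l : Fin n) (y z : ℝ) : A.h l y = A.h l z + A.a l * (y - z) := by
  unfold h ht; ring

theorem x_lt {s t : ℕ} (hs : s < N) (ht : t < N) : A.x s < A.x t ↔ s < t := by
  constructor
  · intro h
    by_contra hcon
    push Not at hcon
    rcases hcon.lt_or_eq with h' | h'
    · exact lt_asymm h (A.hx _ _ h' hs)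
    · subst h'; exact lt_irrefl _ h
  · exact fun h => A.hx _ _ h ht

theorem x_le {s t : ℕ} (hs : s < N) (ht : t < N) : A.x s ≤ A.x t ↔ s ≤ t := by
  rw [← not_lt, A.x_lt ht hs, not_lt]

theorem x_inj {s t : ℕ} (hs : s < N) (ht : t < N) (h : A.x s = A.x t) : s = t := by
  apply le_antisymm
  · exact (A.x_le hs ht).mp h.le
  · exact (A.x_le ht hs).mp h.ge

theorem heq {t : ℕ} (ht : t < N) : A.h (A.u t) (A.x t) = A.h (A.w t) (A.x t) := A.hcr t ht

/-- difference of two lines through their crossing -/
theorem diff {l l' : Fin n} {t : ℕ} (ht : t < N) (hl : A.u t = l) (hl' : A.w t = l') (z : ℝ) :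
    A.h l' z - A.h l z = (A.a l' - A.a l) * (z - A.x t) := by
  subst hl hl'
  have := A.heq ht
  rw [A.h_sub (A.w t) z (A.x t), A.h_sub (A.u t) z (A.x t), this]
  ring

theorem pair_of_eq {l l' : Fin n} {t : ℕ} (ht : t < N) (hll : A.a l' < A.a l)
    (h : A.h l (A.x t) = A.h l' (A.x t)) : A.u t = l ∧ A.w t = l' := by
  obtain ⟨t', ht', h1, h2⟩ := A.hall l l' hll
  have h3 := A.diff ht' h1 h2 (A.x t)
  rw [h, sub_self] at h3
  rcases mul_eq_zero.mp h3.symm with h4 | h4
  · linarith
  · have := A.x_inj ht ht' (by linarith)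
    subst this
    exact ⟨h1, h2⟩

theorem tie {l l' : Fin n} {t : ℕ} (ht : t < N) (hne : l ≠ l')
    (h : A.h l (A.x t) = A.h l' (A.x t)) :
    (A.u t = l ∧ A.w t = l') ∨ (A.u t = l' ∧ A.w t = l) := by
  rcases lt_or_gt_of_ne (fun h' => hne (A.ha h')) with h1 | h1
  · right; exact A.pair_of_eq ht h1 h.symm
  · left; exact A.pair_of_eq ht h1 h

/-- number of lines strictly below the `t`-th vertex -/
noncomputable def c (t : ℕ) : ℕ := (univ.filter (fun l => A.h l (A.x t) < A.h (A.u t) (A.x t))).card

open Classical in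
/-- rank just left of the `t`-th vertex -/
noncomputable def rankL (t : ℕ) (l : Fin n) : ℕ :=
  (univ.filter (fun l' => A.h l' (A.x t) < A.h l (A.x t) ∨
    (A.h l' (A.x t) = A.h l (A.x t) ∧ A.a l < A.a l'))).card

open Classical in
/-- rank just right of the `t`-th vertex -/
noncomputable def rankR (t : ℕ) (l : Fin n) : ℕ :=
  (univ.filter (fun l' => A.h l' (A.x t) < A.h l (A.x t) ∨
    (A.h l' (A.x t) = A.h l (A.x t) ∧ A.a l' < A.a l))).card

theorem rankR_eq {t : ℕ} (ht : t + 1 < N) (l : Fin n) : A.rankR t l = A.rankL (t + 1) l := by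
  classical
  unfold rankR rankL
  congr 1
  ext l'
  simp only [mem_filter, mem_univ, true_and]
  have ht0 : t < N := by omega
  by_cases hll : l' = l
  · subst hll; simp
  rcases lt_or_gt_of_ne (fun h' => hll (A.ha h')) with h1 | h1
  · -- a l' < a l
    obtain ⟨s, hs, e1, e2⟩ := A.hall l l' h1
    have d1 := A.diff hs e1 e2 (A.x t)
    have d2 := A.diff hs e1 e2 (A.x (t + 1))
    have hneg : A.a l' - A.a l < 0 := by linarith
    constructor
    · intro h
      have h3 : A.h l' (A.x t) - A.h l (A.x t) ≤ 0 := by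
        rcases h with h | h
        · linarith
        · linarith [h.1]
      rw [d1] at h3
      have h4 : A.x s ≤ A.x t := by
        by_contra hcon
        push Not at hcon
        have := mul_pos_of_neg_of_neg hneg (sub_neg.mpr hcon)
        linarith
      have h5 := (A.x_le hs ht0).mp h4
      have h6 := (A.x_lt hs ht).mpr (by omega : s < t + 1)
      left
      have := mul_neg_of_neg_of_pos hneg (sub_pos.mpr h6)
      linarith
    · intro h
      have h3 : A.h l' (A.x (t + 1)) - A.h l (A.x (t + 1)) < 0 := by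
        rcases h with h | h
        · linarith
        · linarith [h.2]
      rw [d2] at h3
      have h4 : A.x s < A.x (t + 1) := by
        by_contra hcon
        push Not at hcon
        have := mul_nonneg_of_nonpos_of_nonpos hneg.le (sub_nonpos.mpr hcon)
        linarith
      have h5 := (A.x_lt hs ht).mp h4
      have h6 := (A.x_le hs ht0).mpr (by omega : s ≤ t)
      rcases h6.lt_or_eq with h7 | h7
      · left
        have := mul_neg_of_neg_of_pos hneg (sub_pos.mpr h7)
        linarith
      · right
        rw [h7, sub_self, mul_zero] at d1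
        exact ⟨by linarith, h1⟩
  · -- a l < a l'
    obtain ⟨s, hs, e1, e2⟩ := A.hall l' l h1
    have d1 := A.diff hs e1 e2 (A.x t)
    have d2 := A.diff hs e1 e2 (A.x (t + 1))
    have hneg : A.a l - A.a l' < 0 := by linarith
    constructor
    · intro h
      have h3 : 0 < A.h l (A.x t) - A.h l' (A.x t) := by
        rcases h with h | h
        · linarith
        · linarith [h.2]
      rw [d1] at h3
      have h4 : A.x t < A.x s := by
        by_contra hcon
        push Not at hcon
        have := mul_nonpos_of_nonpos_of_nonneg hneg.le (sub_nonneg.mpr hcon)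
        linarith
      have h5 := (A.x_lt ht0 hs).mp h4
      have h6 := (A.x_le ht hs).mpr (by omega : t + 1 ≤ s)
      rcases h6.lt_or_eq with h7 | h7
      · left
        have := mul_pos_of_neg_of_neg hneg (sub_neg.mpr h7)
        linarith
      · right
        rw [h7, sub_self, mul_zero] at d2
        exact ⟨by rw [h7]; linarith, h1⟩
    · intro h
      have h3 : 0 ≤ A.h l (A.x (t + 1)) - A.h l' (A.x (t + 1)) := by
        rcases h with h | h
        · linarith
        · linarith [h.1]
      rw [d2] at h3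
      have h4 : A.x (t + 1) ≤ A.x s := by
        by_contra hcon
        push Not at hcon
        have := mul_neg_of_neg_of_pos hneg (sub_pos.mpr hcon)
        linarith
      have h5 := (A.x_le ht hs).mp h4
      have h6 := (A.x_lt ht0 hs).mpr (by omega : t < s)
      left
      have := mul_pos_of_neg_of_neg hneg (sub_neg.mpr h6)
      linarith

theorem rankL_u {t : ℕ} (ht : t < N) : A.rankL t (A.u t) = A.c t := by
  classical
  unfold rankL c
  congr 1
  ext l
  simp only [mem_filter, mem_univ, true_and]
  constructor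
  · rintro (h | ⟨h1, h2⟩)
    · exact h
    · exfalso
      have := (A.pair_of_eq ht h2 h1).1
      rw [← this] at h2
      exact lt_irrefl _ h2
  · exact fun h => Or.inl h

theorem rankR_w {t : ℕ} (ht : t < N) : A.rankR t (A.w t) = A.c t := by
  classical
  unfold rankR c
  congr 1
  ext l
  simp only [mem_filter, mem_univ, true_and]
  rw [A.heq ht]
  constructor
  · rintro (h | ⟨h1, h2⟩)
    · exact h
    · exfalso
      have := (A.pair_of_eq ht h2 h1.symm).2
      rw [this] at h2
      exact lt_irrefl _ h2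
  · exact fun h => Or.inl h

theorem rankL_w {t : ℕ} (ht : t < N) : A.rankL t (A.w t) = A.c t + 1 := by
  classical
  unfold rankL c
  rw [← card_insert_of_notMem (s := univ.filter (fun l => A.h l (A.x t) < A.h (A.u t) (A.x t)))
    (a := A.u t) (by simp)]
  congr 1
  ext l
  simp only [mem_filter, mem_univ, true_and, mem_insert]
  rw [A.heq ht]
  constructor
  · rintro (h | ⟨h1, h2⟩)
    · exact Or.inr h
    · left
      exact (A.pair_of_eq ht h2 h1).1.symm
  · rintro (h | h)
    · subst h
      exact Or.inr ⟨A.heq ht, A.huw t ht⟩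
    · exact Or.inl h

theorem rankR_u {t : ℕ} (ht : t < N) : A.rankR t (A.u t) = A.c t + 1 := by
  classical
  unfold rankR c
  rw [← card_insert_of_notMem (s := univ.filter (fun l => A.h l (A.x t) < A.h (A.u t) (A.x t)))
    (a := A.w t) (by simp [A.heq ht])]
  congr 1
  ext l
  simp only [mem_filter, mem_univ, true_and, mem_insert]
  constructor
  · rintro (h | ⟨h1, h2⟩)
    · exact Or.inr h
    · left
      exact (A.pair_of_eq ht h2 h1.symm).2.symm
  · rintro (h | h)
    · subst h
      exact Or.inr ⟨(A.heq ht).symm, A.huw t ht⟩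
    · exact Or.inl h

theorem rank_other {t : ℕ} (ht : t < N) {l : Fin n} (h1 : l ≠ A.u t) (h2 : l ≠ A.w t) :
    A.rankR t l = A.rankL t l := by
  classical
  unfold rankR rankL
  congr 1
  ext l'
  simp only [mem_filter, mem_univ, true_and]
  have key : A.h l' (A.x t) = A.h l (A.x t) → l' = l := by
    intro h
    by_contra hne
    rcases A.tie ht hne h with ⟨_, h4⟩ | ⟨h3, _⟩
    · exact h2 h4.symm
    · exact h1 h3.symm
  constructor
  · rintro (h | ⟨h, h'⟩)
    · exact Or.inl h
    · rw [key h] at h'; exact absurd h' (lt_irrefl _)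
  · rintro (h | ⟨h, h'⟩)
    · exact Or.inl h
    · rw [key h] at h'; exact absurd h' (lt_irrefl _)

theorem ne_uw {t : ℕ} (ht : t < N) : A.u t ≠ A.w t := by
  intro h
  have := A.huw t ht
  rw [h] at this
  exact lt_irrefl _ this

/-- the line carried by the token `i` just left of the `t`-th vertex -/
noncomputable def tok (k : ℕ) : ℕ → Fin n → Fin n
  | 0, i => i
  | t + 1, i => if tok k t i = A.u t ∧ A.c t = k then A.w t else tok k t i

theorem bl_succ {k t : ℕ} (ht : t + 1 < N) (l : Fin n) :
    A.rankL (t + 1) l ≤ k ↔ (if A.c t = k then (A.rankL t l ≤ k ∧ l ≠ A.u t) ∨ l = A.w t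
      else A.rankL t l ≤ k) := by
  have ht0 : t < N := by omega
  rw [← A.rankR_eq ht]
  have hne := A.ne_uw ht0
  by_cases hu : l = A.u t
  · subst hu
    rw [A.rankR_u ht0, A.rankL_u ht0]
    split_ifs with h
    · simp only [ne_eq, not_true_eq_false, and_false, hne, or_false, iff_false, h]
      omega
    · omega
  · by_cases hw : l = A.w t
    · subst hw
      rw [A.rankR_w ht0, A.rankL_w ht0]
      split_ifs with h
      · simp only [ne_eq, or_true, iff_true]; omega
      · omega
    · rw [A.rank_other ht0 hu hw]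
      split_ifs with h
      · simp [hu, hw]
      · rfl

theorem tok_mem {k : ℕ} {i : Fin n} (hi : A.rankL 0 i ≤ k) :
    ∀ t < N, A.rankL t (A.tok k t i) ≤ k := by
  intro t
  induction t with
  | zero => intro _; exact hi
  | succ t ih =>
    intro ht
    have h := ih (by omega)
    rw [A.bl_succ ht]
    simp only [tok]
    by_cases h1 : A.c t = k
    · simp only [h1, and_true, if_true]
      by_cases h2 : A.tok k t i = A.u t
      · simp [h2]
      · simp [h2, h]
    · simp [h1, h]

theorem tok_inj {k : ℕ} {i j : Fin n} (hi : A.rankL 0 i ≤ k) (hj : A.rankL 0 j ≤ k) :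
    ∀ t < N, A.tok k t i = A.tok k t j → i = j := by
  intro t
  induction t with
  | zero => intro _ h; exact h
  | succ t ih =>
    intro ht heq
    have ht0 : t < N := by omega
    have h1 := A.tok_mem hi t ht0
    have h2 := A.tok_mem hj t ht0
    have h3 := A.rankL_w ht0
    simp only [tok] at heq
    by_cases hc : A.c t = k
    · simp only [hc, and_true] at heq
      by_cases e1 : A.tok k t i = A.u t <;> by_cases e2 : A.tok k t j = A.u t
      · exact ih ht0 (e1.trans e2.symm)
      · simp only [e1, e2, if_true, if_false] at heq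
        rw [← heq, h3] at h2
        omega
      · simp only [e1, e2, if_true, if_false] at heq
        rw [heq, h3] at h1
        omega
      · simp only [e1, e2, if_false] at heq
        exact ih ht0 heq
    · simp only [hc, and_false, if_false] at heq
      exact ih ht0 heq

theorem tok_surj {k : ℕ} : ∀ t < N, ∀ l, A.rankL t l ≤ k →
    ∃ i, A.rankL 0 i ≤ k ∧ A.tok k t i = l := by
  intro t
  induction t with
  | zero => intro _ l hl; exact ⟨l, hl, rfl⟩
  | succ t ih =>
    intro ht l hl
    have ht0 : t < N := by omega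
    rw [A.bl_succ ht] at hl
    by_cases hc : A.c t = k
    · simp only [hc, if_true] at hl
      by_cases hw : l = A.w t
      · obtain ⟨i, hi, hi'⟩ := ih ht0 (A.u t) (by rw [A.rankL_u ht0]; omega)
        exact ⟨i, hi, by simp only [tok, hi', hc, and_self, if_true, hw]⟩
      · obtain ⟨h1, h2⟩ := hl.resolve_right hw
        obtain ⟨i, hi, hi'⟩ := ih ht0 l h1
        exact ⟨i, hi, by simp only [tok, hi', h2, false_and, if_false]⟩
    · simp only [hc, if_false] at hl
      obtain ⟨i, hi, hi'⟩ := ih ht0 l hl
      exact ⟨i, hi, by simp only [tok, hi', hc, and_false, if_false]⟩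

theorem tok_cont {k t : ℕ} (ht : t < N) (i : Fin n) :
    A.h (A.tok k (t + 1) i) (A.x t) = A.h (A.tok k t i) (A.x t) ∧
    A.a (A.tok k (t + 1) i) ≤ A.a (A.tok k t i) := by
  simp only [tok]
  by_cases h : A.tok k t i = A.u t ∧ A.c t = k
  · simp only [h, and_self, if_true]
    exact ⟨(A.heq ht).symm, (A.huw t ht).le⟩
  · simp [h]

/-- value of a chain at the abscissa of the `t`-th vertex -/
noncomputable def val (k t : ℕ) (i : Fin n) : ℝ := A.h (A.tok k t i) (A.x t)

/-- a line that supports a chain at a bend is above the chain -/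
theorem support {k s : ℕ} {i : Fin n} {m : ℝ} (hs : s < N) (hi : A.tok k s i = A.u s)
    (hc : A.c s = k) (h1 : A.a (A.w s) < m) (h2 : m < A.a (A.u s)) :
    ∀ t < N, t ≠ s → A.val k t i < A.val k s i + m * (A.x t - A.x s) := by
  have hright : ∀ d : ℕ, s + 1 + d < N →
      A.val k (s + 1 + d) i < A.val k s i + m * (A.x (s + 1 + d) - A.x s) ∧
      A.a (A.tok k (s + 1 + d) i) ≤ A.a (A.w s) := by
    intro d
    induction d with
    | zero =>
      intro ht
      have e : A.tok k (s + 1 + 0) i = A.w s := by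
        simp only [tok, hi, hc, and_self, if_true]
      have hxx := A.hx s (s + 1 + 0) (by omega) ht
      refine ⟨?_, by rw [e]⟩
      unfold val
      rw [e, hi, A.heq hs, A.h_sub (A.w s) (A.x (s + 1 + 0)) (A.x s)]
      nlinarith
    | succ d ih =>
      intro ht
      obtain ⟨g1, g2⟩ := ih (by omega)
      have hc' := A.tok_cont (k := k) (t := s + 1 + d) (by omega) i
      have hxx := A.hx (s + 1 + d) (s + 1 + d + 1) (by omega) ht
      have e : s + 1 + (d + 1) = s + 1 + d + 1 := by ring
      rw [e] at ht ⊢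
      refine ⟨?_, hc'.2.trans g2⟩
      unfold val at g1 ⊢
      rw [A.h_sub (A.tok k (s + 1 + d + 1) i) (A.x (s + 1 + d + 1)) (A.x (s + 1 + d)), hc'.1]
      nlinarith [hc'.2.trans g2]
  have hleft : ∀ d : ℕ, d ≤ s →
      A.val k (s - d) i ≤ A.val k s i + m * (A.x (s - d) - A.x s) ∧
      (0 < d → A.val k (s - d) i < A.val k s i + m * (A.x (s - d) - A.x s)) ∧
      A.a (A.u s) ≤ A.a (A.tok k (s - d) i) := by
    intro d
    induction d with
    | zero =>
      intro _
      simp only [Nat.sub_zero, sub_self, mul_zero, add_zero, le_refl, lt_self_iff_false,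
        false_imp_iff, true_and, hi]
    | succ d ih =>
      intro hd
      obtain ⟨g1, _, g3⟩ := ih (by omega)
      have e : s - d = s - (d + 1) + 1 := by omega
      rw [e] at g1 g3
      have hc' := A.tok_cont (k := k) (t := s - (d + 1)) (by omega) i
      have hxx := A.hx (s - (d + 1)) (s - (d + 1) + 1) (by omega) (by omega)
      have key : A.val k (s - (d + 1)) i < A.val k s i + m * (A.x (s - (d + 1)) - A.x s) := by
        unfold val at g1 ⊢
        rw [← hc'.1, A.h_sub (A.tok k (s - (d + 1) + 1) i) (A.x (s - (d + 1)))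
          (A.x (s - (d + 1) + 1))]
        nlinarith [g3]
      exact ⟨key.le, fun _ => key, g3.trans hc'.2⟩
  intro t ht hts
  rcases lt_or_gt_of_ne hts with h | h
  · have := (hleft (s - t) (by omega)).2.1 (by omega)
    have e : s - (s - t) = t := by omega
    rwa [e] at this
  · obtain ⟨d, rfl⟩ : ∃ d, t = s + 1 + d := ⟨t - (s + 1), by omega⟩
    exact (hright d ht).1

/-- slope of the line through two vertices -/
noncomputable def sl (s t : ℕ) : ℝ :=
  (A.h (A.u t) (A.x t) - A.h (A.u s) (A.x s)) / (A.x t - A.x s)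

/-- the line through the two vertices passes locally between the two lines at both of them -/
def Bit (s t : ℕ) : Prop :=
  A.a (A.w s) < A.sl s t ∧ A.sl s t < A.a (A.u s) ∧ A.a (A.w t) < A.sl s t ∧
    A.sl s t < A.a (A.u t)

/-- the charging -/
theorem charge {ka kb s t : ℕ} (hst : s < t) (ht : t < N) (hs : A.c s = ka) (hc : A.c t = kb)
    (hb : A.Bit s t) {i j : Fin n} (hi : A.tok ka s i = A.u s) (hj : A.tok kb t j = A.u t) :
    ∃ z, s < z ∧ z ≤ t ∧ A.tok ka z i = A.w z ∧ A.tok kb z j = A.u z := by
  obtain ⟨b1, b2, b3, b4⟩ := hb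
  have hs' : s < N := by omega
  have hxx := A.hx s t hst ht
  have hline : A.val kb t j = A.val ka s i + A.sl s t * (A.x t - A.x s) := by
    unfold val sl
    rw [hi, hj, div_mul_cancel₀ _ (by linarith)]
    ring
  have p1 : A.val kb s j < A.val ka s i := by
    have := A.support ht hj hc b3 b4 s hs' (by omega)
    rw [hline] at this
    linarith
  have p2 : A.val ka t i < A.val kb t j := by
    have := A.support hs' hi hs b1 b2 t ht (by omega)
    rw [hline]
    exact this
  -- first sign change
  classical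
  have hex : ∃ d, s + d + 1 ≤ t ∧ A.val ka (s + d + 1) i ≤ A.val kb (s + d + 1) j :=
    ⟨t - s - 1, by omega, by
      have : s + (t - s - 1) + 1 = t := by omega
      rw [this]; exact p2.le⟩
  obtain ⟨g1, g2⟩ := Nat.find_spec hex
  set d := Nat.find hex with hd
  have g3 : A.val kb (s + d) j < A.val ka (s + d) i := by
    rcases Nat.eq_zero_or_pos d with h0 | h0
    · rw [h0]; exact p1
    · have := Nat.find_min hex (m := d - 1) (by omega)
      push Not at this
      have e : s + (d - 1) + 1 = s + d := by omega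
      rw [e] at this
      exact this (by omega)
  have c1 := (A.tok_cont (k := ka) (t := s + d) (by omega) i).1
  have c2 := (A.tok_cont (k := kb) (t := s + d) (by omega) j).1
  have hzN : s + d + 1 < N := by omega
  set l := A.tok ka (s + d + 1) i with hl
  set l' := A.tok kb (s + d + 1) j with hl'
  have q1 : A.h l' (A.x (s + d)) < A.h l (A.x (s + d)) := by
    unfold val at g3; rw [c1, c2]; exact g3
  have q2 : A.h l (A.x (s + d + 1)) ≤ A.h l' (A.x (s + d + 1)) := g2
  have hx1 := A.hx (s + d) (s + d + 1) (by omega) hzN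
  have hslope : A.a l < A.a l' := by
    rw [A.h_sub l (A.x (s + d + 1)) (A.x (s + d)), A.h_sub l' (A.x (s + d + 1)) (A.x (s + d))] at q2
    by_contra hcon
    push Not at hcon
    nlinarith
  obtain ⟨r, hr, e1, e2⟩ := A.hall l' l hslope
  have d1 := A.diff hr e1 e2 (A.x (s + d))
  have d2 := A.diff hr e1 e2 (A.x (s + d + 1))
  have r1 : A.x (s + d) < A.x r := by
    by_contra hcon
    push Not at hcon
    have := mul_nonpos_of_nonpos_of_nonneg (a := A.a l - A.a l') (by linarith)
      (sub_nonneg.mpr hcon)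
    linarith
  have r2 : A.x r ≤ A.x (s + d + 1) := by
    by_contra hcon
    push Not at hcon
    have := mul_pos_of_neg_of_neg (a := A.a l - A.a l') (by linarith) (sub_neg.mpr hcon)
    linarith
  have r3 := (A.x_lt (by omega) hr).mp r1
  have r4 := (A.x_le hr hzN).mp r2
  have r5 : r = s + d + 1 := by omega
  subst r5
  exact ⟨s + d + 1, by omega, g1, e2.symm, e1.symm⟩

/-- the charging is injective -/
theorem charge_inj {ka kb s t s' t' z : ℕ} (hsz : s < z) (hzt : z ≤ t) (ht : t < N)
    (hsz' : s' < z) (hzt' : z ≤ t') (ht' : t' < N) (hs : A.c s = ka) (hc : A.c t = kb)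
    (hs' : A.c s' = ka) (hc' : A.c t' = kb)
    (hb : A.Bit s t) (hb' : A.Bit s' t') {i j : Fin n} (hi : A.tok ka s i = A.u s)
    (hj : A.tok kb t j = A.u t) (hi' : A.tok ka s' i = A.u s') (hj' : A.tok kb t' j = A.u t') :
    s = s' ∧ t = t' := by
  have key : ∀ s t s' t' : ℕ, s < z → z ≤ t → t < N → s' < z → z ≤ t' → t' < N →
      A.c s = ka → A.c t = kb → A.c s' = ka → A.c t' = kb → A.Bit s t → A.Bit s' t' →
      A.tok ka s i = A.u s → A.tok kb t j = A.u t → A.tok ka s' i = A.u s' →
      A.tok kb t' j = A.u t' →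
      (∀ y, A.x s ≤ y → y ≤ A.x t → A.val ka s i + A.sl s t * (y - A.x s) ≤
        A.val ka s' i + A.sl s' t' * (y - A.x s')) := by
    intro s t s' t' hsz hzt ht hsz' hzt' ht' hs hc hs' hc' hb hb' hi hj hi' hj' y hy1 hy2
    have hxx := A.hx s t (by omega) ht
    have hxx' := A.hx s' t' (by omega) ht'
    have hline : A.val kb t j = A.val ka s i + A.sl s t * (A.x t - A.x s) := by
      unfold val sl
      rw [hi, hj, div_mul_cancel₀ _ (by linarith)]
      ring
    have hline' : A.val kb t' j = A.val ka s' i + A.sl s' t' * (A.x t' - A.x s') := by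
      unfold val sl
      rw [hi', hj', div_mul_cancel₀ _ (by linarith)]
      ring
    have q1 : A.val ka s i ≤ A.val ka s' i + A.sl s' t' * (A.x s - A.x s') := by
      by_cases h : s = s'
      · subst h; simp
      · exact (A.support (by omega) hi' hs' hb'.1 hb'.2.1 s (by omega) h).le
    have q2 : A.val kb t j ≤ A.val ka s' i + A.sl s' t' * (A.x t - A.x s') := by
      by_cases h : t = t'
      · subst h; rw [hline']
      · have := (A.support ht' hj' hc' hb'.2.2.1 hb'.2.2.2 t ht h).le
        rw [hline'] at this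
        linarith
    rw [hline] at q2
    -- convex combination
    have e1 : 0 ≤ (A.x t - y) := by linarith
    have e2 : 0 ≤ (y - A.x s) := by linarith
    have e3 : 0 < A.x t - A.x s := by linarith
    have f1 := mul_le_mul_of_nonneg_left q1 e1
    have f2 := mul_le_mul_of_nonneg_left q2 e2
    have f3 : (A.x t - A.x s) * (A.val ka s i + A.sl s t * (y - A.x s)) ≤
        (A.x t - A.x s) * (A.val ka s' i + A.sl s' t' * (y - A.x s')) := by
      linarith
    exact le_of_mul_le_mul_left f3 e3
  have k1 := key s t s' t' hsz hzt ht hsz' hzt' ht' hs hc hs' hc' hb hb' hi hj hi' hj'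
  have k2 := key s' t' s t hsz' hzt' ht' hsz hzt ht hs' hc' hs hc hb' hb hi' hj' hi hj
  obtain ⟨z', rfl⟩ : ∃ z', z = z' + 1 := ⟨z - 1, by omega⟩
  have hz1 := A.hx z' (z' + 1) (by omega) (by omega)
  have m1 : A.x s ≤ A.x z' := (A.x_le (by omega) (by omega)).mpr (by omega)
  have m2 : A.x (z' + 1) ≤ A.x t := (A.x_le (by omega) (by omega)).mpr (by omega)
  have m3 : A.x s' ≤ A.x z' := (A.x_le (by omega) (by omega)).mpr (by omega)
  have m4 : A.x (z' + 1) ≤ A.x t' := (A.x_le (by omega) (by omega)).mpr (by omega)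
  have a1 := k1 (A.x z') m1 (by linarith)
  have a2 := k2 (A.x z') m3 (by linarith)
  have a3 := k1 (A.x (z' + 1)) (by linarith) m2
  have a4 := k2 (A.x (z' + 1)) (by linarith) m4
  have hsl : A.sl s t = A.sl s' t' := by
    have e : (A.sl s t - A.sl s' t') * (A.x (z' + 1) - A.x z') = 0 := by linarith
    rcases mul_eq_zero.mp e with h | h
    · linarith
    · linarith
  have hv : A.val ka s i - A.sl s t * A.x s = A.val ka s' i - A.sl s t * A.x s' := by
    rw [← hsl] at a1 a2
    linarith
  constructor
  · by_contra hne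
    have := A.support (by omega) hi' hs' hb'.1 hb'.2.1 s (by omega) hne
    rw [← hsl] at this
    linarith
  · by_contra hne
    have h1 := A.support ht' hj' hc' hb'.2.2.1 hb'.2.2.2 t ht hne
    have hxx := A.hx s t (by omega) ht
    have hxx' := A.hx s' t' (by omega) ht'
    have hline : A.val kb t j = A.val ka s i + A.sl s t * (A.x t - A.x s) := by
      unfold val sl
      rw [hi, hj, div_mul_cancel₀ _ (by linarith)]
      ring
    have hline' : A.val kb t' j = A.val ka s' i + A.sl s' t' * (A.x t' - A.x s') := by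
      unfold val sl
      rw [hi', hj', div_mul_cancel₀ _ (by linarith)]
      ring
    rw [hline, hline', ← hsl] at h1
    linarith

open Classical in
/-- the bitangent pairs for two given levels are at most the vertices of level `≤ kb` -/
theorem card_bit (ka kb : ℕ) :
    ((range N ×ˢ range N).filter (fun q : ℕ × ℕ => q.1 < q.2 ∧ A.c q.1 = ka ∧ A.c q.2 = kb ∧
      A.Bit q.1 q.2)).card ≤ ((range N).filter (fun z => A.c z ≤ kb)).card := by
  have hex : ∀ q ∈ (range N ×ˢ range N).filter (fun q : ℕ × ℕ => q.1 < q.2 ∧ A.c q.1 = ka ∧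
      A.c q.2 = kb ∧ A.Bit q.1 q.2), ∃ z, q.1 < z ∧ z ≤ q.2 ∧ ∃ i j, A.rankL 0 i ≤ ka ∧
        A.rankL 0 j ≤ kb ∧ A.tok ka q.1 i = A.u q.1 ∧ A.tok kb q.2 j = A.u q.2 ∧
        A.tok ka z i = A.w z ∧ A.tok kb z j = A.u z := by
    rintro ⟨s, t⟩ hq
    simp only [mem_filter, mem_product, mem_range] at hq
    obtain ⟨⟨hs, ht⟩, hst, h1, h2, h3⟩ := hq
    obtain ⟨i, hi, hi'⟩ := A.tok_surj s hs (A.u s) (k := ka) (by rw [A.rankL_u hs]; omega)
    obtain ⟨j, hj, hj'⟩ := A.tok_surj t ht (A.u t) (k := kb) (by rw [A.rankL_u ht]; omega)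
    obtain ⟨z, z1, z2, z3, z4⟩ := A.charge hst ht h1 h2 h3 hi' hj'
    exact ⟨z, z1, z2, i, j, hi, hj, hi', hj', z3, z4⟩
  choose! f hf using hex
  apply card_le_card_of_injOn f
  · intro q hq
    obtain ⟨_, h2, _, j, _, hj, _, _, _, hj'⟩ := hf q hq
    rw [mem_coe, mem_filter, mem_product, mem_range, mem_range] at hq
    rw [mem_coe, mem_filter, mem_range]
    have hlt : f q < N := lt_of_le_of_lt h2 hq.1.2
    refine ⟨hlt, ?_⟩
    have := A.tok_mem hj _ hlt
    rwa [hj', A.rankL_u hlt] at this
  · rintro ⟨s, t⟩ hq ⟨s', t'⟩ hq' heq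
    obtain ⟨z1, z2, i, j, hi, hj, hi1, hj1, hi2, hj2⟩ := hf _ hq
    obtain ⟨z1', z2', i', j', hi', hj', hi1', hj1', hi2', hj2'⟩ := hf _ hq'
    rw [mem_coe, mem_filter, mem_product, mem_range, mem_range] at hq hq'
    obtain ⟨⟨hs, ht⟩, hst, h1, h2, h3⟩ := hq
    obtain ⟨⟨hs', ht'⟩, hst', h1', h2', h3'⟩ := hq'
    simp only at *
    rw [← heq] at z1' z2' hi2' hj2'
    have hzN : f (s, t) < N := by omega
    have ei : i = i' := A.tok_inj hi hi' _ hzN (hi2.trans hi2'.symm)
    have ej : j = j' := A.tok_inj hj hj' _ hzN (hj2.trans hj2'.symm)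
    subst ei ej
    obtain ⟨r1, r2⟩ := A.charge_inj z1 z2 ht z1' z2' ht' h1 h2 h1' h2' h3 h3' hi1 hj1 hi1' hj1'
    rw [r1, r2]

end Arr

end Pool.Agent.H189R2.Iid
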