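import Pool.Agent.H189R2.Iid.Plane

/-! Crossings between the edges of two levels of a planar point set. -/

set_option autoImplicit false

namespace Pool.Agent.H189R2.Iid

open Finset Pool.Agent.H189R2.Lev

open Classical in
/-- oriented pairs -/
noncomputable def T {n : ℕ} (P : Fin n → ℝ × ℝ) : Finset (Fin n × Fin n) :=
  univ.filter (fun q => (P q.2).1 < (P q.1).1)

open Classical in
/-- level of a pair: the number of points below its line -/
noncomputable def lev {n : ℕ} (P : Fin n → ℝ × ℝ) (q : Fin n × Fin n) : ℕ :=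
  (univ.filter (fun l => P l ∈ low (P q.1) (P q.2))).card

theorem mem_T {n : ℕ} {P : Fin n → ℝ × ℝ} {q : Fin n × Fin n} :
    q ∈ T P ↔ (P q.2).1 < (P q.1).1 := by
  classical
  unfold T; simp

theorem T_card {n : ℕ} (P : Fin n → ℝ × ℝ) : 2 * (T P).card ≤ n ^ 2 := by
  classical
  have h1 : (T P).card + ((T P).map (Equiv.prodComm _ _).toEmbedding).card ≤
      (univ : Finset (Fin n × Fin n)).card := by
    rw [← card_union_of_disjoint]
    · exact card_le_card (subset_univ _)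
    · rw [disjoint_left]
      rintro ⟨i, j⟩ h h'
      rw [mem_T] at h
      rw [mem_map_equiv, mem_T] at h'
      simp at h h'
      exact lt_asymm h h'
  rw [card_map] at h1
  simp only [card_univ, Fintype.card_prod, Fintype.card_fin] at h1
  nlinarith

/-- the arrangement dual to the points -/
theorem exists_arr {n : ℕ} {P : Fin n → ℝ × ℝ} (hP : GP P) (hT : (T P).Nonempty) :
    ∃ A : Arr n (T P).card, A.a = (fun l => (P l).1) ∧ A.B = (fun l => (P l).2) ∧
      ∀ t < (T P).card, A.x t = X2 (P (A.u t)) (P (A.w t)) := by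
  classical
  set f : Fin n × Fin n → ℝ := fun q => X2 (P q.1) (P q.2) with hf
  have hinj : Set.InjOn f (T P) := by
    intro q hq q' hq' h
    have := hP.2 _ _ _ _ (mem_T.mp hq) (mem_T.mp hq') h
    exact Prod.ext this.1 this.2
  have hcard : ((T P).image f).card = (T P).card := card_image_of_injOn hinj
  set o := ((T P).image f).orderEmbOfFin hcard with ho
  have hmem : ∀ t : Fin (T P).card, ∃ q ∈ T P, f q = o t := by
    intro t
    have := ((T P).image f).orderEmbOfFin_mem hcard t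
    rw [mem_image] at this
    exact this
  choose g hg1 hg2 using hmem
  obtain ⟨q₀, hq₀⟩ := hT
  set idx : ℕ → Fin n × Fin n := fun t => if h : t < (T P).card then g ⟨t, h⟩ else q₀ with hidx
  have hidx1 : ∀ t, idx t ∈ T P := by
    intro t
    simp only [hidx]
    split_ifs with h
    · exact hg1 _
    · exact hq₀
  have hidx2 : ∀ t (h : t < (T P).card), f (idx t) = o ⟨t, h⟩ := by
    intro t h
    simp only [hidx, h, dif_pos]
    exact hg2 _
  refine ⟨⟨fun l => (P l).1, fun l => (P l).2, fun t => f (idx t), fun t => (idx t).1,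
    fun t => (idx t).2, ?_, ?_, ?_, ?_, ?_⟩, rfl, rfl, fun t _ => rfl⟩
  · intro i j h; exact hP.1 i j h
  · intro s t hst ht
    rw [hidx2 s (hst.trans ht), hidx2 t ht]
    exact o.strictMono hst
  · intro t _
    exact mem_T.mp (hidx1 t)
  · intro t _
    have h := mem_T.mp (hidx1 t)
    have h' : (P (idx t).1).1 - (P (idx t).2).1 ≠ 0 := by linarith
    simp only [ht, hf, X2]
    field_simp
    ring
  · intro l l' h
    have hq : (l, l') ∈ T P := mem_T.mpr h
    have : f (l, l') ∈ Set.range o := by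
      rw [ho, range_orderEmbOfFin, mem_coe]
      exact mem_image_of_mem _ hq
    obtain ⟨t, ht⟩ := this
    refine ⟨t, t.2, ?_⟩
    have h1 : idx t = (l, l') := by
      apply hinj (hidx1 t) hq
      rw [hidx2 t t.2, ← ht]
    rw [h1]
    exact ⟨rfl, rfl⟩

theorem CrossP.symm {p q r s : ℝ × ℝ} (h : CrossP p q r s) : CrossP r s p q := by
  have hM : M4 r s p q = M4 p q r s := by
    unfold M4
    rw [← neg_sub (Y2 r s) (Y2 p q), ← neg_sub (X2 r s) (X2 p q), neg_div_neg_eq]
  unfold CrossP at h ⊢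
  rw [hM]
  exact ⟨h.2.2.1, h.2.2.2, h.1, h.2.1⟩

open Classical in
/-- crossings between the edges of two levels -/
theorem cross_lt {n : ℕ} {P : Fin n → ℝ × ℝ} (hP : GP P) (ka kb : ℕ) :
    ((T P ×ˢ T P).filter (fun q => X2 (P q.1.1) (P q.1.2) < X2 (P q.2.1) (P q.2.2) ∧
      lev P q.1 = ka ∧ lev P q.2 = kb ∧
      CrossP (P q.1.1) (P q.1.2) (P q.2.1) (P q.2.2))).card ≤
      ((T P).filter (fun q => lev P q ≤ kb)).card := by
  rcases (T P).eq_empty_or_nonempty with hT | hT
  · rw [hT]; simp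
  obtain ⟨A, hAa, hAB, hAx⟩ := exists_arr hP hT
  have hc : ∀ t < (T P).card, A.c t = lev P (A.u t, A.w t) := by
    intro t htT
    unfold Arr.c lev
    congr 1
    ext l
    simp only [mem_filter, mem_univ, true_and, Arr.h, ht, hAa, hAB, hAx t htT]
    exact Iff.rfl
  have hsl : ∀ s < (T P).card, ∀ t < (T P).card,
      A.sl s t = M4 (P (A.u s)) (P (A.w s)) (P (A.u t)) (P (A.w t)) := by
    intro s hs t htT
    simp only [Arr.sl, M4, Arr.h, ht, hAa, hAB, hAx t htT, hAx s hs, Y2]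
  refine le_trans ?_ ((A.card_bit ka kb).trans ?_)
  · apply card_le_card_of_surjOn (fun q : ℕ × ℕ => ((A.u q.1, A.w q.1), (A.u q.2, A.w q.2)))
    rintro ⟨⟨i, j⟩, ⟨r, s⟩⟩ hq
    simp only [mem_coe, mem_filter, mem_product, mem_T] at hq
    obtain ⟨⟨h1, h2⟩, h3, h4, h5, h6⟩ := hq
    obtain ⟨t, htN, t1, t2⟩ := A.hall i j (by rw [hAa]; exact h1)
    obtain ⟨t', htN', t1', t2'⟩ := A.hall r s (by rw [hAa]; exact h2)
    refine ⟨(t, t'), ?_, by simp [t1, t2, t1', t2']⟩
    simp only [mem_coe, mem_filter, mem_product, mem_range]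
    refine ⟨⟨htN, htN'⟩, ?_, ?_, ?_, ?_⟩
    · rw [← A.x_lt htN htN', hAx t htN, hAx t' htN', t1, t2, t1', t2']
      exact h3
    · rw [hc t htN, t1, t2]; exact h4
    · rw [hc t' htN', t1', t2']; exact h5
    · unfold Arr.Bit
      rw [hsl t htN t' htN', hAa, t1, t2, t1', t2']
      exact ⟨h6.1, h6.2.1, h6.2.2.1, h6.2.2.2⟩
  · apply card_le_card_of_injOn (fun t => (A.u t, A.w t))
    · intro t ht
      rw [mem_coe, mem_filter, mem_range] at ht
      rw [mem_coe, mem_filter, mem_T]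
      have h1 := A.huw t ht.1
      rw [hAa] at h1
      refine ⟨h1, ?_⟩
      rw [← hc t ht.1]
      exact ht.2
    · intro t ht t' ht' h
      rw [mem_coe, mem_filter, mem_range] at ht ht'
      simp only [Prod.mk.injEq] at h
      apply A.x_inj ht.1 ht'.1
      rw [hAx t ht.1, hAx t' ht'.1, h.1, h.2]

open Classical in
/-- crossings between the edges of two levels: at most twice the number of vertices below -/
theorem cross_le {n : ℕ} {P : Fin n → ℝ × ℝ} (hP : GP P) {ka kb K : ℕ} (ha : ka ≤ K)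
    (hb : kb ≤ K) :
    ((T P ×ˢ T P).filter (fun q => q.1 ≠ q.2 ∧ lev P q.1 = ka ∧ lev P q.2 = kb ∧
      CrossP (P q.1.1) (P q.1.2) (P q.2.1) (P q.2.2))).card ≤
      2 * ((T P).filter (fun q => lev P q ≤ K)).card := by
  have hmono : ∀ k ≤ K, ((T P).filter (fun q => lev P q ≤ k)).card ≤
      ((T P).filter (fun q => lev P q ≤ K)).card := by
    intro k hk
    apply card_le_card
    intro q hq
    rw [mem_filter] at hq ⊢
    exact ⟨hq.1, hq.2.trans hk⟩
  have h1 := (cross_lt hP ka kb).trans (hmono kb hb)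
  have h2 := (cross_lt hP kb ka).trans (hmono ka ha)
  have h4 : ((T P ×ˢ T P).filter (fun q => q.1 ≠ q.2 ∧ lev P q.1 = ka ∧ lev P q.2 = kb ∧
      CrossP (P q.1.1) (P q.1.2) (P q.2.1) (P q.2.2))) ⊆
      ((T P ×ˢ T P).filter (fun q => X2 (P q.1.1) (P q.1.2) < X2 (P q.2.1) (P q.2.2) ∧
      lev P q.1 = ka ∧ lev P q.2 = kb ∧
      CrossP (P q.1.1) (P q.1.2) (P q.2.1) (P q.2.2))) ∪
      (((T P ×ˢ T P).filter (fun q => X2 (P q.1.1) (P q.1.2) < X2 (P q.2.1) (P q.2.2) ∧
      lev P q.1 = kb ∧ lev P q.2 = ka ∧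
      CrossP (P q.1.1) (P q.1.2) (P q.2.1) (P q.2.2))).map (Equiv.prodComm _ _).toEmbedding) := by
    rintro ⟨q, q'⟩ hq
    simp only [mem_filter, mem_product] at hq
    obtain ⟨⟨a1, a2⟩, a3, a4, a5, a6⟩ := hq
    rw [mem_union]
    rcases lt_trichotomy (X2 (P q.1) (P q.2)) (X2 (P q'.1) (P q'.2)) with h | h | h
    · left
      simp only [mem_filter, mem_product]
      exact ⟨⟨a1, a2⟩, h, a4, a5, a6⟩
    · exfalso
      have := hP.2 _ _ _ _ (mem_T.mp a1) (mem_T.mp a2) h
      exact a3 (Prod.ext this.1 this.2)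
    · right
      rw [mem_map_equiv]
      simp only [mem_filter, mem_product, Equiv.prodComm_symm, Equiv.prodComm_apply, Prod.swap]
      exact ⟨⟨a2, a1⟩, h, a5, a4, a6.symm⟩
  have h5 := (card_le_card h4).trans (card_union_le _ _)
  rw [card_map] at h5
  omega

open Classical in
/-- crossings between the edges of a window of levels -/
theorem cross_window {n : ℕ} {P : Fin n → ℝ × ℝ} (hP : GP P) (W : Finset ℕ) {K : ℕ}
    (hW : ∀ k ∈ W, k ≤ K) :
    ((T P ×ˢ T P).filter (fun q => q.1 ≠ q.2 ∧ lev P q.1 ∈ W ∧ lev P q.2 ∈ W ∧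
      CrossP (P q.1.1) (P q.1.2) (P q.2.1) (P q.2.2))).card ≤
      W.card ^ 2 * (2 * ((T P).filter (fun q => lev P q ≤ K)).card) := by
  have h : ((T P ×ˢ T P).filter (fun q => q.1 ≠ q.2 ∧ lev P q.1 ∈ W ∧ lev P q.2 ∈ W ∧
      CrossP (P q.1.1) (P q.1.2) (P q.2.1) (P q.2.2))) ⊆ (W ×ˢ W).biUnion (fun k =>
      (T P ×ˢ T P).filter (fun q => q.1 ≠ q.2 ∧ lev P q.1 = k.1 ∧ lev P q.2 = k.2 ∧
      CrossP (P q.1.1) (P q.1.2) (P q.2.1) (P q.2.2))) := by
    rintro ⟨q, q'⟩ hq
    simp only [mem_filter, mem_product] at hq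
    obtain ⟨⟨a1, a2⟩, a3, a4, a5, a6⟩ := hq
    rw [mem_biUnion]
    exact ⟨(lev P q, lev P q'), mem_product.mpr ⟨a4, a5⟩,
      mem_filter.mpr ⟨mem_product.mpr ⟨a1, a2⟩, a3, rfl, rfl, a6⟩⟩
  refine (card_le_card h).trans (card_biUnion_le.trans ?_)
  refine (sum_le_card_nsmul _ _ (2 * ((T P).filter (fun q => lev P q ≤ K)).card)
    (fun k hk => cross_le hP (hW _ (mem_product.mp hk).1) (hW _ (mem_product.mp hk).2))).trans ?_
  rw [card_product, smul_eq_mul, ← sq]

/-- crossing segments have distinct endpoints -/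
theorem cross_distinct {n : ℕ} {P : Fin n → ℝ × ℝ} (hP : GP P) {e f : Fin n × Fin n}
    (he : e ∈ T P) (hf : f ∈ T P) (hne : e ≠ f)
    (hc : CrossP (P e.1) (P e.2) (P f.1) (P f.2)) :
    e.1 ≠ e.2 ∧ f.1 ≠ f.2 ∧ e.1 ≠ f.1 ∧ e.1 ≠ f.2 ∧ e.2 ≠ f.1 ∧ e.2 ≠ f.2 := by
  rw [mem_T] at he hf
  obtain ⟨h1, h2, h3, h4⟩ := hc
  have hX : X2 (P f.1) (P f.2) - X2 (P e.1) (P e.2) ≠ 0 := by
    intro h
    have := hP.2 _ _ _ _ hf he (sub_eq_zero.mp h)
    exact hne (Prod.ext this.1.symm this.2.symm)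
  set z := M4 (P e.1) (P e.2) (P f.1) (P f.2) with hz
  have hEz : E P e z - E P f z = 0 := by
    have : z * (X2 (P f.1) (P f.2) - X2 (P e.1) (P e.2)) =
        Y2 (P f.1) (P f.2) - Y2 (P e.1) (P e.2) := by
      rw [hz]; unfold M4; rw [div_mul_cancel₀ _ hX]
    unfold E
    linarith
  have key : ∀ y, E P e y = E P f y → y = z := by
    intro y hy
    have h := E_diff P e f y z
    rw [hEz, hy, sub_self, zero_add] at h
    rcases mul_eq_zero.mp h.symm with h' | h'
    · exact absurd h' hX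
    · linarith
  have a1 := E_fst P e
  have a2 := E_snd he
  have b1 := E_fst P f
  have b2 := E_snd hf
  refine ⟨?_, ?_, ?_, ?_, ?_, ?_⟩
  · intro h; rw [h] at he; exact lt_irrefl _ he
  · intro h; rw [h] at hf; exact lt_irrefl _ hf
  · intro h; rw [← h] at b1; have := key _ (a1.trans b1.symm); linarith
  · intro h; rw [← h] at b2; have := key _ (a1.trans b2.symm); linarith
  · intro h; rw [← h] at b1; have := key _ (a2.trans b1.symm); linarith
  · intro h; rw [← h] at b2; have := key _ (a2.trans b2.symm); linarith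

end Pool.Agent.H189R2.Iid
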