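import Pool.Agent.H189R2.Iid.Main

/-! The expected number of pairs of a given level: final bound. -/

set_option autoImplicit false

namespace Pool.Agent.H189R2.Iid

open Finset MeasureTheory Filter Pool.Agent.H189R2.Lev
open scoped ENNReal

variable {μ : Measure (ℝ × ℝ)}

theorem shell_int [IsProbabilityMeasure μ] {n : ℕ} {i j : Fin n} (hij : i ≠ j)
    {A : Set ((ℝ × ℝ) × (ℝ × ℝ))} (hA : MeasurableSet A) {w : ℝ}
    [∀ P : Fin n → ℝ × ℝ, Decidable ((P i, P j) ∈ A)] :
    ∫⁻ P in Ev2 Set.univ i j, ENNReal.ofReal (w * (if (P i, P j) ∈ A then 1 else 0))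
      ∂Measure.pi (fun _ : Fin n => μ) = ENNReal.ofReal w * ee μ A := by
  have m1 : ∀ i : Fin n, Measurable (fun P : Fin n → ℝ × ℝ => P i) := fun i => measurable_pi_apply i
  have m2 : Measurable (fun P : Fin n → ℝ × ℝ => (P i, P j)) := (m1 i).prodMk (m1 j)
  have hS : MeasurableSet {P : Fin n → ℝ × ℝ | (P i, P j) ∈ A} := m2 hA
  have e : ∀ P : Fin n → ℝ × ℝ, ENNReal.ofReal (w * (if (P i, P j) ∈ A then 1 else 0)) =
      {P : Fin n → ℝ × ℝ | (P i, P j) ∈ A}.indicator (fun _ => ENNReal.ofReal w) P := by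
    intro P
    by_cases h : (P i, P j) ∈ A
    · rw [if_pos h, mul_one, Set.indicator_of_mem (show P ∈ {P | (P i, P j) ∈ A} from h)]
    · rw [if_neg h, mul_zero, ENNReal.ofReal_zero,
        Set.indicator_of_notMem (show P ∉ {P : Fin n → ℝ × ℝ | (P i, P j) ∈ A} from h)]
  simp_rw [e]
  rw [lintegral_indicator_const hS, Measure.restrict_apply hS, ← pi_Ev2 hA hij]
  congr 2
  ext P
  constructor
  · rintro ⟨h1, h2⟩; exact ⟨h2.1, h1⟩
  · rintro ⟨h1, h2⟩; exact ⟨h2, h1, trivial⟩

/-- the constant -/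
noncomputable def SS : ℝ := 1 / (1 - Real.exp (-(1 / 16))) ^ 2

theorem SS_ge : 1 ≤ SS := by
  unfold SS
  have h1 : Real.exp (-(1 / 16)) < 1 := by
    rw [← Real.exp_zero]; exact Real.exp_lt_exp.mpr (by norm_num)
  have h0 := Real.exp_pos (-(1 / 16))
  rw [le_div_iff₀ (by nlinarith), one_mul]
  nlinarith

/-- probability that a pair has level `k` -/
theorem pair_prob [IsProbabilityMeasure μ] (hμ : LN μ) {n k : ℕ} (hk : 1 ≤ k)
    (hn : 2 * k + 2 ≤ n) {i j : Fin n} (hij : i ≠ j) {c : ℝ} (hc : 0 ≤ c) (hck : c ^ 6 = k) :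
    Measure.pi (fun _ : Fin n => μ) {P | P ∈ Ev2 Set.univ i j ∧ lev P (i, j) = k} ≤
      ENNReal.ofReal (654 * SS * c / (n - 2)) := by
  classical
  set N := n - 2 with hN
  have hNk : 2 * k ≤ N := by omega
  have hNr : (N : ℝ) = n - 2 := by rw [hN, Nat.cast_sub (by omega)]; norm_num
  have hN0 : (0 : ℝ) < N := by exact_mod_cast (by omega : 0 < N)
  have hk0 : (0 : ℝ) < k := by exact_mod_cast hk
  have hk1 : (1 : ℝ) ≤ k := by exact_mod_cast hk
  have hsk : 0 < Real.sqrt k := Real.sqrt_pos.mpr hk0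
  have hsk2 : Real.sqrt k ^ 2 = k := Real.sq_sqrt hk0.le
  have hsc : Real.sqrt k = c ^ 3 := by
    rw [← hck, show c ^ 6 = (c ^ 3) ^ 2 by ring, Real.sqrt_sq (by positivity)]
  have hc1 : 1 ≤ c := by
    by_contra hcon
    push Not at hcon
    have : c ^ 6 < 1 := pow_lt_one₀ hc hcon (by norm_num)
    linarith
  have hkN : (2 * k : ℝ) ≤ N := by exact_mod_cast hNk
  rw [← hNr]
  set r := Real.exp (-(1 / 16)) with hr
  have hr0 : 0 < r := Real.exp_pos _
  have hr1 : r < 1 := by
    rw [hr, ← Real.exp_zero]; exact Real.exp_lt_exp.mpr (by norm_num)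
  set α : ℝ := (k : ℝ) / N with hα
  have hα0 : 0 < α := by positivity
  have hα1 : α ≤ 1 := by rw [hα, div_le_one hN0]; linarith
  set A1 : ℕ → Set ((ℝ × ℝ) × (ℝ × ℝ)) := fun l =>
    WA μ α (min ((l + 1) * (Real.sqrt k / N)) α) with hA1
  set A2 : ℕ → Set ((ℝ × ℝ) × (ℝ × ℝ)) := fun l => WA μ 0 (((l : ℝ) + 1) / N) with hA2
  have hA1m : ∀ l, MeasurableSet (A1 l) := fun l => meas_WA _ _
  have hA2m : ∀ l, MeasurableSet (A2 l) := fun l => meas_WA _ _
  have m1 : ∀ i : Fin n, Measurable (fun P : Fin n → ℝ × ℝ => P i) := fun i => measurable_pi_apply i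
  have m2 : Measurable (fun P : Fin n → ℝ × ℝ => (P i, P j)) := (m1 i).prodMk (m1 j)
  have mterm : ∀ (A : Set ((ℝ × ℝ) × (ℝ × ℝ))), MeasurableSet A → ∀ w : ℝ,
      Measurable (fun P : Fin n → ℝ × ℝ =>
        ENNReal.ofReal (w * (if (P i, P j) ∈ A then 1 else 0))) := by
    intro A hA w
    exact ((Measurable.ite (m2 hA) measurable_const measurable_const).const_mul w).ennreal_ofReal
  -- integral bound
  have hint : Measure.pi (fun _ : Fin n => μ) {P | P ∈ Ev2 Set.univ i j ∧ lev P (i, j) = k} ≤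
      ENNReal.ofReal (1 / Real.sqrt k) * (∑ l ∈ range (k + 1), ENNReal.ofReal (r ^ l) *
        ee μ (A1 l) + ∑ l ∈ range N, ENNReal.ofReal (r ^ l) * ee μ (A2 l)) := by
    rw [lev_prob hij k, ← lintegral_const_mul' _ _ (ENNReal.natCast_ne_top _)]
    calc ∫⁻ P in Ev2 Set.univ i j, ((n - 2).choose k : ℝ≥0∞) * ENNReal.ofReal
          (FF μ (P i) (P j) ^ k * (1 - FF μ (P i) (P j)) ^ (n - 2 - k))
            ∂Measure.pi (fun _ : Fin n => μ)
        ≤ ∫⁻ P in Ev2 Set.univ i j, ENNReal.ofReal (1 / Real.sqrt k) *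
          (∑ l ∈ range (k + 1), ENNReal.ofReal (r ^ l * (if (P i, P j) ∈ A1 l then 1 else 0)) +
           ∑ l ∈ range N, ENNReal.ofReal (r ^ l * (if (P i, P j) ∈ A2 l then 1 else 0)))
            ∂Measure.pi (fun _ : Fin n => μ) := by
          apply lintegral_mono
          intro P
          beta_reduce
          have h := dominate hk hNk (FF_nonneg (μ := μ) (P i) (P j)) (FF_le_one (P i) (P j))
          have h' := ENNReal.ofReal_le_ofReal h
          have nn1 : ∀ l ∈ range (k + 1), 0 ≤ r ^ l * (if (P i, P j) ∈ A1 l then (1 : ℝ) else 0) := by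
            intro l _; split_ifs <;> positivity
          have nn2 : ∀ l ∈ range N, 0 ≤ r ^ l * (if (P i, P j) ∈ A2 l then (1 : ℝ) else 0) := by
            intro l _; split_ifs <;> positivity
          rw [← ENNReal.ofReal_sum_of_nonneg nn1, ← ENNReal.ofReal_sum_of_nonneg nn2,
            ← ENNReal.ofReal_add (sum_nonneg nn1) (sum_nonneg nn2),
            ← ENNReal.ofReal_mul (by positivity), ← ENNReal.ofReal_natCast,
            ← ENNReal.ofReal_mul (Nat.cast_nonneg _)]
          refine h'.trans (le_of_eq ?_)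
          congr 1
      _ = _ := by
          rw [lintegral_const_mul' _ _ ENNReal.ofReal_ne_top]
          congr 1
          rw [lintegral_add_left (Finset.measurable_sum _ (fun l _ => mterm _ (hA1m l) _)),
            lintegral_finsetSum _ (fun l _ => mterm _ (hA1m l) _),
            lintegral_finsetSum _ (fun l _ => mterm _ (hA2m l) _)]
          congr 1
          · exact sum_congr rfl (fun l _ => shell_int hij (hA1m l))
          · exact sum_congr rfl (fun l _ => shell_int hij (hA2m l))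
  -- bounds for the shells
  have hb1 : ∀ l : ℕ, (ee μ (A1 l)).toReal ≤ 650 * c ^ 4 / N * (l + 1) := by
    intro l
    set δ := min (((l : ℝ) + 1) * (Real.sqrt k / N)) α with hδ
    have hδ0 : 0 < δ := lt_min (by positivity) hα0
    have h := ee_le hμ hδ0 (min_le_right _ _) hα1
    have hδ1 : δ ≤ ((l : ℝ) + 1) * (Real.sqrt k / N) := min_le_left _ _
    have h2 : α * δ ^ 2 ≤ α * (((l : ℝ) + 1) * (Real.sqrt k / N)) ^ 2 := by gcongr
    have hl1 : (1 : ℝ) ≤ l + 1 := by
      have : (0 : ℝ) ≤ l := Nat.cast_nonneg l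
      linarith
    have h3 : (ee μ (A1 l)).toReal ^ 3 ≤ (650 * c ^ 4 / N * (l + 1)) ^ 3 := by
      calc (ee μ (A1 l)).toReal ^ 3 ≤ 650 ^ 3 * (α * δ ^ 2) := h
        _ ≤ 650 ^ 3 * (α * (((l : ℝ) + 1) * (Real.sqrt k / N)) ^ 2) := by gcongr
        _ = 650 ^ 3 * (c ^ 12 / N ^ 3) * ((l : ℝ) + 1) ^ 2 := by
            rw [hα, mul_pow, div_pow, hsk2, ← hck]
            field_simp
        _ ≤ 650 ^ 3 * (c ^ 12 / N ^ 3) * ((l : ℝ) + 1) ^ 3 := by
            apply mul_le_mul_of_nonneg_left _ (by positivity)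
            exact pow_le_pow_right₀ hl1 (by norm_num)
        _ = _ := by field_simp
    exact le_of_pow_le_pow_left₀ (by norm_num) (by positivity) h3
  have hb2 : ∀ l : ℕ, (ee μ (A2 l)).toReal ≤ 4 / N * (l + 1) := by
    intro l
    have := ee_zero hμ (t := ((l : ℝ) + 1) / N) (by positivity)
    refine this.trans (le_of_eq ?_)
    ring
  have hfin : ∀ A, ee μ A ≠ ⊤ := fun A => ne_top_of_le_ne_top ENNReal.one_ne_top (ee_le_one A)
  have hs1 : ∑ l ∈ range (k + 1), ENNReal.ofReal (r ^ l) * ee μ (A1 l) ≤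
      ENNReal.ofReal (650 * c ^ 4 / N * SS) := by
    calc ∑ l ∈ range (k + 1), ENNReal.ofReal (r ^ l) * ee μ (A1 l) ≤
          ∑ l ∈ range (k + 1), ENNReal.ofReal (650 * c ^ 4 / N * (((l : ℝ) + 1) * r ^ l)) := by
          apply sum_le_sum
          intro l _
          rw [← ENNReal.ofReal_toReal (hfin (A1 l)), ← ENNReal.ofReal_mul (by positivity)]
          apply ENNReal.ofReal_le_ofReal
          have := mul_le_mul_of_nonneg_left (hb1 l) (pow_nonneg hr0.le l)
          refine this.trans (le_of_eq ?_)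
          ring
      _ = ENNReal.ofReal (650 * c ^ 4 / N * ∑ l ∈ range (k + 1), (((l : ℝ) + 1) * r ^ l)) := by
          rw [← ENNReal.ofReal_sum_of_nonneg (fun l _ => by positivity), mul_sum]
      _ ≤ _ := by
          apply ENNReal.ofReal_le_ofReal
          apply mul_le_mul_of_nonneg_left _ (by positivity)
          exact sum_geom hr0.le hr1 (k + 1)
  have hs2 : ∑ l ∈ range N, ENNReal.ofReal (r ^ l) * ee μ (A2 l) ≤
      ENNReal.ofReal (4 / N * SS) := by
    calc ∑ l ∈ range N, ENNReal.ofReal (r ^ l) * ee μ (A2 l) ≤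
          ∑ l ∈ range N, ENNReal.ofReal (4 / N * (((l : ℝ) + 1) * r ^ l)) := by
          apply sum_le_sum
          intro l _
          rw [← ENNReal.ofReal_toReal (hfin (A2 l)), ← ENNReal.ofReal_mul (by positivity)]
          apply ENNReal.ofReal_le_ofReal
          have := mul_le_mul_of_nonneg_left (hb2 l) (pow_nonneg hr0.le l)
          refine this.trans (le_of_eq ?_)
          ring
      _ = ENNReal.ofReal (4 / N * ∑ l ∈ range N, (((l : ℝ) + 1) * r ^ l)) := by
          rw [← ENNReal.ofReal_sum_of_nonneg (fun l _ => by positivity), mul_sum]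
      _ ≤ _ := by
          apply ENNReal.ofReal_le_ofReal
          apply mul_le_mul_of_nonneg_left _ (by positivity)
          exact sum_geom hr0.le hr1 N
  have hSS := SS_ge
  refine hint.trans ((mul_le_mul_right (add_le_add hs1 hs2) _).trans ?_)
  rw [← ENNReal.ofReal_add (by positivity) (by positivity), ← ENNReal.ofReal_mul (by positivity)]
  apply ENNReal.ofReal_le_ofReal
  rw [hsc]
  have hc4 : 1 ≤ c ^ 4 := one_le_pow₀ hc1
  calc 1 / c ^ 3 * (650 * c ^ 4 / N * SS + 4 / N * SS) = (650 * c ^ 4 + 4) / c ^ 3 * SS / N := by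
        field_simp
    _ ≤ (654 * c ^ 4) / c ^ 3 * SS / N := by
        gcongr
        linarith
    _ = 654 * SS * c / N := by
        field_simp

open Classical in
/-- expected number of pairs of level `k`, for `k` in the lower half -/
theorem level_bound [IsProbabilityMeasure μ] (hμ : LN μ) {n k : ℕ} (hn : 2 * k + 2 ≤ n) :
    ∫⁻ P, (((T P).filter (fun q => lev P q = k)).card : ℝ≥0∞) ∂Measure.pi (fun _ : Fin n => μ) ≤
      ENNReal.ofReal (1308 * SS * n * ((k : ℝ) + 1) ^ (1 / 6 : ℝ)) := by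
  have hSS := SS_ge
  rcases Nat.eq_zero_or_pos k with h0 | h0
  · subst h0
    refine (zero_lev hμ n).trans ?_
    rw [← ENNReal.ofReal_natCast]
    apply ENNReal.ofReal_le_ofReal
    simp only [Nat.cast_zero, zero_add, Real.one_rpow, mul_one]
    have : (0 : ℝ) ≤ n := Nat.cast_nonneg n
    nlinarith
  · have hk0 : (0 : ℝ) < k := by exact_mod_cast h0
    set c : ℝ := (k : ℝ) ^ (1 / 6 : ℝ) with hc
    have hc0 : 0 ≤ c := by positivity
    have hck : c ^ 6 = k := by
      rw [hc, ← Real.rpow_natCast, ← Real.rpow_mul hk0.le]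
      norm_num
    have hcle : c ≤ ((k : ℝ) + 1) ^ (1 / 6 : ℝ) :=
      Real.rpow_le_rpow hk0.le (by linarith) (by norm_num)
    rw [E_lev k]
    have hn4 : (4 : ℝ) ≤ n := by
      have : 4 ≤ n := by omega
      exact_mod_cast this
    calc ∑ q ∈ (univ : Finset (Fin n)).offDiag, Measure.pi (fun _ : Fin n => μ)
          {P | P ∈ Ev2 Set.univ q.1 q.2 ∧ lev P (q.1, q.2) = k} ≤
          ∑ q ∈ (univ : Finset (Fin n)).offDiag, ENNReal.ofReal (654 * SS * c / (n - 2)) := by
          apply sum_le_sum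
          intro q hq
          rw [mem_offDiag] at hq
          exact pair_prob hμ h0 hn hq.2.2 hc0 hck
      _ = ENNReal.ofReal ((n * n - n) * (654 * SS * c / (n - 2))) := by
          rw [sum_const, offDiag_card, card_univ, Fintype.card_fin, nsmul_eq_mul,
            ← ENNReal.ofReal_natCast, ← ENNReal.ofReal_mul (Nat.cast_nonneg _),
            Nat.cast_sub (Nat.le_mul_self n)]
          push_cast
          rfl
      _ ≤ _ := by
          apply ENNReal.ofReal_le_ofReal
          have h1 : ((n : ℝ) * n - n) * (654 * SS * c / (n - 2)) =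
              (654 * SS * c * n) * ((n - 1) / (n - 2)) := by
            have : (n : ℝ) - 2 ≠ 0 := by linarith
            field_simp
          rw [h1]
          have h2 : ((n : ℝ) - 1) / (n - 2) ≤ 2 := by
            rw [div_le_iff₀ (by linarith)]
            linarith
          have h3 : (654 * SS * c * n) * (((n : ℝ) - 1) / (n - 2)) ≤ (654 * SS * c * n) * 2 :=
            mul_le_mul_of_nonneg_left h2 (by positivity)
          refine h3.trans ?_
          have h4 : 654 * SS * n * c ≤ 654 * SS * n * ((k : ℝ) + 1) ^ (1 / 6 : ℝ) := by gcongr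
          linarith

end Pool.Agent.H189R2.Iid
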