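import Pool.Agent.H189R2.Lev.Core

/-! Tools for products of one probability measure: composition with an injection, integrating out
coordinates, binomial probabilities, Chebyshev's inequality. -/

set_option autoImplicit false

namespace Pool.Agent.H189R2.Iid

open Finset MeasureTheory Filter Pool.Agent.H189R2.Lev
open scoped ENNReal

variable {X : Type*} [MeasurableSpace X] {n : ℕ}

/-- an event that is null in one coordinate is null -/
theorem null_coord {μ : Measure X} [IsProbabilityMeasure μ] (l : Fin n)
    {s : Set (Fin n → X)} (hs : MeasurableSet s)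
    (h : ∀ P, μ {y | Function.update P l y ∈ s} = 0) :
    Measure.pi (fun _ : Fin n => μ) s = 0 := by
  rw [← lintegral_indicator_one hs, pi_update _ l (measurable_one.indicator hs)]
  have : ∀ P, ∫⁻ y, s.indicator 1 (Function.update P l y) ∂μ =
      μ {y | Function.update P l y ∈ s} := by
    intro P
    have h1 : MeasurableSet {y | Function.update P l y ∈ s} := (measurable_update P) hs
    rw [← lintegral_indicator_one h1]
    rfl
  simp [this, h]

theorem law_comp {m : ℕ} (μ : Measure X) [IsProbabilityMeasure μ] {g : Fin m → Fin n}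
    (hg : Function.Injective g) :
    (Measure.pi (fun _ : Fin n => μ)).map (fun P => P ∘ g) = Measure.pi (fun _ : Fin m => μ) := by
  symm
  apply Measure.pi_eq
  intro s hs
  have hmeas : Measurable (fun P : Fin n → X => P ∘ g) :=
    measurable_pi_lambda _ (fun i => measurable_pi_apply (g i))
  rw [Measure.map_apply hmeas (MeasurableSet.univ_pi hs)]
  have : (fun P : Fin n → X => P ∘ g) ⁻¹' (Set.univ.pi s) =
      Set.univ.pi (Function.extend g s (fun _ => Set.univ)) := by
    ext P
    simp only [Set.mem_preimage, Set.mem_univ_pi, Function.comp]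
    constructor
    · intro h l
      by_cases hl : ∃ i, g i = l
      · obtain ⟨i, rfl⟩ := hl
        rw [hg.extend_apply]; exact h i
      · rw [Function.extend_apply' _ _ _ hl]; trivial
    · intro h i
      have := h (g i)
      rwa [hg.extend_apply] at this
  rw [this, Measure.pi_pi, ← Finset.prod_subset (Finset.subset_univ (univ.image g))]
  · rw [Finset.prod_image (fun i _ j _ h => hg h)]
    apply prod_congr rfl
    intro i _
    rw [hg.extend_apply]
  · intro l _ hl
    rw [Function.extend_apply', measure_univ]
    rintro ⟨i, hi⟩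
    exact hl (mem_image.mpr ⟨i, mem_univ i, hi⟩)

theorem measure_comp {m : ℕ} (μ : Measure X) [IsProbabilityMeasure μ] {g : Fin m → Fin n}
    (hg : Function.Injective g) {A : Set (Fin m → X)} (hA : MeasurableSet A) :
    Measure.pi (fun _ : Fin n => μ) {P | P ∘ g ∈ A} = Measure.pi (fun _ : Fin m => μ) A := by
  rw [← law_comp μ hg, Measure.map_apply _ hA]
  · rfl
  · exact measurable_pi_lambda _ (fun i => measurable_pi_apply (g i))

/-- integrating out coordinates one by one -/
theorem coord_prod (μ : Measure X) [IsProbabilityMeasure μ] (φ : Fin n → (Fin n → X) → X → ℝ≥0∞)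
    (hφ : ∀ l, Measurable (fun p : (Fin n → X) × X => φ l p.1 p.2)) (U : Finset (Fin n)) :
    ∀ H : (Fin n → X) → ℝ≥0∞, Measurable H → (∀ l ∈ U, ∀ P y, H (Function.update P l y) = H P) →
    (∀ l ∈ U, ∀ i ∈ U, ∀ P y z, φ i (Function.update P l y) z = φ i P z) →
    ∫⁻ P, H P * ∏ l ∈ U, φ l P (P l) ∂Measure.pi (fun _ : Fin n => μ) =
      ∫⁻ P, H P * ∏ l ∈ U, ∫⁻ y, φ l P y ∂μ ∂Measure.pi (fun _ : Fin n => μ) := by
  classical
  have hm1 : ∀ i, Measurable (fun P : Fin n → X => φ i P (P i)) := fun i =>
    (hφ i).comp (measurable_id.prodMk (measurable_pi_apply i))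
  have hm2 : ∀ i, Measurable (fun P : Fin n → X => ∫⁻ y, φ i P y ∂μ) := fun i =>
    (hφ i).lintegral_prod_right'
  induction U using Finset.induction_on with
  | empty => intro H _ _ _; simp
  | insert l U hl ih =>
    intro H hH hHU hφU
    have e1 : ∀ P : Fin n → X, H P * ∏ i ∈ insert l U, φ i P (P i) =
        (H P * ∏ i ∈ U, φ i P (P i)) * φ l P (P l) := by
      intro P; rw [prod_insert hl]; ring
    simp_rw [e1]
    have hm : Measurable (fun P : Fin n → X => (H P * ∏ i ∈ U, φ i P (P i)) * φ l P (P l)) :=
      (hH.mul (Finset.measurable_prod U (fun i _ => hm1 i))).mul (hm1 l)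
    rw [pi_update (fun _ : Fin n => μ) l hm]
    have e2 : ∀ P : Fin n → X, ∫⁻ y, (H (Function.update P l y) *
        ∏ i ∈ U, φ i (Function.update P l y) (Function.update P l y i)) *
        φ l (Function.update P l y) (Function.update P l y l) ∂μ =
        (H P * ∫⁻ y, φ l P y ∂μ) * ∏ i ∈ U, φ i P (P i) := by
      intro P
      have e3 : ∀ y, (H (Function.update P l y) *
        ∏ i ∈ U, φ i (Function.update P l y) (Function.update P l y i)) *
        φ l (Function.update P l y) (Function.update P l y l) =
        (H P * ∏ i ∈ U, φ i P (P i)) * φ l P y := by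
        intro y
        rw [hHU l (mem_insert_self l U), Function.update_self,
          hφU l (mem_insert_self l U) l (mem_insert_self l U)]
        congr 2
        apply prod_congr rfl
        intro i hi
        have hil : i ≠ l := fun h => hl (h ▸ hi)
        rw [Function.update_of_ne hil, hφU l (mem_insert_self l U) i (mem_insert_of_mem hi)]
      simp_rw [e3]
      have hm3 : Measurable (fun y : X => φ l P y) :=
        (hφ l).comp (measurable_const.prodMk measurable_id)
      rw [lintegral_const_mul _ hm3]
      ring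
    simp_rw [e2]
    rw [ih (fun P => H P * ∫⁻ y, φ l P y ∂μ) (hH.mul (hm2 l))]
    · apply lintegral_congr
      intro P
      rw [prod_insert hl]
      ring
    · intro i hi P y
      rw [hHU i (mem_insert_of_mem hi)]
      congr 1
      apply lintegral_congr
      intro z
      rw [hφU i (mem_insert_of_mem hi) l (mem_insert_self l U)]
    · intro i hi j hj P y z
      exact hφU i (mem_insert_of_mem hi) j (mem_insert_of_mem hj) P y z

/-- a random set whose law does not involve the coordinates in `U` -/
structure RandSet (n : ℕ) (U : Finset (Fin n)) (X : Type*) [MeasurableSpace X] where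
  Lo : (Fin n → X) → X → Prop
  meas : MeasurableSet {p : (Fin n → X) × X | Lo p.1 p.2}
  inv : ∀ l ∈ U, ∀ P y z, Lo (Function.update P l y) z ↔ Lo P z

namespace RandSet

variable {U : Finset (Fin n)} (R : RandSet n U X)

/-- its mass -/
noncomputable def F (μ : Measure X) (P : Fin n → X) : ℝ := (μ {y | R.Lo P y}).toReal

theorem meas_sec (P : Fin n → X) : MeasurableSet {y | R.Lo P y} :=
  (measurable_const.prodMk measurable_id : Measurable (fun y : X => (P, y))) R.meas

theorem meas_at (l : Fin n) : MeasurableSet {P | R.Lo P (P l)} :=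
  (measurable_id.prodMk (measurable_pi_apply l) :
    Measurable (fun P : Fin n → X => (P, P l))) R.meas

theorem F_nonneg (μ : Measure X) (P : Fin n → X) : 0 ≤ R.F μ P := ENNReal.toReal_nonneg

theorem F_le_one (μ : Measure X) [IsProbabilityMeasure μ] (P : Fin n → X) : R.F μ P ≤ 1 := by
  unfold F
  exact ENNReal.toReal_le_of_le_ofReal zero_le_one (by simpa using prob_le_one)

theorem ofReal_F (μ : Measure X) [IsProbabilityMeasure μ] (P : Fin n → X) :
    ENNReal.ofReal (R.F μ P) = μ {y | R.Lo P y} := ENNReal.ofReal_toReal (measure_ne_top _ _)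

theorem ofReal_one_sub_F (μ : Measure X) [IsProbabilityMeasure μ] (P : Fin n → X) :
    ENNReal.ofReal (1 - R.F μ P) = μ {y | ¬ R.Lo P y} := by
  rw [ENNReal.ofReal_sub _ (R.F_nonneg μ P), ofReal_F, ENNReal.ofReal_one]
  have : {y | ¬ R.Lo P y} = {y | R.Lo P y}ᶜ := rfl
  rw [this, prob_compl_eq_one_sub (R.meas_sec P)]

theorem measurable_F (μ : Measure X) [IsProbabilityMeasure μ] : Measurable (R.F μ) := by
  unfold F
  exact (measurable_measure_prodMk_left R.meas).ennreal_toReal

theorem F_update (μ : Measure X) {l : Fin n} (hl : l ∈ U) (P : Fin n → X) (y : X) :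
    R.F μ (Function.update P l y) = R.F μ P := by
  unfold F
  congr 2
  ext z
  exact R.inv l hl P y z

open Classical in
/-- the number of coordinates in `U` that are in the set -/
noncomputable def cnt (P : Fin n → X) : ℕ := (U.filter (fun l => R.Lo P (P l))).card

open Classical in
theorem meas_piece {B : Set (Fin n → X)} (hB : MeasurableSet B) {K : Finset (Fin n)}
    (hK : K ⊆ U) : MeasurableSet {P | P ∈ B ∧ U.filter (fun l => R.Lo P (P l)) = K} := by
  have : {P | P ∈ B ∧ U.filter (fun l => R.Lo P (P l)) = K} =
      B ∩ ⋂ l : Fin n, {P | l ∈ U → (R.Lo P (P l) ↔ l ∈ K)} := by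
    ext P
    simp only [Set.mem_inter_iff, Set.mem_iInter]
    refine and_congr_right (fun _ => ?_)
    constructor
    · intro h l hl
      have := Finset.ext_iff.mp h l
      simp only [mem_filter, hl, true_and] at this
      exact this
    · intro h
      ext l
      simp only [mem_filter]
      constructor
      · rintro ⟨h1, h2⟩; exact (h l h1).mp h2
      · intro h1; exact ⟨hK h1, (h l (hK h1)).mpr h1⟩
  rw [this]
  refine hB.inter (MeasurableSet.iInter (fun l => ?_))
  by_cases hl : l ∈ U
  · by_cases hl' : l ∈ K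
    · have : {P : Fin n → X | l ∈ U → (R.Lo P (P l) ↔ l ∈ K)} = {P | R.Lo P (P l)} := by
        ext P; exact iff_of_eq (by simp [hl, hl'])
      rw [this]; exact R.meas_at l
    · have : {P : Fin n → X | l ∈ U → (R.Lo P (P l) ↔ l ∈ K)} = {P | R.Lo P (P l)}ᶜ := by
        ext P; rw [Set.mem_compl_iff]; exact iff_of_eq (by simp [hl, hl'])
      rw [this]; exact (R.meas_at l).compl
  · simp [hl]

open Classical in
/-- binomial probabilities -/
theorem binomial (μ : Measure X) [IsProbabilityMeasure μ] {B : Set (Fin n → X)}
    (hB : MeasurableSet B) (hBU : ∀ l ∈ U, ∀ P y, Function.update P l y ∈ B ↔ P ∈ B) (k : ℕ) :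
    Measure.pi (fun _ : Fin n => μ) {P | P ∈ B ∧ R.cnt P = k} =
      U.card.choose k * ∫⁻ P in B, ENNReal.ofReal (R.F μ P ^ k * (1 - R.F μ P) ^ (U.card - k))
        ∂Measure.pi (fun _ : Fin n => μ) := by
  set φ : Finset (Fin n) → Fin n → (Fin n → X) → X → ℝ≥0∞ := fun K l P y =>
    if (R.Lo P y ↔ l ∈ K) then 1 else 0 with hφ
  have hφm : ∀ K l, Measurable (fun p : (Fin n → X) × X => φ K l p.1 p.2) := by
    intro K l
    refine Measurable.ite ?_ measurable_const measurable_const
    by_cases hl : l ∈ K
    · have : {p : (Fin n → X) × X | R.Lo p.1 p.2 ↔ l ∈ K} = {p | R.Lo p.1 p.2} := by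
        ext p; exact iff_of_eq (by simp [hl])
      rw [this]; exact R.meas
    · have : {p : (Fin n → X) × X | R.Lo p.1 p.2 ↔ l ∈ K} = {p | R.Lo p.1 p.2}ᶜ := by
        ext p; rw [Set.mem_compl_iff]; exact iff_of_eq (by simp [hl])
      rw [this]; exact R.meas.compl
  have h1 : ∀ K ⊆ U, Measure.pi (fun _ : Fin n => μ)
      {P | P ∈ B ∧ U.filter (fun l => R.Lo P (P l)) = K} =
      ∫⁻ P in B, ENNReal.ofReal (R.F μ P ^ K.card * (1 - R.F μ P) ^ (U.card - K.card))
        ∂Measure.pi (fun _ : Fin n => μ) := by
    intro K hK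
    have hms : MeasurableSet {P | P ∈ B ∧ U.filter (fun l => R.Lo P (P l)) = K} :=
      R.meas_piece hB hK
    rw [← lintegral_indicator_one hms]
    have e1 : ∀ P, ({P | P ∈ B ∧ U.filter (fun l => R.Lo P (P l)) = K}.indicator
        (1 : (Fin n → X) → ℝ≥0∞)) P = B.indicator 1 P * ∏ l ∈ U, φ K l P (P l) := by
      intro P
      by_cases hPB : P ∈ B
      · by_cases hPK : U.filter (fun l => R.Lo P (P l)) = K
        · rw [Set.indicator_of_mem (show P ∈ {P | P ∈ B ∧
            U.filter (fun l => R.Lo P (P l)) = K} from ⟨hPB, hPK⟩), Set.indicator_of_mem hPB]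
          rw [prod_eq_one]
          · simp
          · intro l hl
            simp only [hφ]
            rw [if_pos]
            have := Finset.ext_iff.mp hPK l
            simp only [mem_filter, hl, true_and] at this
            exact this
        · rw [Set.indicator_of_notMem (fun h => hPK h.2)]
          symm
          rw [mul_eq_zero]
          right
          rw [prod_eq_zero_iff]
          by_contra hcon
          push Not at hcon
          apply hPK
          ext l
          simp only [mem_filter]
          have h2 : ∀ l ∈ U, (R.Lo P (P l) ↔ l ∈ K) := by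
            intro l hl
            by_contra h
            exact hcon l hl (by simp only [hφ]; rw [if_neg h])
          constructor
          · rintro ⟨h1, h3⟩; exact (h2 l h1).mp h3
          · intro h1; exact ⟨hK h1, (h2 l (hK h1)).mpr h1⟩
      · rw [Set.indicator_of_notMem (fun h => hPB h.1), Set.indicator_of_notMem hPB]
        simp
    simp_rw [e1]
    rw [coord_prod μ (φ K) (hφm K) U (B.indicator 1) (measurable_one.indicator hB)
      (fun l hl P y => by
        by_cases h : P ∈ B
        · rw [Set.indicator_of_mem h, Set.indicator_of_mem ((hBU l hl P y).mpr h)]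
          rfl
        · rw [Set.indicator_of_notMem h,
            Set.indicator_of_notMem (fun h' => h ((hBU l hl P y).mp h'))])
      (fun l hl i hi P y z => by
        simp only [hφ]
        rw [R.inv l hl P y z])]
    rw [← lintegral_indicator hB]
    apply lintegral_congr
    intro P
    by_cases hPB : P ∈ B
    · rw [Set.indicator_of_mem hPB, Set.indicator_of_mem hPB]
      simp only [Pi.one_apply, one_mul]
      have e2 : ∀ l, ∫⁻ y, φ K l P y ∂μ =
          if l ∈ K then ENNReal.ofReal (R.F μ P) else ENNReal.ofReal (1 - R.F μ P) := by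
        intro l
        simp only [hφ]
        by_cases hl : l ∈ K
        · simp only [hl, iff_true, if_true]
          rw [R.ofReal_F, ← lintegral_indicator_one (R.meas_sec P)]
          apply lintegral_congr
          intro y
          simp [Set.indicator_apply]
        · simp only [hl, iff_false, if_false]
          rw [R.ofReal_one_sub_F]
          have hc : MeasurableSet {y | ¬ R.Lo P y} := (R.meas_sec P).compl
          rw [← lintegral_indicator_one hc]
          apply lintegral_congr
          intro y
          simp [Set.indicator_apply]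
      simp_rw [e2]
      rw [prod_ite, prod_const, prod_const]
      have e3 : U.filter (fun l => l ∈ K) = K := by
        ext l; simp only [mem_filter]; exact ⟨fun h => h.2, fun h => ⟨hK h, h⟩⟩
      have e4 : U.filter (fun l => ¬ l ∈ K) = U \ K := by
        ext l; simp only [mem_filter, Finset.mem_sdiff]
      rw [e3, e4, card_sdiff_of_subset hK, ENNReal.ofReal_mul (pow_nonneg (R.F_nonneg μ P) _),
        ENNReal.ofReal_pow (R.F_nonneg μ P), ENNReal.ofReal_pow (by linarith [R.F_le_one μ P])]
    · rw [Set.indicator_of_notMem hPB, Set.indicator_of_notMem hPB, zero_mul]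
  have h2 : {P | P ∈ B ∧ R.cnt P = k} = ⋃ K ∈ (U.powersetCard k : Set (Finset (Fin n))),
      {P | P ∈ B ∧ U.filter (fun l => R.Lo P (P l)) = K} := by
    ext P
    simp only [Set.mem_iUnion, exists_prop, mem_coe, mem_powersetCard]
    constructor
    · rintro ⟨h1, h2⟩
      exact ⟨_, ⟨filter_subset _ _, h2⟩, h1, rfl⟩
    · rintro ⟨K, ⟨_, hK⟩, h1, h2⟩
      refine ⟨h1, ?_⟩
      unfold cnt
      rw [h2, hK]
  rw [h2, measure_biUnion (Finset.countable_toSet _)]
  · rw [Finset.tsum_subtype' (U.powersetCard k) (fun K => Measure.pi (fun _ : Fin n => μ)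
      {P | P ∈ B ∧ U.filter (fun l => R.Lo P (P l)) = K})]
    rw [sum_congr rfl (fun K hK => h1 K (mem_powersetCard.mp hK).1)]
    rw [sum_congr rfl (g := fun _ => ∫⁻ P in B,
      ENNReal.ofReal (R.F μ P ^ k * (1 - R.F μ P) ^ (U.card - k)) ∂Measure.pi (fun _ : Fin n => μ))
      (fun K hK => by rw [(mem_powersetCard.mp hK).2])]
    rw [sum_const, card_powersetCard, nsmul_eq_mul]
  · intro K _ K' _ hne
    rw [Function.onFun, Set.disjoint_left]
    rintro P ⟨_, h⟩ ⟨_, h'⟩
    exact hne (h.symm.trans h')
  · intro K hK
    exact R.meas_piece hB (mem_powersetCard.mp hK).1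

open Classical in
/-- second moment -/
theorem second_moment (μ : Measure X) [IsProbabilityMeasure μ] {B : Set (Fin n → X)}
    (hB : MeasurableSet B) (hBU : ∀ l ∈ U, ∀ P y, Function.update P l y ∈ B ↔ P ∈ B)
    {v : ℝ} (hv0 : 0 ≤ v) (hv : ∀ P ∈ B, R.F μ P * (1 - R.F μ P) ≤ v)
    (V : Finset (Fin n)) (hV : V ⊆ U) :
    ∫⁻ P in B, ENNReal.ofReal ((∑ l ∈ V, ((if R.Lo P (P l) then 1 else 0) - R.F μ P)) ^ 2)
      ∂Measure.pi (fun _ : Fin n => μ) ≤
      ENNReal.ofReal (V.card * v) * Measure.pi (fun _ : Fin n => μ) B := by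
  have hm1 : ∀ l, Measurable (fun P : Fin n → X =>
      (if R.Lo P (P l) then (1 : ℝ) else 0) - R.F μ P) := by
    intro l
    exact (Measurable.ite (R.meas_at l) measurable_const measurable_const).sub (R.measurable_F μ)
  induction V using Finset.induction_on with
  | empty => simp
  | insert l V hl ih =>
    have hlU : l ∈ U := hV (mem_insert_self l V)
    have ih' := ih (fun i hi => hV (mem_insert_of_mem hi))
    rw [← lintegral_indicator hB] at ih' ⊢
    have hmf : ∀ V : Finset (Fin n), Measurable (B.indicator (fun P => ENNReal.ofReal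
        ((∑ l ∈ V, ((if R.Lo P (P l) then (1 : ℝ) else 0) - R.F μ P)) ^ 2))) := by
      intro V
      exact ((Finset.measurable_sum V (fun i _ => hm1 i)).pow_const 2).ennreal_ofReal.indicator hB
    rw [pi_update (fun _ : Fin n => μ) l (hmf (insert l V))]
    have e1 : ∀ P : Fin n → X, ∫⁻ y, B.indicator (fun P => ENNReal.ofReal
        ((∑ l ∈ insert l V, ((if R.Lo P (P l) then (1 : ℝ) else 0) - R.F μ P)) ^ 2))
          (Function.update P l y) ∂μ ≤ B.indicator (fun P => ENNReal.ofReal
        ((∑ l ∈ V, ((if R.Lo P (P l) then (1 : ℝ) else 0) - R.F μ P)) ^ 2)) P +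
          ENNReal.ofReal v * B.indicator 1 P := by
      intro P
      by_cases hP : P ∈ B
      · rw [Set.indicator_of_mem hP, Set.indicator_of_mem hP]
        set z := ∑ l ∈ V, ((if R.Lo P (P l) then (1 : ℝ) else 0) - R.F μ P) with hz
        set f := R.F μ P with hf
        have e2 : ∀ y, B.indicator (fun P => ENNReal.ofReal
            ((∑ l ∈ insert l V, ((if R.Lo P (P l) then (1 : ℝ) else 0) - R.F μ P)) ^ 2))
            (Function.update P l y) = {y | R.Lo P y}.indicator
              (fun _ => ENNReal.ofReal ((1 - f + z) ^ 2)) y + {y | ¬ R.Lo P y}.indicator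
              (fun _ => ENNReal.ofReal ((-f + z) ^ 2)) y := by
          intro y
          rw [Set.indicator_of_mem ((hBU l hlU P y).mpr hP), sum_insert hl]
          have e3 : ∑ i ∈ V, ((if R.Lo (Function.update P l y) (Function.update P l y i)
              then (1 : ℝ) else 0) - R.F μ (Function.update P l y)) = z := by
            rw [hz]
            apply sum_congr rfl
            intro i hi
            have hil : i ≠ l := fun h => hl (h ▸ hi)
            rw [Function.update_of_ne hil, R.F_update μ hlU, R.inv l hlU]
          rw [e3, R.F_update μ hlU, Function.update_self, R.inv l hlU]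
          by_cases hy : R.Lo P y
          · rw [if_pos hy, Set.indicator_of_mem (show y ∈ {y | R.Lo P y} from hy),
              Set.indicator_of_notMem (fun h : y ∈ {y | ¬ R.Lo P y} => h hy), add_zero]
          · rw [if_neg hy, Set.indicator_of_notMem (fun h : y ∈ {y | R.Lo P y} => hy h),
              Set.indicator_of_mem (show y ∈ {y | ¬ R.Lo P y} from hy), zero_add, zero_sub]
        simp_rw [e2]
        have hc : MeasurableSet {y | ¬ R.Lo P y} := (R.meas_sec P).compl
        rw [lintegral_add_left (measurable_const.indicator (R.meas_sec P)),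
          lintegral_indicator_const (R.meas_sec P), lintegral_indicator_const hc,
          ← R.ofReal_F, ← R.ofReal_one_sub_F, ← hf]
        have hf0 : 0 ≤ f := R.F_nonneg μ P
        have hf1 : f ≤ 1 := R.F_le_one μ P
        rw [← ENNReal.ofReal_mul (sq_nonneg _), ← ENNReal.ofReal_mul (sq_nonneg _),
          ← ENNReal.ofReal_add (mul_nonneg (sq_nonneg _) hf0)
            (mul_nonneg (sq_nonneg _) (by linarith)), Pi.one_apply, mul_one,
          ← ENNReal.ofReal_add (sq_nonneg _) hv0]
        apply ENNReal.ofReal_le_ofReal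
        have hvP := hv P hP
        rw [← hf] at hvP
        have e5 : (1 - f + z) ^ 2 * f + (-f + z) ^ 2 * (1 - f) = z ^ 2 + f * (1 - f) := by ring
        rw [e5]
        linarith
      · have e2 : ∀ y, B.indicator (fun P => ENNReal.ofReal
            ((∑ l ∈ insert l V, ((if R.Lo P (P l) then (1 : ℝ) else 0) - R.F μ P)) ^ 2))
            (Function.update P l y) = 0 := fun y =>
          Set.indicator_of_notMem (fun h => hP ((hBU l hlU P y).mp h)) _
        rw [lintegral_congr e2, lintegral_zero]
        exact zero_le
    refine (lintegral_mono e1).trans ?_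
    rw [lintegral_add_left (hmf V), lintegral_const_mul _ (measurable_one.indicator hB),
      lintegral_indicator_one hB]
    refine (add_le_add ih' le_rfl).trans ?_
    rw [← add_mul, ← ENNReal.ofReal_add (by positivity) (by positivity), card_insert_of_notMem hl]
    apply le_of_eq
    congr 2
    push_cast
    ring

open Classical in
/-- Chebyshev's inequality -/
theorem chebyshev (μ : Measure X) [IsProbabilityMeasure μ] {B : Set (Fin n → X)}
    (hB : MeasurableSet B) (hBU : ∀ l ∈ U, ∀ P y, Function.update P l y ∈ B ↔ P ∈ B)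
    {v : ℝ} (hv0 : 0 ≤ v) (hv : ∀ P ∈ B, R.F μ P * (1 - R.F μ P) ≤ v) {t : ℝ} (ht : 0 ≤ t) :
    ENNReal.ofReal (t ^ 2) * Measure.pi (fun _ : Fin n => μ)
      {P | P ∈ B ∧ t ≤ |(R.cnt P : ℝ) - U.card * R.F μ P|} ≤
      ENNReal.ofReal (U.card * v) * Measure.pi (fun _ : Fin n => μ) B := by
  refine le_trans ?_ (R.second_moment μ hB hBU hv0 hv U (Subset.refl U))
  have hm1 : ∀ l, Measurable (fun P : Fin n → X =>
      (if R.Lo P (P l) then (1 : ℝ) else 0) - R.F μ P) := by
    intro l
    exact (Measurable.ite (R.meas_at l) measurable_const measurable_const).sub (R.measurable_F μ)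
  have hms : Measurable (fun P => ENNReal.ofReal
      ((∑ l ∈ U, ((if R.Lo P (P l) then (1 : ℝ) else 0) - R.F μ P)) ^ 2)) :=
    ((Finset.measurable_sum U (fun i _ => hm1 i)).pow_const 2).ennreal_ofReal
  have h1 := mul_meas_ge_le_lintegral (μ := (Measure.pi (fun _ : Fin n => μ)).restrict B) hms
    (ENNReal.ofReal (t ^ 2))
  refine le_trans ?_ h1
  rw [Measure.restrict_apply (measurableSet_le measurable_const hms)]
  gcongr
  rintro P ⟨hP, hPt⟩
  refine ⟨?_, hP⟩
  have e : ∑ l ∈ U, ((if R.Lo P (P l) then (1 : ℝ) else 0) - R.F μ P) =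
      (R.cnt P : ℝ) - U.card * R.F μ P := by
    rw [sum_sub_distrib, sum_const, nsmul_eq_mul]
    congr 1
    unfold cnt
    rw [card_filter]
    push_cast
    rfl
  show ENNReal.ofReal (t ^ 2) ≤ ENNReal.ofReal _
  apply ENNReal.ofReal_le_ofReal
  rw [e]
  rw [← sq_abs ((R.cnt P : ℝ) - U.card * R.F μ P)]
  exact pow_le_pow_left₀ ht hPt 2

end RandSet

end Pool.Agent.H189R2.Iid
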