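import Pool.Agent.H189R2.Iid.Low
import Pool.Agent.H189R2.Iid.Prob

/-! Independent points: general position, pairs and crossings in expectation. -/

set_option autoImplicit false

namespace Pool.Agent.H189R2.Iid

open Finset MeasureTheory Filter Pool.Agent.H189R2.Lev
open scoped ENNReal

/-- lines are null -/
def LN (μ : Measure (ℝ × ℝ)) : Prop :=
  ∀ a b c : ℝ, (a ≠ 0 ∨ b ≠ 0) → μ {y | a * y.1 + b * y.2 = c} = 0

theorem measurable_X2 {Ω : Type*} [MeasurableSpace Ω] {f g : Ω → ℝ × ℝ} (hf : Measurable f)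
    (hg : Measurable g) : Measurable (fun ω => X2 (f ω) (g ω)) := by
  unfold X2
  exact (hg.snd.sub hf.snd).div (hf.fst.sub hg.fst)

theorem measurable_Y2 {Ω : Type*} [MeasurableSpace Ω] {f g : Ω → ℝ × ℝ} (hf : Measurable f)
    (hg : Measurable g) : Measurable (fun ω => Y2 (f ω) (g ω)) := by
  unfold Y2
  exact (hf.fst.mul (measurable_X2 hf hg)).add hf.snd

theorem measurable_M4 {Ω : Type*} [MeasurableSpace Ω] {f g h k : Ω → ℝ × ℝ} (hf : Measurable f)
    (hg : Measurable g) (hh : Measurable h) (hk : Measurable k) :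
    Measurable (fun ω => M4 (f ω) (g ω) (h ω) (k ω)) := by
  unfold M4
  exact ((measurable_Y2 hh hk).sub (measurable_Y2 hf hg)).div
    ((measurable_X2 hh hk).sub (measurable_X2 hf hg))

theorem meas_CrossP {Ω : Type*} [MeasurableSpace Ω] {f g h k : Ω → ℝ × ℝ} (hf : Measurable f)
    (hg : Measurable g) (hh : Measurable h) (hk : Measurable k) :
    MeasurableSet {ω | CrossP (f ω) (g ω) (h ω) (k ω)} := by
  have hM := measurable_M4 hf hg hh hk
  exact (measurableSet_lt hg.fst hM).inter ((measurableSet_lt hM hf.fst).inter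
    ((measurableSet_lt hk.fst hM).inter (measurableSet_lt hM hh.fst)))

theorem meas_low {Ω : Type*} [MeasurableSpace Ω] {f g h : Ω → ℝ × ℝ} (hf : Measurable f)
    (hg : Measurable g) (hh : Measurable h) :
    MeasurableSet {ω | h ω ∈ low (f ω) (g ω)} :=
  measurableSet_lt ((hh.fst.mul (measurable_X2 hf hg)).add hh.snd) (measurable_Y2 hf hg)

variable {μ : Measure (ℝ × ℝ)}

theorem ae_GP [IsProbabilityMeasure μ] (hμ : LN μ) (n : ℕ) :
    ∀ᵐ P ∂Measure.pi (fun _ : Fin n => μ), GP P := by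
  have m1 : ∀ i : Fin n, Measurable (fun P : Fin n → ℝ × ℝ => P i) := fun i => measurable_pi_apply i
  have h1 : ∀ᵐ P ∂Measure.pi (fun _ : Fin n => μ), ∀ i j, i ≠ j → (P i).1 ≠ (P j).1 := by
    rw [ae_all_iff]; intro i
    rw [ae_all_iff]; intro j
    by_cases hij : i = j
    · exact Eventually.of_forall (fun _ h => absurd hij h)
    · have : ∀ᵐ P ∂Measure.pi (fun _ : Fin n => μ), (P i).1 ≠ (P j).1 := by
        rw [ae_iff]
        simp only [ne_eq, not_not]
        apply null_coord i (measurableSet_eq_fun (m1 i).fst (m1 j).fst)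
        intro P
        refine measure_mono_null ?_ (hμ 1 0 (P j).1 (Or.inl one_ne_zero))
        intro y hy
        have hy' : (Function.update P i y i).1 = (Function.update P i y j).1 := hy
        rw [Function.update_self, Function.update_of_ne (Ne.symm hij)] at hy'
        show 1 * y.1 + 0 * y.2 = (P j).1
        linarith
      filter_upwards [this] with P hP _
      exact hP
  have h2 : ∀ᵐ P ∂Measure.pi (fun _ : Fin n => μ), ∀ i j r s, i ≠ j → i ≠ r → i ≠ s →
      (P j).1 < (P i).1 → X2 (P i) (P j) ≠ X2 (P r) (P s) := by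
    rw [ae_all_iff]; intro i
    rw [ae_all_iff]; intro j
    rw [ae_all_iff]; intro r
    rw [ae_all_iff]; intro s
    by_cases hij : i = j
    · exact Eventually.of_forall (fun _ h => absurd hij h)
    by_cases hir : i = r
    · exact Eventually.of_forall (fun _ _ h => absurd hir h)
    by_cases his : i = s
    · exact Eventually.of_forall (fun _ _ _ h => absurd his h)
    have : ∀ᵐ P ∂Measure.pi (fun _ : Fin n => μ), ¬ ((P j).1 < (P i).1 ∧
        X2 (P i) (P j) = X2 (P r) (P s)) := by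
      rw [ae_iff]
      simp only [not_not]
      apply null_coord i ((measurableSet_lt (m1 j).fst (m1 i).fst).inter
        (measurableSet_eq_fun (measurable_X2 (m1 i) (m1 j)) (measurable_X2 (m1 r) (m1 s))))
      intro P
      refine measure_mono_null ?_ (hμ (X2 (P r) (P s)) 1
        (X2 (P r) (P s) * (P j).1 + (P j).2) (Or.inr one_ne_zero))
      rintro y ⟨hy1, hy2⟩
      have hy1' : (Function.update P i y j).1 < (Function.update P i y i).1 := hy1
      have hy2' : X2 (Function.update P i y i) (Function.update P i y j) =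
        X2 (Function.update P i y r) (Function.update P i y s) := hy2
      rw [Function.update_self, Function.update_of_ne (Ne.symm hij)] at hy1' hy2'
      rw [Function.update_of_ne (Ne.symm hir), Function.update_of_ne (Ne.symm his)] at hy2'
      show X2 (P r) (P s) * y.1 + 1 * y.2 = X2 (P r) (P s) * (P j).1 + (P j).2
      rw [← hy2']
      have h0 : y.1 - (P j).1 ≠ 0 := by linarith
      unfold X2
      field_simp
      ring
    filter_upwards [this] with P hP _ _ _ h h'
    exact hP ⟨h, h'⟩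
  have h3 : ∀ᵐ P ∂Measure.pi (fun _ : Fin n => μ), ∀ i j r s, j ≠ i → j ≠ r → j ≠ s →
      (P j).1 < (P i).1 → X2 (P i) (P j) ≠ X2 (P r) (P s) := by
    rw [ae_all_iff]; intro i
    rw [ae_all_iff]; intro j
    rw [ae_all_iff]; intro r
    rw [ae_all_iff]; intro s
    by_cases hij : j = i
    · exact Eventually.of_forall (fun _ h => absurd hij h)
    by_cases hir : j = r
    · exact Eventually.of_forall (fun _ _ h => absurd hir h)
    by_cases his : j = s
    · exact Eventually.of_forall (fun _ _ _ h => absurd his h)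
    have : ∀ᵐ P ∂Measure.pi (fun _ : Fin n => μ), ¬ ((P j).1 < (P i).1 ∧
        X2 (P i) (P j) = X2 (P r) (P s)) := by
      rw [ae_iff]
      simp only [not_not]
      apply null_coord j ((measurableSet_lt (m1 j).fst (m1 i).fst).inter
        (measurableSet_eq_fun (measurable_X2 (m1 i) (m1 j)) (measurable_X2 (m1 r) (m1 s))))
      intro P
      refine measure_mono_null ?_ (hμ (X2 (P r) (P s)) 1
        (X2 (P r) (P s) * (P i).1 + (P i).2) (Or.inr one_ne_zero))
      rintro y ⟨hy1, hy2⟩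
      have hy1' : (Function.update P j y j).1 < (Function.update P j y i).1 := hy1
      have hy2' : X2 (Function.update P j y i) (Function.update P j y j) =
        X2 (Function.update P j y r) (Function.update P j y s) := hy2
      rw [Function.update_self, Function.update_of_ne (Ne.symm hij)] at hy1' hy2'
      rw [Function.update_of_ne (Ne.symm hir), Function.update_of_ne (Ne.symm his)] at hy2'
      show X2 (P r) (P s) * y.1 + 1 * y.2 = X2 (P r) (P s) * (P i).1 + (P i).2
      rw [← hy2']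
      have h0 : (P i).1 - y.1 ≠ 0 := by linarith
      unfold X2
      field_simp
      ring
    filter_upwards [this] with P hP _ _ _ h h'
    exact hP ⟨h, h'⟩
  filter_upwards [h1, h2, h3] with P hP1 hP2 hP3
  refine ⟨fun i j h => ?_, ?_⟩
  · by_contra hne
    exact hP1 i j hne h
  · intro i j r s hji hsr hX
    have hij : i ≠ j := by
      intro h; rw [h] at hji; exact lt_irrefl _ hji
    have hi : i = r ∨ i = s := by
      by_contra hcon
      push Not at hcon
      exact hP2 i j r s hij hcon.1 hcon.2 hji hX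
    have hj : j = r ∨ j = s := by
      by_contra hcon
      push Not at hcon
      exact hP3 i j r s hij.symm hcon.1 hcon.2 hji hX
    rcases hi with rfl | rfl
    · rcases hj with rfl | rfl
      · exact absurd rfl hij
      · exact ⟨rfl, rfl⟩
    · rcases hj with rfl | rfl
      · exact absurd hji (lt_asymm hsr)
      · exact absurd rfl hij

theorem lintegral_card {Ω ι : Type*} [MeasurableSpace Ω] [Fintype ι] (ν : Measure Ω)
    (Ev : ι → Set Ω) (hEv : ∀ q, MeasurableSet (Ev q))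
    [∀ ω, DecidablePred (fun q => ω ∈ Ev q)] :
    ∫⁻ ω, ((univ.filter (fun q => ω ∈ Ev q)).card : ℝ≥0∞) ∂ν = ∑ q, ν (Ev q) := by
  classical
  have : ∀ ω, ((univ.filter (fun q => ω ∈ Ev q)).card : ℝ≥0∞) =
      ∑ q, (Ev q).indicator 1 ω := by
    intro ω
    rw [card_filter]
    push_cast
    apply sum_congr rfl
    intro q _
    simp [Set.indicator_apply]
  simp_rw [this]
  rw [lintegral_finsetSum _ (fun q _ => measurable_one.indicator (hEv q))]
  exact sum_congr rfl (fun q _ => lintegral_indicator_one (hEv q))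

/-- oriented pairs in `A` -/
def Ev2 (A : Set ((ℝ × ℝ) × (ℝ × ℝ))) {n : ℕ} (i j : Fin n) : Set (Fin n → ℝ × ℝ) :=
  {P | (P j).1 < (P i).1 ∧ (P i, P j) ∈ A}

/-- crossing oriented pairs in `A` -/
def Ev4 (A : Set ((ℝ × ℝ) × (ℝ × ℝ))) {n : ℕ} (i j r s : Fin n) : Set (Fin n → ℝ × ℝ) :=
  {P | P ∈ Ev2 A i j ∧ P ∈ Ev2 A r s ∧ CrossP (P i) (P j) (P r) (P s)}

theorem meas_Ev2 {A : Set ((ℝ × ℝ) × (ℝ × ℝ))} (hA : MeasurableSet A) {n : ℕ} (i j : Fin n) :
    MeasurableSet (Ev2 A i j) := by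
  have m1 : ∀ i : Fin n, Measurable (fun P : Fin n → ℝ × ℝ => P i) := fun i => measurable_pi_apply i
  have m2 : Measurable (fun P : Fin n → ℝ × ℝ => (P i, P j)) := (m1 i).prodMk (m1 j)
  exact (measurableSet_lt (m1 j).fst (m1 i).fst).inter (m2 hA)

theorem meas_Ev4 {A : Set ((ℝ × ℝ) × (ℝ × ℝ))} (hA : MeasurableSet A) {n : ℕ}
    (i j r s : Fin n) : MeasurableSet (Ev4 A i j r s) :=
  (meas_Ev2 hA i j).inter ((meas_Ev2 hA r s).inter (meas_CrossP (measurable_pi_apply i)
    (measurable_pi_apply j) (measurable_pi_apply r) (measurable_pi_apply s)))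

/-- probability of an oriented pair in `A` -/
noncomputable def ee (μ : Measure (ℝ × ℝ)) (A : Set ((ℝ × ℝ) × (ℝ × ℝ))) : ℝ≥0∞ :=
  Measure.pi (fun _ : Fin 2 => μ) (Ev2 A 0 1)

/-- probability of two crossing oriented pairs in `A` -/
noncomputable def xx (μ : Measure (ℝ × ℝ)) (A : Set ((ℝ × ℝ) × (ℝ × ℝ))) : ℝ≥0∞ :=
  Measure.pi (fun _ : Fin 4 => μ) (Ev4 A 0 1 2 3)

theorem pi_Ev2 [IsProbabilityMeasure μ] {A : Set ((ℝ × ℝ) × (ℝ × ℝ))} (hA : MeasurableSet A)
    {n : ℕ} {i j : Fin n} (hij : i ≠ j) :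
    Measure.pi (fun _ : Fin n => μ) (Ev2 A i j) = ee μ A := by
  unfold ee
  rw [← measure_comp μ (g := ![i, j]) _ (meas_Ev2 hA 0 1)]
  · rfl
  · intro a b h
    fin_cases a <;> fin_cases b <;> simp at h ⊢
    · exact hij h
    · exact hij h.symm

theorem pi_Ev4 [IsProbabilityMeasure μ] {A : Set ((ℝ × ℝ) × (ℝ × ℝ))} (hA : MeasurableSet A)
    {n : ℕ} {g : Fin 4 → Fin n} (hg : Function.Injective g) :
    Measure.pi (fun _ : Fin n => μ) (Ev4 A (g 0) (g 1) (g 2) (g 3)) = xx μ A := by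
  unfold xx
  rw [← measure_comp μ hg (meas_Ev4 hA 0 1 2 3)]
  rfl

theorem Ev4_null [IsProbabilityMeasure μ] (hμ : LN μ) {A : Set ((ℝ × ℝ) × (ℝ × ℝ))}
    {n : ℕ} {i j r s : Fin n} (hne : (i, j) ≠ (r, s))
    (h : ¬ Function.Injective ![i, j, r, s]) :
    Measure.pi (fun _ : Fin n => μ) (Ev4 A i j r s) = 0 := by
  have := ae_GP hμ n
  rw [ae_iff] at this
  refine measure_mono_null ?_ this
  rintro P ⟨h1, h2, h3⟩ hP
  apply h
  obtain ⟨a1, a2, a3, a4, a5, a6⟩ := cross_distinct hP (e := (i, j)) (f := (r, s))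
    (mem_T.mpr h1.1) (mem_T.mpr h2.1) hne h3
  simp only at a1 a2 a3 a4 a5 a6
  intro a b hab
  fin_cases a <;> fin_cases b <;> simp at hab ⊢ <;>
    first
      | exact a1 hab | exact a2 hab | exact a3 hab | exact a4 hab | exact a5 hab | exact a6 hab
      | exact a1 hab.symm | exact a2 hab.symm | exact a3 hab.symm | exact a4 hab.symm
      | exact a5 hab.symm | exact a6 hab.symm

open Classical in
/-- a sample of `m` points -/
theorem sample_le [IsProbabilityMeasure μ] (hμ : LN μ) {A : Set ((ℝ × ℝ) × (ℝ × ℝ))}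
    (hA : MeasurableSet A) (m : ℕ) :
    ((m * m - m : ℕ) : ℝ≥0∞) * ee μ A ≤ 3 * m + m ^ 4 * xx μ A := by
  set π := Measure.pi (fun _ : Fin m => μ) with hπ
  have h1 : ((m * m - m : ℕ) : ℝ≥0∞) * ee μ A ≤
      ∫⁻ P, ((univ.filter (fun q : Fin m × Fin m => P ∈ Ev2 A q.1 q.2)).card : ℝ≥0∞) ∂π := by
    rw [lintegral_card π (fun q : Fin m × Fin m => Ev2 A q.1 q.2)
      (fun q => meas_Ev2 hA q.1 q.2)]
    calc ((m * m - m : ℕ) : ℝ≥0∞) * ee μ A = ∑ q ∈ (univ : Finset (Fin m)).offDiag, ee μ A := by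
          rw [sum_const, offDiag_card, nsmul_eq_mul, card_univ, Fintype.card_fin]
      _ = ∑ q ∈ (univ : Finset (Fin m)).offDiag, π (Ev2 A q.1 q.2) := by
          apply sum_congr rfl
          intro q hq
          rw [mem_offDiag] at hq
          exact (pi_Ev2 hA hq.2.2).symm
      _ ≤ ∑ q : Fin m × Fin m, π (Ev2 A q.1 q.2) := sum_le_sum_of_subset (subset_univ _)
  have h2 : ∫⁻ P, ((univ.filter (fun q : Fin m × Fin m => P ∈ Ev2 A q.1 q.2)).card : ℝ≥0∞) ∂π ≤
      ∫⁻ P, (3 * m + ((univ.filter (fun z : (Fin m × Fin m) × (Fin m × Fin m) =>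
        P ∈ {P | z.1 ≠ z.2 ∧ P ∈ Ev4 A z.1.1 z.1.2 z.2.1 z.2.2})).card : ℝ≥0∞)) ∂π := by
    apply lintegral_mono_ae
    filter_upwards [ae_GP hμ m] with P hP
    have h3 := edges_le hP (univ.filter (fun q : Fin m × Fin m => P ∈ Ev2 A q.1 q.2))
      (fun e he => (mem_filter.mp he).2.1)
    have h4 : ((univ.filter (fun q : Fin m × Fin m => P ∈ Ev2 A q.1 q.2)) ×ˢ
        (univ.filter (fun q : Fin m × Fin m => P ∈ Ev2 A q.1 q.2))).filter (fun q => q.1 ≠ q.2 ∧
        CrossP (P q.1.1) (P q.1.2) (P q.2.1) (P q.2.2)) =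
        univ.filter (fun z : (Fin m × Fin m) × (Fin m × Fin m) =>
        P ∈ {P | z.1 ≠ z.2 ∧ P ∈ Ev4 A z.1.1 z.1.2 z.2.1 z.2.2}) := by
      ext z
      simp only [mem_filter, mem_product, mem_univ, true_and]
      constructor
      · rintro ⟨⟨b1, b2⟩, b3, b4⟩; exact ⟨b3, b1, b2, b4⟩
      · rintro ⟨b3, b1, b2, b4⟩; exact ⟨⟨b1, b2⟩, b3, b4⟩
    rw [h4] at h3
    exact_mod_cast h3
  refine h1.trans (h2.trans ?_)
  rw [lintegral_add_left measurable_const, lintegral_const, measure_univ, mul_one]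
  refine add_le_add le_rfl ?_
  have hm : ∀ z : (Fin m × Fin m) × (Fin m × Fin m),
      MeasurableSet {P | z.1 ≠ z.2 ∧ P ∈ Ev4 A z.1.1 z.1.2 z.2.1 z.2.2} := by
    intro z
    by_cases hz : z.1 = z.2
    · simp [hz]
    · simpa [hz] using meas_Ev4 hA z.1.1 z.1.2 z.2.1 z.2.2
  rw [lintegral_card π (fun z : (Fin m × Fin m) × (Fin m × Fin m) =>
    {P | z.1 ≠ z.2 ∧ P ∈ Ev4 A z.1.1 z.1.2 z.2.1 z.2.2}) hm]
  calc ∑ z : (Fin m × Fin m) × (Fin m × Fin m),
        π {P | z.1 ≠ z.2 ∧ P ∈ Ev4 A z.1.1 z.1.2 z.2.1 z.2.2} ≤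
        ∑ z : (Fin m × Fin m) × (Fin m × Fin m), xx μ A := by
        apply sum_le_sum
        intro z _
        by_cases hz : z.1 = z.2
        · simp [hz]
        · have hsub : {P | z.1 ≠ z.2 ∧ P ∈ Ev4 A z.1.1 z.1.2 z.2.1 z.2.2} ⊆
              Ev4 A z.1.1 z.1.2 z.2.1 z.2.2 := fun P hP => hP.2
          refine (measure_mono hsub).trans ?_
          by_cases hinj : Function.Injective ![z.1.1, z.1.2, z.2.1, z.2.2]
          · exact (pi_Ev4 hA hinj).le
          · rw [hπ, Ev4_null hμ (fun h => hz (by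
              rw [Prod.mk.injEq] at h; exact Prod.ext h.1 h.2)) hinj]
            exact zero_le
    _ = m ^ 4 * xx μ A := by
        rw [sum_const, card_univ, nsmul_eq_mul]
        simp only [Fintype.card_prod, Fintype.card_fin]
        push_cast
        ring

theorem ee_le_one [IsProbabilityMeasure μ] (A : Set ((ℝ × ℝ) × (ℝ × ℝ))) : ee μ A ≤ 1 :=
  prob_le_one

theorem xx_le_one [IsProbabilityMeasure μ] (A : Set ((ℝ × ℝ) × (ℝ × ℝ))) : xx μ A ≤ 1 :=
  prob_le_one

/-- many pairs have many crossings -/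
theorem ee_cube [IsProbabilityMeasure μ] (hμ : LN μ) {A : Set ((ℝ × ℝ) × (ℝ × ℝ))}
    (hA : MeasurableSet A) : (ee μ A).toReal ^ 3 ≤ 183 * (xx μ A).toReal := by
  set e := (ee μ A).toReal with he
  set x := (xx μ A).toReal with hx
  have hefin : ee μ A ≠ ⊤ := ne_top_of_le_ne_top ENNReal.one_ne_top (ee_le_one A)
  have hxfin : xx μ A ≠ ⊤ := ne_top_of_le_ne_top ENNReal.one_ne_top (xx_le_one A)
  have he0 : 0 ≤ e := ENNReal.toReal_nonneg
  have hx0 : 0 ≤ x := ENNReal.toReal_nonneg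
  have he1 : e ≤ 1 := ENNReal.toReal_le_of_le_ofReal zero_le_one (by simpa using ee_le_one A)
  have key : ∀ m : ℕ, 1 ≤ m → ((m : ℝ) - 1) * e ≤ 3 + m ^ 3 * x := by
    intro m hm
    have h := sample_le hμ hA m
    have h' := ENNReal.toReal_mono (by
      exact ENNReal.add_ne_top.mpr ⟨ENNReal.mul_ne_top (by simp) (ENNReal.natCast_ne_top m),
        ENNReal.mul_ne_top (by simp) hxfin⟩) h
    rw [ENNReal.toReal_mul, ENNReal.toReal_add (ENNReal.mul_ne_top (by simp)
      (ENNReal.natCast_ne_top m)) (ENNReal.mul_ne_top (by simp) hxfin), ENNReal.toReal_mul,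
      ENNReal.toReal_mul, ENNReal.toReal_pow, ENNReal.toReal_natCast, ENNReal.toReal_natCast,
      ← he, ← hx, Nat.cast_sub (Nat.le_mul_self m)] at h'
    push_cast at h'
    simp only [ENNReal.toReal_ofNat] at h'
    have hm0 : (0 : ℝ) < m := by exact_mod_cast hm
    have : (m : ℝ) * (((m : ℝ) - 1) * e) ≤ m * (3 + m ^ 3 * x) := by nlinarith
    exact le_of_mul_le_mul_left this hm0
  rcases he0.eq_or_lt with h0 | h0
  · rw [← h0]; simpa using hx0
  have hc := Nat.le_ceil (7 / e)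
  have hc' := (Nat.ceil_lt_add_one (by positivity : (0 : ℝ) ≤ 7 / e)).le
  have hk := key (⌈7 / e⌉₊ + 1) (by omega)
  push_cast at hk
  set c : ℝ := (⌈7 / e⌉₊ : ℝ) with hcdef
  have h1 : 7 ≤ (c + 1 - 1) * e := by
    have := mul_le_mul_of_nonneg_right hc h0.le
    rw [div_mul_cancel₀ _ h0.ne'] at this
    linarith
  have h2 : (c + 1) * e ≤ 9 := by
    have := mul_le_mul_of_nonneg_right hc' h0.le
    rw [add_mul, div_mul_cancel₀ _ h0.ne'] at this
    nlinarith
  have hcp : 0 ≤ c + 1 := by positivity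
  have h3 : 4 ≤ (c + 1) ^ 3 * x := by linarith
  have h4 : 4 * e ^ 3 ≤ ((c + 1) * e) ^ 3 * x := by
    have := mul_le_mul_of_nonneg_right h3 (pow_nonneg he0 3)
    calc 4 * e ^ 3 ≤ (c + 1) ^ 3 * x * e ^ 3 := this
      _ = ((c + 1) * e) ^ 3 * x := by ring
  have h5 : ((c + 1) * e) ^ 3 ≤ 9 ^ 3 := pow_le_pow_left₀ (mul_nonneg hcp he0) h2 3
  have h6 := mul_le_mul_of_nonneg_right h5 hx0
  linarith

end Pool.Agent.H189R2.Iid
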