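import Pool.Agent.H189R2.Iid.Cross

/-! The number of pairs with at most `K` points below (random sampling). -/

set_option autoImplicit false

namespace Pool.Agent.H189R2.Iid

open Finset Pool.Agent.H189R2.Lev

theorem fst_notMem_low (p q : ℝ × ℝ) : p ∉ low p q := by
  intro h
  have h' : p.1 * X2 p q + p.2 < Y2 p q := h
  unfold Y2 at h'
  exact lt_irrefl _ h'

theorem snd_notMem_low {p q : ℝ × ℝ} (hpq : q.1 < p.1) : q ∉ low p q := by
  intro h
  have h' : q.1 * X2 p q + q.2 < Y2 p q := h
  have h2 : (p.1 - q.1) * X2 p q = q.2 - p.2 := by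
    unfold X2; rw [mul_div_cancel₀ _ (by linarith : p.1 - q.1 ≠ 0)]
  unfold Y2 at h'
  linarith

open Classical in
theorem low_zero {n : ℕ} {P : Fin n → ℝ × ℝ} (hP : GP P) (S : Finset (Fin n)) :
    ((T P).filter (fun q => q.1 ∈ S ∧ q.2 ∈ S ∧ ∀ l ∈ S, P l ∉ low (P q.1) (P q.2))).card ≤
      S.card := by
  apply card_le_card_of_injOn (fun q => q.1)
  · intro q hq
    rw [mem_coe, mem_filter] at hq
    exact hq.2.1
  · rintro ⟨u, w⟩ hq ⟨u', w'⟩ hq' h
    simp only at h
    subst h
    rw [mem_coe, mem_filter, mem_T] at hq hq'
    obtain ⟨h1, h2, h3, h4⟩ := hq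
    obtain ⟨h1', h2', h3', h4'⟩ := hq'
    simp only at *
    have key : ∀ v v' : Fin n, (P v).1 < (P u).1 → (P v').1 < (P u).1 →
        P v' ∉ low (P u) (P v) → X2 (P u) (P v) ≤ X2 (P u) (P v') := by
      intro v v' hv hv' hl
      have hl' : ¬ ((P v').1 * X2 (P u) (P v) + (P v').2 < Y2 (P u) (P v)) := hl
      unfold Y2 at hl'
      push Not at hl'
      have : X2 (P u) (P v') = ((P v').2 - (P u).2) / ((P u).1 - (P v').1) := rfl
      rw [this, le_div_iff₀ (by linarith)]
      linarith
    have := hP.2 u w u w' h1 h1' (le_antisymm (key w w' h1 h1' (h4 w' h3'))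
      (key w' w h1' h1 (h4' w h3)))
    rw [this.2]

open Classical in
/-- at most `3 n (K + 1)` pairs have at most `K` points below -/
theorem low_le {n : ℕ} {P : Fin n → ℝ × ℝ} (hP : GP P) (K : ℕ) :
    (((T P).filter (fun q => lev P q ≤ K)).card : ℝ) ≤ 3 * n * (K + 1) := by
  have hK : (0 : ℝ) < K + 1 := by positivity
  set p : ℝ := 1 / (K + 1) with hp
  have hp0 : 0 < p := by positivity
  have hp1 : p ≤ 1 := by
    rw [hp, div_le_one hK]
    have : (0 : ℝ) ≤ K := Nat.cast_nonneg K
    linarith
  set wt : Bool → ℝ := fun b => if b then p else 1 - p with hwt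
  have hwt0 : ∀ b, 0 ≤ wt b := by
    intro b
    cases b
    · simp only [hwt, Bool.false_eq_true, if_false]; linarith
    · simp only [hwt, if_true]; exact hp0.le
  set W : (Fin n → Bool) → ℝ := fun c => ∏ l, wt (c l) with hW
  have hW0 : ∀ c, 0 ≤ W c := fun c => prod_nonneg (fun l _ => hwt0 _)
  set t : Fin n × Fin n → Fin n → Finset Bool := fun q l => if l = q.1 ∨ l = q.2 then {true} else
    if P l ∈ low (P q.1) (P q.2) then {false} else univ with ht
  have h1 : ∀ q ∈ T P, ∑ c ∈ Fintype.piFinset (t q), W c = p ^ 2 * (1 - p) ^ (lev P q) := by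
    intro q hq
    rw [mem_T] at hq
    simp only [hW]
    rw [← Finset.prod_univ_sum (t q) (fun _ b => wt b)]
    have hne : q.1 ≠ q.2 := by
      intro h; rw [h] at hq; exact lt_irrefl _ hq
    have e : ∀ l, ∑ j ∈ t q l, wt j = (if l = q.1 then p else 1) * (if l = q.2 then p else 1) *
        (if P l ∈ low (P q.1) (P q.2) then (1 - p) else 1) := by
      intro l
      by_cases hl1 : l = q.1
      · subst hl1
        simp [ht, hwt, hne, fst_notMem_low]
      · by_cases hl2 : l = q.2
        · subst hl2
          simp [ht, hwt, hne.symm, snd_notMem_low hq]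
        · by_cases hl3 : P l ∈ low (P q.1) (P q.2)
          · simp [ht, hwt, hl1, hl2, hl3]
          · simp [ht, hwt, hl1, hl2, hl3]
    simp_rw [e, prod_mul_distrib, prod_ite_eq', prod_ite, prod_const, one_pow, mul_one]
    simp only [mem_univ, if_true]
    unfold lev
    ring
  have h2 : ∀ c : Fin n → Bool, (((T P).filter (fun q => c ∈ Fintype.piFinset (t q))).card : ℝ) ≤
      ((univ.filter (fun l => c l = true)).card : ℝ) := by
    intro c
    have := low_zero hP (univ.filter (fun l => c l = true))
    refine le_trans (Nat.cast_le.mpr (card_le_card ?_)) (Nat.cast_le.mpr this)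
    intro q hq
    rw [mem_filter] at hq ⊢
    obtain ⟨hq1, hq2⟩ := hq
    rw [Fintype.mem_piFinset] at hq2
    refine ⟨hq1, ?_, ?_, ?_⟩
    · have := hq2 q.1
      simp only [ht, true_or, if_true, mem_singleton] at this
      simp [this]
    · have := hq2 q.2
      simp only [ht, or_true, if_true, mem_singleton] at this
      simp [this]
    · intro l hl hlow
      rw [mem_filter] at hl
      have h3 := hq2 l
      have hl1 : l ≠ q.1 := by
        intro h; rw [h] at hlow; exact fst_notMem_low _ _ hlow
      have hl2 : l ≠ q.2 := by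
        intro h; rw [h] at hlow; exact snd_notMem_low (mem_T.mp hq1) hlow
      simp only [ht, hl1, hl2, or_self, if_false, hlow, if_true, mem_singleton] at h3
      rw [h3] at hl
      exact absurd hl.2 (by simp)
  have h3 : ∑ c : Fin n → Bool, W c * ((univ.filter (fun l => c l = true)).card : ℝ) = n * p := by
    have e1 : ∀ c : Fin n → Bool, W c * ((univ.filter (fun l => c l = true)).card : ℝ) =
        ∑ l, if c ∈ Fintype.piFinset (fun i => if i = l then ({true} : Finset Bool) else univ)
          then W c else 0 := by
      intro c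
      rw [card_filter]
      push_cast
      rw [mul_sum]
      apply sum_congr rfl
      intro l _
      have : c ∈ Fintype.piFinset (fun i => if i = l then ({true} : Finset Bool) else univ) ↔
          c l = true := by
        rw [Fintype.mem_piFinset]
        constructor
        · intro h
          have := h l
          simpa using this
        · intro h i
          by_cases hi : i = l
          · subst hi; simp [h]
          · simp [hi]
      simp only [this]
      split_ifs <;> simp
    simp_rw [e1]
    rw [sum_comm]
    have e2 : ∀ l : Fin n, ∑ c : Fin n → Bool, (if c ∈ Fintype.piFinset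
        (fun i => if i = l then ({true} : Finset Bool) else univ) then W c else 0) = p := by
      intro l
      rw [← sum_filter]
      have e3 : univ.filter (fun c : Fin n → Bool => c ∈ Fintype.piFinset
          (fun i => if i = l then ({true} : Finset Bool) else univ)) = Fintype.piFinset
          (fun i => if i = l then ({true} : Finset Bool) else univ) := by
        ext c; simp
      rw [e3]
      simp only [hW]
      rw [← Finset.prod_univ_sum (fun i => if i = l then ({true} : Finset Bool) else univ)
        (fun _ b => wt b)]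
      have e4 : ∀ i, ∑ j ∈ (if i = l then ({true} : Finset Bool) else univ), wt j =
          if i = l then p else 1 := by
        intro i
        by_cases hi : i = l
        · simp [hi, hwt]
        · simp [hi, hwt]
      simp_rw [e4, prod_ite_eq', mem_univ, if_true]
    simp_rw [e2]
    simp
  -- double counting
  have h4 : ∑ q ∈ T P, ∑ c ∈ Fintype.piFinset (t q), W c ≤ n * p := by
    rw [← h3]
    have e1 : ∀ q, ∑ c ∈ Fintype.piFinset (t q), W c =
        ∑ c : Fin n → Bool, if c ∈ Fintype.piFinset (t q) then W c else 0 := by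
      intro q
      rw [← sum_filter]
      congr 1
      ext c; simp
    simp_rw [e1]
    rw [sum_comm]
    apply sum_le_sum
    intro c _
    rw [← sum_filter, sum_const, nsmul_eq_mul, mul_comm]
    exact mul_le_mul_of_nonneg_left (h2 c) (hW0 c)
  -- lower bound of each term
  have h5 : 1 / 3 ≤ (1 - p) ^ K := by
    rcases Nat.eq_zero_or_pos K with h0 | h0
    · subst h0; norm_num
    have hK0 : (0 : ℝ) < K := Nat.cast_pos.mpr h0
    have e1 : 1 - p = (1 + 1 / (K : ℝ))⁻¹ := by
      rw [hp]; field_simp; ring
    rw [e1, inv_pow, one_div, inv_le_inv₀ (by norm_num) (by positivity)]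
    calc (1 + 1 / (K : ℝ)) ^ K ≤ (Real.exp (1 / (K : ℝ))) ^ K := by
          apply pow_le_pow_left₀ (by positivity)
          have := Real.add_one_le_exp (1 / (K : ℝ))
          linarith
      _ = Real.exp 1 := by
          rw [← Real.exp_nat_mul]
          congr 1
          field_simp
      _ ≤ 3 := by
          have := Real.exp_one_lt_d9
          linarith
  have h6 : (((T P).filter (fun q => lev P q ≤ K)).card : ℝ) * (p ^ 2 * (1 / 3)) ≤ n * p := by
    refine le_trans ?_ h4
    rw [← nsmul_eq_mul, ← sum_const]
    refine le_trans (sum_le_sum (g := fun q => ∑ c ∈ Fintype.piFinset (t q), W c) ?_)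
      (sum_le_sum_of_subset_of_nonneg (filter_subset _ _)
        (fun q _ _ => sum_nonneg (fun c _ => hW0 c)))
    intro q hq
    rw [mem_filter] at hq
    rw [h1 q hq.1]
    apply mul_le_mul_of_nonneg_left _ (sq_nonneg _)
    refine h5.trans ?_
    exact pow_le_pow_of_le_one (by linarith) (by linarith) hq.2
  have h7 : p * (K + 1) = 1 := by rw [hp]; field_simp
  have h8 : (((T P).filter (fun q => lev P q ≤ K)).card : ℝ) * p ≤ 3 * n := by
    by_contra hcon
    push Not at hcon
    have := mul_lt_mul_of_pos_right hcon hp0
    nlinarith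
  calc (((T P).filter (fun q => lev P q ≤ K)).card : ℝ) =
        (((T P).filter (fun q => lev P q ≤ K)).card : ℝ) * p * (K + 1) := by
          rw [mul_assoc, h7, mul_one]
    _ ≤ 3 * n * (K + 1) := mul_le_mul_of_nonneg_right h8 hK.le

end Pool.Agent.H189R2.Iid
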