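import Pool.Agent.H189R2.Iid.Win
import Pool.Agent.H189R2.Iid.Bin

/-! The expected number of pairs of a given level. -/

set_option autoImplicit false

namespace Pool.Agent.H189R2.Iid

open Finset MeasureTheory Filter Pool.Agent.H189R2.Lev
open scoped ENNReal

variable {μ : Measure (ℝ × ℝ)}

theorem desc_ge {n : ℕ} (hn : 8 ≤ n) : 2 / 5 * (n : ℝ) ^ 4 ≤ (n.descFactorial 4 : ℝ) := by
  have h : (n.descFactorial 4 : ℝ) = n * (n - 1) * (n - 2) * (n - 3) := by
    have h3 : ((n - 3 : ℕ) : ℝ) = n - 3 := by rw [Nat.cast_sub (by omega)]; norm_num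
    have h2 : ((n - 2 : ℕ) : ℝ) = n - 2 := by rw [Nat.cast_sub (by omega)]; norm_num
    have h1 : ((n - 1 : ℕ) : ℝ) = n - 1 := by rw [Nat.cast_sub (by omega)]; norm_num
    simp only [Nat.descFactorial_succ, Nat.descFactorial_zero, Nat.cast_mul, h3, h2, h1,
      Nat.sub_zero, mul_one]
    ring
  rw [h]
  have hn8 : (8 : ℝ) ≤ n := by exact_mod_cast hn
  have e1 : 7 / 8 * (n : ℝ) ≤ n - 1 := by linarith
  have e2 : 6 / 8 * (n : ℝ) ≤ n - 2 := by linarith
  have e3 : 5 / 8 * (n : ℝ) ≤ n - 3 := by linarith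
  have h12 : 7 / 8 * (n : ℝ) * (6 / 8 * n) ≤ (n - 1) * (n - 2) :=
    mul_le_mul e1 e2 (by positivity) (by linarith)
  have h123 : 7 / 8 * (n : ℝ) * (6 / 8 * n) * (5 / 8 * n) ≤ (n - 1) * (n - 2) * (n - 3) :=
    mul_le_mul h12 e3 (by positivity) (mul_nonneg (by linarith) (by linarith))
  have := mul_le_mul_of_nonneg_left h123 (by positivity : (0 : ℝ) ≤ n)
  have hn4 : 0 ≤ (n : ℝ) ^ 4 := by positivity
  nlinarith

theorem xx_le [IsProbabilityMeasure μ] (hμ : LN μ) {α δ : ℝ} (hδ0 : 0 < δ) (hδ : δ ≤ α)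
    (hα1 : α ≤ 1) : (xx μ (WA μ α δ)).toReal ≤ 1500000 * (α * δ ^ 2) := by
  have hα : 0 < α := lt_of_lt_of_le hδ0 hδ
  set x := (xx μ (WA μ α δ)).toReal with hx
  have hx0 : 0 ≤ x := ENNReal.toReal_nonneg
  have hx1 : x ≤ 1 := ENNReal.toReal_le_of_le_ofReal zero_le_one (by simpa using xx_le_one _)
  set y := α / δ ^ 2 with hy
  have hδ2 : 0 < δ ^ 2 := by positivity
  have hy0 : 0 < y := by positivity
  have hyδ : y * δ ^ 2 = α := by rw [hy]; field_simp
  have hy1 : 1 ≤ y := by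
    rw [hy, le_div_iff₀ hδ2]
    nlinarith
  set n := ⌊y⌋₊ with hn
  have hn1 : 1 ≤ n := (Nat.one_le_floor_iff _).mpr hy1
  have hny : (n : ℝ) ≤ y := Nat.floor_le hy0.le
  have hny2 : y < n + 1 := Nat.lt_floor_add_one y
  have hn0 : (1 : ℝ) ≤ n := by exact_mod_cast hn1
  have hy2 : y ≤ 2 * n := by linarith
  by_cases h8 : 8 ≤ n
  · set s := Real.sqrt (n * α) with hs
    have hs0 : 0 ≤ s := Real.sqrt_nonneg _
    have hs2 : s ^ 2 = n * α := Real.sq_sqrt (by positivity)
    have hns : n * δ ≤ s := by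
      rw [hs]
      apply Real.le_sqrt_of_sq_le
      have : (n : ℝ) * δ ^ 2 ≤ α := by rw [← hyδ]; gcongr
      nlinarith
    have hcp := cross_prob hμ (n := n) hα hα1 hδ0.le hδ hs0 hs2 hns
    have hs12 : 1 / 2 ≤ s ^ 2 := by
      rw [hs2]
      have h1 : y * α ≤ 2 * n * α := by gcongr
      have h2 : 1 ≤ y * α := by
        rw [hy, div_mul_eq_mul_div, le_div_iff₀ hδ2]
        nlinarith
      linarith
    have hs7 : 7 / 10 ≤ s := by
      by_contra hcon
      push Not at hcon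
      nlinarith
    have e1 : (14 * s + 17) ^ 2 ≤ 1521 * s ^ 2 := by
      have : 14 * s + 17 ≤ 39 * s := by linarith
      calc (14 * s + 17) ^ 2 ≤ (39 * s) ^ 2 := pow_le_pow_left₀ (by positivity) this 2
        _ = _ := by ring
    have e2 : s ^ 2 + 7 * s + 9 ≤ 29 * s ^ 2 := by nlinarith
    have e3 : (14 * s + 17) ^ 2 * (6 * n * (s ^ 2 + 7 * s + 9)) ≤
        1521 * s ^ 2 * (6 * n * (29 * s ^ 2)) := by gcongr
    have e4 := desc_ge h8
    have e5 : 2 / 5 * (n : ℝ) ^ 4 * (8 / 9 * x) ≤ 1521 * (n * α) * (6 * n * (29 * (n * α))) := by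
      rw [hs2] at e3
      have := mul_le_mul_of_nonneg_right e4 (by positivity : 0 ≤ 8 / 9 * x)
      exact this.trans (hcp.trans (by rw [← hs2] at e3 ⊢; exact e3))
    have hn3 : (0 : ℝ) < n ^ 3 := by positivity
    have e6 : (n : ℝ) * x ≤ 744340 * α ^ 2 := by
      have : (n : ℝ) ^ 3 * (2 / 5 * (8 / 9) * (n * x)) ≤ n ^ 3 * (1521 * 6 * 29 * α ^ 2) := by
        calc (n : ℝ) ^ 3 * (2 / 5 * (8 / 9) * (n * x)) = 2 / 5 * (n : ℝ) ^ 4 * (8 / 9 * x) := by ring
          _ ≤ _ := e5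
          _ = _ := by ring
      have := le_of_mul_le_mul_left this hn3
      nlinarith [sq_nonneg α]
    have e7 : y * x ≤ 1488680 * α ^ 2 := by
      have := mul_le_mul_of_nonneg_right hy2 hx0
      linarith
    have e8 : α * x ≤ α * (1488680 * (α * δ ^ 2)) := by
      calc α * x = (y * x) * δ ^ 2 := by rw [← hyδ]; ring
        _ ≤ (1488680 * α ^ 2) * δ ^ 2 := mul_le_mul_of_nonneg_right e7 hδ2.le
        _ = _ := by ring
    have e9 := le_of_mul_le_mul_left e8 hα
    have : 0 ≤ α * δ ^ 2 := by positivity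
    linarith
  · have hn7 : (n : ℝ) ≤ 7 := by
      have : n ≤ 7 := by omega
      exact_mod_cast this
    have hy8 : y < 8 := by linarith
    have h1 : α < 8 * δ ^ 2 := by rw [← hyδ]; nlinarith
    have h2 : 1 / 8 < α := by
      have : δ ^ 2 ≤ α ^ 2 := pow_le_pow_left₀ hδ0.le hδ 2
      nlinarith
    have h3 : 1 / 512 ≤ α * δ ^ 2 := by nlinarith
    linarith

theorem ee_le [IsProbabilityMeasure μ] (hμ : LN μ) {α δ : ℝ} (hδ0 : 0 < δ) (hδ : δ ≤ α)
    (hα1 : α ≤ 1) : (ee μ (WA μ α δ)).toReal ^ 3 ≤ 650 ^ 3 * (α * δ ^ 2) := by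
  have h1 := ee_cube hμ (meas_WA (μ := μ) α δ)
  have h2 := xx_le hμ hδ0 hδ hα1
  have : 0 ≤ α * δ ^ 2 := mul_nonneg (by linarith) (sq_nonneg _)
  nlinarith

theorem FF_nonneg (p q : ℝ × ℝ) : 0 ≤ FF μ p q := ENNReal.toReal_nonneg

theorem FF_le_one [IsProbabilityMeasure μ] (p q : ℝ × ℝ) : FF μ p q ≤ 1 :=
  ENNReal.toReal_le_of_le_ofReal zero_le_one (by simpa using prob_le_one)

/-- probability that a pair has exactly `k` points below -/
theorem lev_prob [IsProbabilityMeasure μ] {n : ℕ} {i j : Fin n} (hij : i ≠ j) (k : ℕ) :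
    Measure.pi (fun _ : Fin n => μ) {P | P ∈ Ev2 Set.univ i j ∧ lev P (i, j) = k} =
      (n - 2).choose k * ∫⁻ P in Ev2 Set.univ i j, ENNReal.ofReal
        (FF μ (P i) (P j) ^ k * (1 - FF μ (P i) (P j)) ^ (n - 2 - k))
        ∂Measure.pi (fun _ : Fin n => μ) := by
  classical
  set U : Finset (Fin n) := (univ.erase i).erase j with hU
  have hUl : ∀ l ∈ U, l ≠ i ∧ l ≠ j := by
    intro l hl
    rw [hU, mem_erase, mem_erase] at hl
    exact ⟨hl.2.1, hl.1⟩
  have hUc : U.card = n - 2 := by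
    rw [hU, card_erase_of_mem (by rw [mem_erase]; exact ⟨hij.symm, mem_univ _⟩),
      card_erase_of_mem (mem_univ _), card_univ, Fintype.card_fin]
    rfl
  have h := (lowRS i j hUl).binomial μ (B := Ev2 Set.univ i j)
    (meas_Ev2 MeasurableSet.univ i j) (fun l hl P y =>
      Ev2_update (hUl l hl).1.symm (hUl l hl).2.symm P y) k
  rw [hUc] at h
  have e : {P | P ∈ Ev2 Set.univ i j ∧ lev P (i, j) = k} =
      {P | P ∈ Ev2 Set.univ i j ∧ (lowRS i j hUl).cnt P = k} := by
    ext P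
    refine and_congr_right (fun hP => ?_)
    have : lev P (i, j) = (lowRS i j hUl).cnt P := by
      unfold lev RandSet.cnt
      congr 1
      ext l
      simp only [mem_filter, mem_univ, true_and]
      constructor
      · intro hl
        refine ⟨?_, hl⟩
        rw [hU, mem_erase, mem_erase]
        refine ⟨?_, ?_, mem_univ _⟩
        · intro h; rw [h] at hl; exact snd_notMem_low hP.1 hl
        · intro h; rw [h] at hl; exact fst_notMem_low _ _ hl
      · intro hl; exact hl.2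
    rw [this]
  rw [e, h]
  rfl

open Classical in
/-- expected number of pairs of level `k` -/
theorem E_lev [IsProbabilityMeasure μ] {n : ℕ} (k : ℕ) :
    ∫⁻ P, (((T P).filter (fun q => lev P q = k)).card : ℝ≥0∞) ∂Measure.pi (fun _ : Fin n => μ) =
      ∑ q ∈ (univ : Finset (Fin n)).offDiag, Measure.pi (fun _ : Fin n => μ)
        {P | P ∈ Ev2 Set.univ q.1 q.2 ∧ lev P (q.1, q.2) = k} := by
  set π := Measure.pi (fun _ : Fin n => μ) with hπ
  have hm : ∀ q : Fin n × Fin n, MeasurableSet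
      {P : Fin n → ℝ × ℝ | P ∈ Ev2 Set.univ q.1 q.2 ∧ lev P (q.1, q.2) = k} := fun q =>
    (meas_Ev2 MeasurableSet.univ q.1 q.2).inter ((measurable_lev q) (measurableSet_singleton k))
  have h1 : ∀ P : Fin n → ℝ × ℝ, (T P).filter (fun q => lev P q = k) =
      univ.filter (fun q : Fin n × Fin n =>
        P ∈ {P | P ∈ Ev2 Set.univ q.1 q.2 ∧ lev P (q.1, q.2) = k}) := by
    intro P
    ext q
    rw [mem_filter, mem_T, mem_filter]
    constructor
    · rintro ⟨h1, h2⟩; exact ⟨mem_univ _, ⟨h1, trivial⟩, h2⟩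
    · rintro ⟨_, ⟨h1, _⟩, h2⟩; exact ⟨h1, h2⟩
  simp_rw [h1]
  rw [lintegral_card π (fun q : Fin n × Fin n =>
    {P | P ∈ Ev2 Set.univ q.1 q.2 ∧ lev P (q.1, q.2) = k}) hm]
  symm
  apply sum_subset (subset_univ _)
  intro q _ hq
  rw [mem_offDiag] at hq
  simp only [mem_univ, true_and, not_not] at hq
  have : {P : Fin n → ℝ × ℝ | P ∈ Ev2 Set.univ q.1 q.2 ∧ lev P (q.1, q.2) = k} = ∅ := by
    ext P
    constructor
    · rintro ⟨h1, _⟩
      have := h1.1
      rw [hq] at this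
      exact absurd this (lt_irrefl _)
    · intro h; exact absurd h (Set.notMem_empty _)
  rw [this, measure_empty]

open Classical in
/-- at most `n` pairs have no point below -/
theorem zero_lev [IsProbabilityMeasure μ] (hμ : LN μ) (n : ℕ) :
    ∫⁻ P, (((T P).filter (fun q => lev P q = 0)).card : ℝ≥0∞) ∂Measure.pi (fun _ : Fin n => μ) ≤
      n := by
  calc _ ≤ ∫⁻ P : Fin n → ℝ × ℝ, (n : ℝ≥0∞) ∂Measure.pi (fun _ : Fin n => μ) := by
        apply lintegral_mono_ae
        filter_upwards [ae_GP hμ n] with P hP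
        have h := low_zero hP univ
        have h2 : (T P).filter (fun q => lev P q = 0) ⊆ (T P).filter (fun q =>
            q.1 ∈ univ ∧ q.2 ∈ univ ∧ ∀ l ∈ univ, P l ∉ low (P q.1) (P q.2)) := by
          intro q hq
          rw [mem_filter] at hq ⊢
          refine ⟨hq.1, mem_univ _, mem_univ _, fun l _ hl => ?_⟩
          have h3 := hq.2
          unfold lev at h3
          rw [card_eq_zero, filter_eq_empty_iff] at h3
          exact h3 (mem_univ l) hl
        have h4 := (card_le_card h2).trans h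
        rw [card_univ, Fintype.card_fin] at h4
        exact_mod_cast h4
    _ = n := by rw [lintegral_const, measure_univ, mul_one]

/-- pairs of small mass are rare -/
theorem ee_zero [IsProbabilityMeasure μ] (hμ : LN μ) {t : ℝ} (ht : 0 < t) :
    (ee μ (WA μ 0 t)).toReal ≤ 4 * t := by
  classical
  set e := (ee μ (WA μ 0 t)).toReal with he
  have he0 : 0 ≤ e := ENNReal.toReal_nonneg
  have he1 : e ≤ 1 := ENNReal.toReal_le_of_le_ofReal zero_le_one (by simpa using ee_le_one _)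
  by_cases ht1 : 1 ≤ 4 * t
  · linarith
  push Not at ht1
  set M := ⌊1 / (2 * t)⌋₊ with hM
  have hM1 : (M : ℝ) ≤ 1 / (2 * t) := Nat.floor_le (by positivity)
  have hM2 : 1 / (2 * t) < M + 1 := Nat.lt_floor_add_one _
  rw [le_div_iff₀ (by positivity)] at hM1
  rw [div_lt_iff₀ (by positivity)] at hM2
  have hpow : 1 / 2 ≤ (1 - t) ^ M := by
    have := one_add_mul_le_pow (a := -t) (by linarith) M
    have h2 : 1 + (M : ℝ) * -t ≤ (1 - t) ^ M := by
      rw [sub_eq_add_neg]; exact this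
    nlinarith
  set n := M + 2 with hn
  have hz := zero_lev hμ n
  rw [E_lev 0] at hz
  have hterm : ∀ q ∈ (univ : Finset (Fin n)).offDiag, ENNReal.ofReal (1 / 2 * e) ≤
      Measure.pi (fun _ : Fin n => μ)
        {P | P ∈ Ev2 Set.univ q.1 q.2 ∧ lev P (q.1, q.2) = 0} := by
    intro q hq
    rw [mem_offDiag] at hq
    rw [lev_prob hq.2.2 0]
    have hn2 : n - 2 = M := by omega
    rw [hn2, Nat.choose_zero_right, Nat.cast_one, one_mul]
    calc ENNReal.ofReal (1 / 2 * e) = ENNReal.ofReal (1 / 2) * ee μ (WA μ 0 t) := by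
          rw [ENNReal.ofReal_mul (by norm_num), he, ENNReal.ofReal_toReal
            (ne_top_of_le_ne_top ENNReal.one_ne_top (ee_le_one _))]
      _ = ENNReal.ofReal (1 / 2) * Measure.pi (fun _ : Fin n => μ) (Ev2 (WA μ 0 t) q.1 q.2) := by
          rw [pi_Ev2 (meas_WA 0 t) hq.2.2]
      _ = ∫⁻ P in Ev2 (WA μ 0 t) q.1 q.2, ENNReal.ofReal (1 / 2)
            ∂Measure.pi (fun _ : Fin n => μ) := by rw [setLIntegral_const]
      _ ≤ ∫⁻ P in Ev2 (WA μ 0 t) q.1 q.2, ENNReal.ofReal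
        (FF μ (P q.1) (P q.2) ^ 0 * (1 - FF μ (P q.1) (P q.2)) ^ (M - 0))
          ∂Measure.pi (fun _ : Fin n => μ) := by
          apply setLIntegral_mono' (meas_Ev2 (meas_WA 0 t) q.1 q.2)
          intro P hP
          apply ENNReal.ofReal_le_ofReal
          rw [pow_zero, one_mul, Nat.sub_zero]
          refine hpow.trans ?_
          have h1 : FF μ (P q.1) (P q.2) ≤ t := by
            have h2 : |FF μ (P q.1) (P q.2) - 0| ≤ t := hP.2
            rw [sub_zero] at h2
            exact (le_abs_self _).trans h2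
          exact pow_le_pow_left₀ (by linarith) (by linarith) M
      _ ≤ ∫⁻ P in Ev2 Set.univ q.1 q.2, ENNReal.ofReal
        (FF μ (P q.1) (P q.2) ^ 0 * (1 - FF μ (P q.1) (P q.2)) ^ (M - 0))
          ∂Measure.pi (fun _ : Fin n => μ) :=
          lintegral_mono_set (fun P hP => ⟨hP.1, trivial⟩)
  have hsum := (sum_le_sum hterm).trans hz
  rw [sum_const, offDiag_card, card_univ, Fintype.card_fin, nsmul_eq_mul] at hsum
  have h1 := ENNReal.toReal_mono (ENNReal.natCast_ne_top n) hsum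
  rw [ENNReal.toReal_mul, ENNReal.toReal_natCast, ENNReal.toReal_natCast,
    ENNReal.toReal_ofReal (by positivity), Nat.cast_sub (Nat.le_mul_self n)] at h1
  push_cast at h1
  have hn0 : (0 : ℝ) < n := by positivity
  have h2 : (n : ℝ) * (((n : ℝ) - 1) * (1 / 2 * e)) ≤ n * 1 := by linarith
  have h3 := le_of_mul_le_mul_left h2 hn0
  have hnM : (n : ℝ) - 1 = M + 1 := by rw [hn]; push_cast; ring
  rw [hnM] at h3
  nlinarith

end Pool.Agent.H189R2.Iid
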