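import Pool.Agent.H189R2.Iid.Chain

/-! Crossings of the edges of two levels; straight-line graphs without crossings. -/

set_option autoImplicit false

namespace Pool.Agent.H189R2.Iid

open Finset Pool.Agent.H189R2.Lev

/-- dual abscissa of the line through `p` and `q` (minus its slope) -/
noncomputable def X2 (p q : ℝ × ℝ) : ℝ := (q.2 - p.2) / (p.1 - q.1)

/-- dual height of the line through `p` and `q` (its intercept) -/
noncomputable def Y2 (p q : ℝ × ℝ) : ℝ := p.1 * X2 p q + p.2

/-- abscissa of the common point of the lines `pq` and `rs` -/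
noncomputable def M4 (p q r s : ℝ × ℝ) : ℝ := (Y2 r s - Y2 p q) / (X2 r s - X2 p q)

/-- the segments `pq` and `rs` cross (`q` left of `p`, `s` left of `r`) -/
def CrossP (p q r s : ℝ × ℝ) : Prop :=
  q.1 < M4 p q r s ∧ M4 p q r s < p.1 ∧ s.1 < M4 p q r s ∧ M4 p q r s < r.1

/-- the points below the line `pq` -/
def low (p q : ℝ × ℝ) : Set (ℝ × ℝ) := {r | r.1 * X2 p q + r.2 < Y2 p q}

/-- general position -/
def GP {n : ℕ} (P : Fin n → ℝ × ℝ) : Prop :=
  (∀ i j, (P i).1 = (P j).1 → i = j) ∧
  ∀ i j r s, (P j).1 < (P i).1 → (P s).1 < (P r).1 → X2 (P i) (P j) = X2 (P r) (P s) →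
    i = r ∧ j = s

/-- the line of the pair `q` as a function of the abscissa -/
noncomputable def E {n : ℕ} (P : Fin n → ℝ × ℝ) (q : Fin n × Fin n) (z : ℝ) : ℝ :=
  Y2 (P q.1) (P q.2) - z * X2 (P q.1) (P q.2)

theorem E_fst {n : ℕ} (P : Fin n → ℝ × ℝ) (q : Fin n × Fin n) : E P q (P q.1).1 = (P q.1).2 := by
  unfold E Y2; ring

theorem E_snd {n : ℕ} {P : Fin n → ℝ × ℝ} {q : Fin n × Fin n} (h : (P q.2).1 < (P q.1).1) :
    E P q (P q.2).1 = (P q.2).2 := by
  have h' : (P q.1).1 - (P q.2).1 ≠ 0 := by linarith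
  unfold E Y2 X2
  field_simp
  ring

theorem E_diff {n : ℕ} (P : Fin n → ℝ × ℝ) (e f : Fin n × Fin n) (y z : ℝ) :
    E P e y - E P f y = (E P e z - E P f z) +
      (X2 (P f.1) (P f.2) - X2 (P e.1) (P e.2)) * (y - z) := by
  unfold E; ring

theorem E_line {n : ℕ} {P : Fin n → ℝ × ℝ} (hP : GP P) {q : Fin n × Fin n}
    (hq : (P q.2).1 < (P q.1).1) {v : Fin n} (hv : E P q (P v).1 = (P v).2) :
    v = q.1 ∨ v = q.2 := by
  by_contra hcon
  push Not at hcon
  obtain ⟨h1, h2⟩ := hcon
  have e1 := E_fst P q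
  rcases lt_trichotomy (P v).1 (P q.1).1 with h | h | h
  · have h3 : X2 (P q.1) (P v) = X2 (P q.1) (P q.2) := by
      have h' : (P q.1).1 - (P v).1 ≠ 0 := by linarith
      conv_lhs => unfold X2
      rw [div_eq_iff h']
      unfold E at e1 hv
      linarith
    exact h2 (hP.2 _ _ _ _ h hq h3).2
  · exact h1 (hP.1 _ _ h)
  · have h3 : X2 (P v) (P q.1) = X2 (P q.1) (P q.2) := by
      have h' : (P v).1 - (P q.1).1 ≠ 0 := by linarith
      conv_lhs => unfold X2
      rw [div_eq_iff h']
      unfold E at e1 hv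
      linarith
    exact h1 (hP.2 _ _ _ _ h hq h3).1

theorem E_cross {n : ℕ} {P : Fin n → ℝ × ℝ} (hP : GP P) {e f : Fin n × Fin n}
    (he : (P e.2).1 < (P e.1).1) (hf : (P f.2).1 < (P f.1).1) (hne : e ≠ f) {z : ℝ}
    (hz : E P e z = E P f z) (h1 : (P e.2).1 < z) (h2 : z < (P e.1).1) (h3 : (P f.2).1 < z)
    (h4 : z < (P f.1).1) : CrossP (P e.1) (P e.2) (P f.1) (P f.2) := by
  have hX : X2 (P f.1) (P f.2) - X2 (P e.1) (P e.2) ≠ 0 := by
    intro h
    have := hP.2 _ _ _ _ hf he (sub_eq_zero.mp h)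
    exact hne (Prod.ext this.1.symm this.2.symm)
  have hM : M4 (P e.1) (P e.2) (P f.1) (P f.2) = z := by
    unfold M4
    rw [div_eq_iff hX]
    unfold E at hz
    linarith
  unfold CrossP
  rw [hM]
  exact ⟨h1, h2, h3, h4⟩

/-- affine functions without zero keep their sign -/
theorem affine_sign {g : ℝ → ℝ} {k : ℝ} (hg : ∀ y z, g y = g z + k * (y - z)) {lo y : ℝ}
    (hy : 0 < g y) (hly : lo < y) (h : ∀ z, lo < z → z < y → g z ≠ 0) :
    ∀ z, lo ≤ z → z ≤ y → (0 ≤ g z ∧ (lo < z → 0 < g z)) := by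
  have key : ∀ z, lo < z → z ≤ y → 0 < g z := by
    intro z hz1 hz2
    by_contra hcon
    push Not at hcon
    rcases hz2.lt_or_eq with hz3 | hz3
    · -- zero between z and y
      have e := hg y z
      have hk : 0 < k := by
        by_contra hk
        push Not at hk
        nlinarith
      have hne := h z hz1 hz3
      have hlt : g z < 0 := lt_of_le_of_ne hcon hne
      set z' := z - g z / k with hz'
      have h0 : g z' = 0 := by
        rw [hg z' z, hz']
        field_simp
        ring
      have h1 : z < z' := by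
        rw [hz']
        have := div_neg_of_neg_of_pos hlt hk
        linarith
      have h2 : z' < y := by
        have : g y = k * (y - z') := by rw [hg y z', h0]; ring
        rw [this] at hy
        by_contra hcon2
        push Not at hcon2
        nlinarith
      exact h z' (by linarith) h2 h0
    · rw [hz3] at hcon; linarith
  intro z hz1 hz2
  refine ⟨?_, fun hz => key z hz hz2⟩
  rcases hz1.lt_or_eq with h1 | h1
  · exact (key z h1 hz2).le
  · subst h1
    by_contra hcon
    push Not at hcon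
    -- negative at lo, positive just right
    have e := hg y lo
    have hk : 0 < k := by
      by_contra hk
      push Not at hk
      nlinarith
    have hd : 0 < -g lo / k := div_pos (by linarith) hk
    set d := min (y - lo) (-g lo / k / 2) with hdd
    have hd0 : 0 < d := lt_min (by linarith) (by linarith)
    have h2 := key (lo + d) (by linarith) (by have := min_le_left (y - lo) (-g lo / k / 2); linarith)
    rw [hg (lo + d) lo] at h2
    have h3 : d ≤ -g lo / k / 2 := min_le_right _ _
    have h4 : k * d ≤ k * (-g lo / k / 2) := mul_le_mul_of_nonneg_left h3 hk.le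
    have h5 : k * (-g lo / k / 2) = -g lo / 2 := by field_simp
    have h6 : lo + d - lo = d := by ring
    rw [h6] at h2
    linarith

/-- a straight-line graph without crossings has at most `3 m` edges -/
theorem noncrossing {m : ℕ} {P : Fin m → ℝ × ℝ} (hP : GP P) (G : Finset (Fin m × Fin m))
    (hG : ∀ e ∈ G, (P e.2).1 < (P e.1).1)
    (hnc : ∀ e ∈ G, ∀ f ∈ G, e ≠ f → ¬ CrossP (P e.1) (P e.2) (P f.1) (P f.2)) :
    G.card ≤ 3 * m := by
  classical
  rcases G.eq_empty_or_nonempty with hGe | hGe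
  · rw [hGe]; simp
  have : Nonempty (Fin m) := ⟨hGe.choose.1⟩
  set X : Fin m × Fin m → ℝ := fun e => X2 (P e.1) (P e.2) with hX
  have hXinj : ∀ e ∈ G, ∀ f ∈ G, X e = X f → e = f := by
    intro e he f hf h
    have := hP.2 _ _ _ _ (hG e he) (hG f hf) h
    exact Prod.ext this.1 this.2
  -- edges are listed by left endpoint `e.2`; higher = smaller `X`
  set Top := G.filter (fun f => ∀ e ∈ G, e.2 = f.2 → X f ≤ X e) with hTop
  set Rest := G.filter (fun f => ¬ ∀ e ∈ G, e.2 = f.2 → X f ≤ X e) with hRest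
  have hcard : Top.card + Rest.card = G.card := Finset.card_filter_add_card_filter_not _
  have hTopc : Top.card ≤ m := by
    have : Top.card ≤ (univ : Finset (Fin m)).card := by
      apply card_le_card_of_injOn (fun e => e.2) (fun _ _ => by simp)
      intro e he f hf h
      rw [mem_coe, hTop, mem_filter] at he hf
      exact hXinj e he.1 f hf.1 (le_antisymm (he.2 f hf.1 h.symm) (hf.2 e he.1 h))
    simpa using this
  -- non crossing in terms of `E`
  have hE : ∀ e ∈ G, ∀ f ∈ G, e ≠ f → ∀ z, (P e.2).1 < z → z < (P e.1).1 → (P f.2).1 < z →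
      z < (P f.1).1 → E P e z - E P f z ≠ 0 := by
    intro e he f hf hne z h1 h2 h3 h4 h
    exact hnc e he f hf hne (E_cross hP (hG e he) (hG f hf) hne (by linarith) h1 h2 h3 h4)
  -- the data of an edge that is not topmost
  have hdata : ∀ f ∈ Rest, ∃ e ∈ G, e.2 = f.2 ∧ X e < X f ∧
      (∀ e' ∈ G, e'.2 = f.2 → X e' < X f → X e' ≤ X e) ∧
      ∃ v : Fin m, ((P f.2).1 < (P v).1 ∧ (P v).1 ≤ (P e.1).1 ∧ (P v).1 ≤ (P f.1).1 ∧
        E P f (P v).1 ≤ (P v).2 ∧ (P v).2 ≤ E P e (P v).1) ∧
        ∀ v' : Fin m, (P f.2).1 < (P v').1 → (P v').1 ≤ (P e.1).1 → (P v').1 ≤ (P f.1).1 →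
          E P f (P v').1 ≤ (P v').2 → (P v').2 ≤ E P e (P v').1 → (P v).1 ≤ (P v').1 := by
    intro f hf
    rw [hRest, mem_filter] at hf
    obtain ⟨hfG, hf2⟩ := hf
    push Not at hf2
    obtain ⟨e₀, he₀, he₀2, he₀X⟩ := hf2
    obtain ⟨e, he, hmax⟩ := (G.filter (fun e => e.2 = f.2 ∧ X e < X f)).exists_max_image X
      ⟨e₀, by rw [mem_filter]; exact ⟨he₀, he₀2, he₀X⟩⟩
    rw [mem_filter] at he
    refine ⟨e, he.1, he.2.1, he.2.2, fun e' h1 h2 h3 => hmax e' (by
      rw [mem_filter]; exact ⟨h1, h2, h3⟩), ?_⟩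
    set W := (univ : Finset (Fin m)).filter (fun v => (P f.2).1 < (P v).1 ∧
      (P v).1 ≤ (P e.1).1 ∧ (P v).1 ≤ (P f.1).1 ∧
      E P f (P v).1 ≤ (P v).2 ∧ (P v).2 ≤ E P e (P v).1) with hW
    have hgt : ∀ z, (P f.2).1 ≤ z → E P f z ≤ E P e z := by
      intro z hz
      have h1 := E_snd (hG e he.1)
      have h2 := E_snd (hG f hfG)
      rw [he.2.1] at h1
      have h3 := E_diff P e f z (P f.2).1
      rw [h1, h2] at h3
      have h4 : 0 ≤ (X2 (P f.1) (P f.2) - X2 (P e.1) (P e.2)) * (z - (P f.2).1) :=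
        mul_nonneg (by have := he.2.2; simp only [hX] at this; linarith) (by linarith)
      linarith
    have hWne : W.Nonempty := by
      rcases le_total (P e.1).1 (P f.1).1 with h | h
      · refine ⟨e.1, ?_⟩
        rw [hW, mem_filter]
        have h1 := hG e he.1
        rw [he.2.1] at h1
        refine ⟨mem_univ _, h1, le_rfl, h, ?_, ?_⟩
        · rw [← E_fst P e]; exact hgt _ h1.le
        · rw [E_fst P e]
      · refine ⟨f.1, ?_⟩
        rw [hW, mem_filter]
        have h1 := hG f hfG
        refine ⟨mem_univ _, h1, h, le_rfl, ?_, ?_⟩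
        · rw [E_fst P f]
        · rw [← E_fst P f]; exact hgt _ h1.le
    obtain ⟨v, hv, hmin⟩ := W.exists_min_image (fun v => (P v).1) hWne
    rw [hW, mem_filter] at hv
    refine ⟨v, hv.2, fun v' h1 h2 h3 h4 h5 => hmin v' ?_⟩
    rw [hW, mem_filter]
    exact ⟨mem_univ _, h1, h2, h3, h4, h5⟩
  choose! up hupG hup2 hupX hupmax vx hvx hvmin using hdata
  -- injectivity
  have hinj : ∀ f ∈ Rest, ∀ f₂ ∈ Rest, vx f = vx f₂ → (vx f = f.1 ↔ vx f₂ = f₂.1) → f = f₂ := by
    -- type A
    have hA : ∀ f ∈ Rest, ∀ f₂ ∈ Rest, vx f = vx f₂ → vx f = f.1 → vx f₂ = f₂.1 →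
        X f < X f₂ → False := by
      intro f hf f₂ hf₂ hv h1 h2 hXX
      have hfG : f ∈ G := (mem_filter.mp hf).1
      have hfG₂ : f₂ ∈ G := (mem_filter.mp hf₂).1
      have hq : f.1 = f₂.1 := by rw [← h1, hv, h2]
      obtain ⟨w1, w2, w3, w4, w5⟩ := hvx f hf
      rw [h1] at w2 w5
      set e := up f with he
      have heG := hupG f hf
      have he2 := hup2 f hf
      have heX := hupX f hf
      have hef₂ : e ≠ f₂ := by
        intro h
        rw [← he] at heX
        rw [h] at heX
        linarith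
      -- strict inequality at v
      have hEv : 0 < E P e (P f.1).1 - E P f₂ (P f.1).1 := by
        have e1 := E_fst P f₂
        rw [← hq] at e1
        rw [e1]
        have h3 := E_diff P e f (P f.1).1 (P f.2).1
        have h4 := E_snd (hG e heG)
        have h5 := E_snd (hG f hfG)
        rw [he2] at h4
        rw [h4, h5, E_fst P f, sub_self, zero_add] at h3
        have h6 : 0 < (X2 (P f.1) (P f.2) - X2 (P e.1) (P e.2)) * ((P f.1).1 - (P f.2).1) :=
          mul_pos (by simp only [hX] at heX; linarith) (by linarith [hG f hfG])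
        linarith
      have hq2 := hG f₂ hfG₂
      rw [← hq] at hq2
      have hgf₂ := hG f hfG
      -- sign of D1
      have hD1 : ∀ z, z < (P f.1).1 → E P f z < E P f₂ z := by
        intro z hz
        have h3 := E_diff P f₂ f z (P f.1).1
        have e1 := E_fst P f₂
        rw [← hq] at e1
        rw [e1, E_fst P f, sub_self, zero_add] at h3
        have h6 : 0 < (X2 (P f.1) (P f.2) - X2 (P f₂.1) (P f₂.2)) * (z - (P f.1).1) :=
          mul_pos_of_neg_of_neg (by simp only [hX] at hXX; linarith) (by linarith)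
        linarith
      have heleft : (P e.2).1 = (P f.2).1 := by rw [he2]
      rcases lt_trichotomy (P f₂.2).1 (P f.2).1 with h | h | h
      · -- left end of f₂ is left of p
        have h3 := (affine_sign (g := fun z => E P e z - E P f₂ z) (k :=
          X2 (P f₂.1) (P f₂.2) - X2 (P e.1) (P e.2)) (fun y z => E_diff P e f₂ y z)
          (lo := (P f.2).1) (y := (P f.1).1) hEv hgf₂ (fun z hz1 hz2 =>
            hE e heG f₂ hfG₂ hef₂ z (by rw [heleft]; exact hz1) (by linarith) (by linarith)
              (by rw [← hq]; exact hz2)) (P f.2).1 le_rfl hgf₂.le).1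
        have h4 := hD1 (P f.2).1 hgf₂
        have h5 := E_snd (hG e heG)
        rw [he2] at h5
        rw [E_snd (hG f hfG)] at h4
        linarith
      · have : f₂.2 = f.2 := hP.1 _ _ h
        exact absurd (Prod.ext hq this.symm : f = f₂) (fun h' => by rw [h'] at hXX; exact lt_irrefl _ hXX)
      · have h3 := (affine_sign (g := fun z => E P e z - E P f₂ z) (k :=
          X2 (P f₂.1) (P f₂.2) - X2 (P e.1) (P e.2)) (fun y z => E_diff P e f₂ y z)
          (lo := (P f₂.2).1) (y := (P f.1).1) hEv hq2 (fun z hz1 hz2 =>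
            hE e heG f₂ hfG₂ hef₂ z (by linarith) (by linarith) hz1
              (by rw [← hq]; exact hz2)) (P f₂.2).1 le_rfl hq2.le).1
        have h4 := hD1 (P f₂.2).1 hq2
        have h5 := E_snd (hG f₂ hfG₂)
        rw [h5] at h3 h4
        have := hvmin f hf f₂.2 h (by linarith) (by linarith) h4.le (by linarith)
        rw [h1] at this
        linarith
    -- type B
    have hB : ∀ f ∈ Rest, ∀ f₂ ∈ Rest, vx f = vx f₂ → vx f ≠ f.1 → vx f₂ ≠ f₂.1 →
        E P f (P (vx f)).1 < E P f₂ (P (vx f)).1 → False := by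
      intro f hf f₂ hf₂ hv h1 h2 hlt
      have hfG : f ∈ G := (mem_filter.mp hf).1
      have hfG₂ : f₂ ∈ G := (mem_filter.mp hf₂).1
      obtain ⟨w1, w2, w3, w4, w5⟩ := hvx f hf
      obtain ⟨y1, y2, y3, y4, y5⟩ := hvx f₂ hf₂
      rw [← hv] at y1 y2 y3 y4 y5 h2
      set v := vx f with hvdef
      set e := up f with he
      have heG := hupG f hf
      have he2 := hup2 f hf
      have heX := hupX f hf
      have w3' : (P v).1 < (P f.1).1 := lt_of_le_of_ne w3 (fun h => h1 (hP.1 _ _ h))
      have y3' : (P v).1 < (P f₂.1).1 := lt_of_le_of_ne y3 (fun h => h2 (hP.1 _ _ h))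
      have y4' : E P f₂ (P v).1 < (P v).2 := by
        apply lt_of_le_of_ne y4
        intro h
        rcases E_line hP (hG f₂ hfG₂) h with h' | h'
        · exact h2 h'
        · rw [h'] at y1; exact lt_irrefl _ y1
      have hD2v : 0 < E P e (P v).1 - E P f₂ (P v).1 := by linarith
      have hef₂ : e ≠ f₂ := by
        intro h; rw [h] at hD2v; linarith
      have hff₂ : f₂ ≠ f := by
        intro h; rw [h] at hlt; exact lt_irrefl _ hlt
      have heleft : (P e.2).1 = (P f.2).1 := by rw [he2]
      rcases lt_trichotomy (P f₂.2).1 (P f.2).1 with h | h | h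
      · have h3 := (affine_sign (g := fun z => E P e z - E P f₂ z) (k :=
          X2 (P f₂.1) (P f₂.2) - X2 (P e.1) (P e.2)) (fun y z => E_diff P e f₂ y z)
          (lo := (P f.2).1) (y := (P v).1) hD2v w1 (fun z hz1 hz2 =>
            hE e heG f₂ hfG₂ hef₂ z (by rw [heleft]; exact hz1) (by linarith) (by linarith)
              (by linarith)) (P f.2).1 le_rfl w1.le).1
        have h4 := (affine_sign (g := fun z => E P f₂ z - E P f z) (k :=
          X2 (P f.1) (P f.2) - X2 (P f₂.1) (P f₂.2)) (fun y z => E_diff P f₂ f y z)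
          (lo := (P f.2).1) (y := (P v).1) (by linarith) w1 (fun z hz1 hz2 =>
            hE f₂ hfG₂ f hfG hff₂ z (by linarith) (by linarith) hz1
              (by linarith)) (P f.2).1 le_rfl w1.le).1
        have h5 := E_snd (hG e heG)
        rw [he2] at h5
        rw [E_snd (hG f hfG)] at h4
        have h6 : E P f₂ (P f.2).1 = (P f.2).2 := by linarith
        rcases E_line hP (hG f₂ hfG₂) h6 with h' | h'
        · rw [← h'] at y3'; linarith
        · rw [← h'] at h; exact lt_irrefl _ h
      · have h' : f₂.2 = f.2 := hP.1 _ _ h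
        have e1 := E_snd (hG e heG)
        have e2 := E_snd (hG f hfG)
        have e3 := E_snd (hG f₂ hfG₂)
        rw [he2] at e1
        rw [h'] at e3
        have d1 := E_diff P f₂ f (P v).1 (P f.2).1
        rw [e2, e3, sub_self, zero_add] at d1
        have d2 := E_diff P e f₂ (P v).1 (P f.2).1
        rw [e1, e3, sub_self, zero_add] at d2
        have hpos : 0 < (P v).1 - (P f.2).1 := by linarith
        have g1 : X f₂ < X f := by
          simp only [hX]
          by_contra hcon
          push Not at hcon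
          have := mul_nonpos_of_nonpos_of_nonneg (sub_nonpos.mpr hcon) hpos.le
          linarith
        have g2 : X e < X f₂ := by
          simp only [hX]
          by_contra hcon
          push Not at hcon
          have := mul_nonpos_of_nonpos_of_nonneg (sub_nonpos.mpr hcon) hpos.le
          linarith
        have := hupmax f hf f₂ hfG₂ h' g1
        rw [← he] at this
        linarith
      · have h3 := (affine_sign (g := fun z => E P e z - E P f₂ z) (k :=
          X2 (P f₂.1) (P f₂.2) - X2 (P e.1) (P e.2)) (fun y z => E_diff P e f₂ y z)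
          (lo := (P f₂.2).1) (y := (P v).1) hD2v y1 (fun z hz1 hz2 =>
            hE e heG f₂ hfG₂ hef₂ z (by linarith) (by linarith) hz1
              (by linarith)) (P f₂.2).1 le_rfl y1.le).1
        have h4 := (affine_sign (g := fun z => E P f₂ z - E P f z) (k :=
          X2 (P f.1) (P f.2) - X2 (P f₂.1) (P f₂.2)) (fun y z => E_diff P f₂ f y z)
          (lo := (P f₂.2).1) (y := (P v).1) (by linarith) y1 (fun z hz1 hz2 =>
            hE f₂ hfG₂ f hfG hff₂ z hz1 (by linarith) (by linarith)
              (by linarith)) (P f₂.2).1 le_rfl y1.le).1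
        rw [E_snd (hG f₂ hfG₂)] at h3 h4
        have := hvmin f hf f₂.2 h (by linarith) (by linarith) (by linarith) (by linarith)
        linarith
    intro f hf f₂ hf₂ hv hiff
    by_contra hne
    have hfG : f ∈ G := (mem_filter.mp hf).1
    have hfG₂ : f₂ ∈ G := (mem_filter.mp hf₂).1
    by_cases h1 : vx f = f.1
    · have h2 := hiff.mp h1
      rcases lt_trichotomy (X f) (X f₂) with h | h | h
      · exact hA f hf f₂ hf₂ hv h1 h2 h
      · exact hne (hXinj f hfG f₂ hfG₂ h)
      · exact hA f₂ hf₂ f hf hv.symm h2 h1 h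
    · have h2 : vx f₂ ≠ f₂.1 := fun h => h1 (hiff.mpr h)
      obtain ⟨w1, w2, w3, w4, w5⟩ := hvx f hf
      obtain ⟨y1, y2, y3, y4, y5⟩ := hvx f₂ hf₂
      rw [← hv] at y1 y2 y3 y4 y5
      have w3' : (P (vx f)).1 < (P f.1).1 := lt_of_le_of_ne w3 (fun h => h1 (hP.1 _ _ h))
      have y3' : (P (vx f)).1 < (P f₂.1).1 := lt_of_le_of_ne y3 (fun h => h2 (by
        rw [← hv]; exact hP.1 _ _ h))
      rcases lt_trichotomy (E P f (P (vx f)).1) (E P f₂ (P (vx f)).1) with h | h | h
      · exact hB f hf f₂ hf₂ hv h1 h2 h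
      · exact hE f hfG f₂ hfG₂ hne _ w1 w3' y1 y3' (by linarith)
      · exact hB f₂ hf₂ f hf hv.symm h2 h1 (by rw [← hv]; exact h)
  have hRestc : Rest.card ≤ 2 * m := by
    have : Rest.card ≤ (univ : Finset (Fin m × Bool)).card := by
      apply card_le_card_of_injOn (fun f => (vx f, decide (vx f = f.1))) (fun _ _ => by simp)
      intro f hf f₂ hf₂ h
      simp only [Prod.mk.injEq, decide_eq_decide] at h
      exact hinj f hf f₂ hf₂ h.1 h.2
    simpa [mul_comm] using this
  omega

open Classical in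
/-- edges are at most `3 m` plus the number of crossings -/
theorem edges_le {m : ℕ} {P : Fin m → ℝ × ℝ} (hP : GP P) (G : Finset (Fin m × Fin m))
    (hG : ∀ e ∈ G, (P e.2).1 < (P e.1).1) :
    G.card ≤ 3 * m + ((G ×ˢ G).filter (fun q => q.1 ≠ q.2 ∧
      CrossP (P q.1.1) (P q.1.2) (P q.2.1) (P q.2.2))).card := by
  -- a maximal subset without crossings
  set F : Finset (Finset (Fin m × Fin m)) := G.powerset.filter (fun H => ∀ e ∈ H, ∀ f ∈ H, e ≠ f →
    ¬ CrossP (P e.1) (P e.2) (P f.1) (P f.2)) with hF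
  obtain ⟨H, hH, hmax⟩ := F.exists_max_image card ⟨∅, by simp [hF]⟩
  rw [hF, mem_filter, mem_powerset] at hH
  obtain ⟨hHG, hHnc⟩ := hH
  have h1 := noncrossing hP H (fun e he => hG e (hHG he)) hHnc
  have hex : ∀ f ∈ G \ H, ∃ q : (Fin m × Fin m) × (Fin m × Fin m), q ∈ (G ×ˢ G).filter (fun q =>
      q.1 ≠ q.2 ∧ CrossP (P q.1.1) (P q.1.2) (P q.2.1) (P q.2.2)) ∧
      ((q.1 = f ∧ q.2 ∈ H) ∨ (q.2 = f ∧ q.1 ∈ H)) := by
    intro f hf
    rw [Finset.mem_sdiff] at hf
    by_contra hcon
    push Not at hcon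
    have hins : insert f H ∈ F := by
      rw [hF, mem_filter, mem_powerset]
      refine ⟨fun e he => ?_, ?_⟩
      · rcases mem_insert.mp he with rfl | he
        · exact hf.1
        · exact hHG he
      · intro e he e' he' hne hcr
        rcases mem_insert.mp he with h | h <;> rcases mem_insert.mp he' with h' | h'
        · exact hne (h.trans h'.symm)
        · exact (hcon (e, e') (by
            rw [mem_filter, mem_product]
            exact ⟨⟨by rw [h]; exact hf.1, hHG h'⟩, hne, hcr⟩)).1 h h'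
        · exact (hcon (e, e') (by
            rw [mem_filter, mem_product]
            exact ⟨⟨hHG h, by rw [h']; exact hf.1⟩, hne, hcr⟩)).2 h' h
        · exact hHnc e h e' h' hne hcr
    have := hmax _ hins
    rw [card_insert_of_notMem hf.2] at this
    omega
  choose! g hg1 hg2 using hex
  have h2 : (G \ H).card ≤ ((G ×ˢ G).filter (fun q => q.1 ≠ q.2 ∧
      CrossP (P q.1.1) (P q.1.2) (P q.2.1) (P q.2.2))).card := by
    apply card_le_card_of_injOn g hg1
    intro f hf f' hf' heq
    have a1 := hg2 f hf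
    have a2 := hg2 f' hf'
    rw [heq] at a1
    have b1 := (Finset.mem_sdiff.mp hf).2
    have b2 := (Finset.mem_sdiff.mp hf').2
    rcases a1 with ⟨c1, c2⟩ | ⟨c1, c2⟩ <;> rcases a2 with ⟨d1, d2⟩ | ⟨d1, d2⟩
    · exact c1.symm.trans d1
    · rw [d1] at c2; exact absurd c2 b2
    · rw [d1] at c2; exact absurd c2 b2
    · exact c1.symm.trans d1
  have h3 := card_sdiff_add_card_eq_card hHG
  omega

end Pool.Agent.H189R2.Iid
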