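import Pool.Agent.H189R2.Iid.Main
import Pool.Agent.H189R2.Iid.BinLow
import Pool.Agent.H189R2.Sub.Pert

/-! A law for random lines from an arrangement: a random line of the arrangement, slightly
perturbed. -/

set_option autoImplicit false

namespace Pool.Agent.H189R2.Iid

open Finset MeasureTheory Filter Pool.Agent.H189R2.Lev
open scoped ENNReal Topology

/-- no third point on the line of an oriented pair -/
def NL {m : ℕ} (Q : Fin m → ℝ × ℝ) : Prop :=
  ∀ a b l, (Q b).1 < (Q a).1 → l ≠ a → l ≠ b →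
    (Q l).1 * X2 (Q a) (Q b) + (Q l).2 ≠ Y2 (Q a) (Q b)

/-- a radius below which perturbations keep the oriented pairs and their sides -/
theorem exists_eps {m : ℕ} (Q : Fin m → ℝ × ℝ) (hinj : Function.Injective Q) (hQ : NL Q) :
    ∃ ε > 0, (∀ a b, a ≠ b → Disjoint (Metric.ball (Q a) ε) (Metric.ball (Q b) ε)) ∧
      ∀ P : Fin m → ℝ × ℝ, (∀ l, P l ∈ Metric.ball (Q l) ε) → ∀ a b, (Q b).1 < (Q a).1 →
        (P b).1 < (P a).1 ∧ ∀ l, l ≠ a → l ≠ b →
          (P l ∈ low (P a) (P b) ↔ Q l ∈ low (Q a) (Q b)) := by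
  classical
  -- separation
  have hsep : ∃ δ > 0, ∀ a b, a ≠ b → Disjoint (Metric.ball (Q a) δ) (Metric.ball (Q b) δ) := by
    have h1 : ∀ᶠ δ : ℝ in 𝓝[>] 0, ∀ q ∈ (univ : Finset (Fin m × Fin m)), q.1 ≠ q.2 →
        Disjoint (Metric.ball (Q q.1) δ) (Metric.ball (Q q.2) δ) := by
      rw [Filter.eventually_all_finset]
      rintro ⟨a, b⟩ _
      by_cases hab : a = b
      · exact Eventually.of_forall (fun _ h => absurd hab h)
      have hd : 0 < dist (Q a) (Q b) := dist_pos.mpr (fun h => hab (hinj h))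
      have h2 : ∀ᶠ δ : ℝ in 𝓝[>] 0, δ < dist (Q a) (Q b) / 2 :=
        (eventually_lt_nhds (by linarith)).filter_mono nhdsWithin_le_nhds
      filter_upwards [h2] with δ hδ _
      apply Metric.ball_disjoint_ball
      linarith
    have h3 := h1.and (self_mem_nhdsWithin)
    obtain ⟨δ, hδ1, hδ2⟩ := h3.exists
    exact ⟨δ, hδ2, fun a b hab => hδ1 (a, b) (mem_univ _) hab⟩
  obtain ⟨δ, hδ0, hδ⟩ := hsep
  have hc : ∀ i : Fin m, Continuous (fun P : Fin m → ℝ × ℝ => P i) := fun i => continuous_apply i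
  have hev : ∀ᶠ P in 𝓝 Q, ∀ q ∈ (univ : Finset (Fin m × Fin m × Fin m)),
      (Q q.2.1).1 < (Q q.1).1 → ((P q.2.1).1 < (P q.1).1 ∧ (q.2.2 ≠ q.1 → q.2.2 ≠ q.2.1 →
        (P q.2.2 ∈ low (P q.1) (P q.2.1) ↔ Q q.2.2 ∈ low (Q q.1) (Q q.2.1)))) := by
    rw [Filter.eventually_all_finset]
    rintro ⟨a, b, l⟩ _
    simp only
    by_cases hab : (Q b).1 < (Q a).1
    swap
    · exact Eventually.of_forall (fun _ h => absurd h hab)
    have e1 : ∀ᶠ P in 𝓝 Q, (P b).1 < (P a).1 :=
      ((continuous_fst.comp (hc b)).tendsto Q).eventually_lt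
        ((continuous_fst.comp (hc a)).tendsto Q) hab
    have hX : ContinuousAt (fun P : Fin m → ℝ × ℝ => X2 (P a) (P b)) Q := by
      unfold X2
      apply ContinuousAt.div
      · exact ((continuous_snd.comp (hc b)).sub (continuous_snd.comp (hc a))).continuousAt
      · exact ((continuous_fst.comp (hc a)).sub (continuous_fst.comp (hc b))).continuousAt
      · linarith
    have hY : ContinuousAt (fun P : Fin m → ℝ × ℝ => Y2 (P a) (P b)) Q := by
      unfold Y2
      exact ((continuous_fst.comp (hc a)).continuousAt.mul hX).add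
        (continuous_snd.comp (hc a)).continuousAt
    have hL : ContinuousAt (fun P : Fin m → ℝ × ℝ => (P l).1 * X2 (P a) (P b) + (P l).2) Q :=
      ((continuous_fst.comp (hc l)).continuousAt.mul hX).add
        (continuous_snd.comp (hc l)).continuousAt
    by_cases hl : l ≠ a ∧ l ≠ b
    swap
    · filter_upwards [e1] with P hP _
      exact ⟨hP, fun h1 h2 => absurd ⟨h1, h2⟩ hl⟩
    rcases lt_or_gt_of_ne (hQ a b l hab hl.1 hl.2) with h | h
    · have e2 := hL.tendsto.eventually_lt hY.tendsto h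
      filter_upwards [e1, e2] with P hP hP2 _
      exact ⟨hP, fun _ _ => ⟨fun _ => h, fun _ => hP2⟩⟩
    · have e2 := hY.tendsto.eventually_lt hL.tendsto h
      filter_upwards [e1, e2] with P hP hP2 _
      refine ⟨hP, fun _ _ => ⟨fun h3 => absurd h3 (not_lt.mpr hP2.le),
        fun h3 => absurd h3 (not_lt.mpr h.le)⟩⟩
  obtain ⟨η, hη0, hη⟩ := Metric.eventually_nhds_iff_ball.mp hev
  refine ⟨min δ η, lt_min hδ0 hη0, ?_, ?_⟩
  · intro a b hab
    exact (hδ a b hab).mono (Metric.ball_subset_ball (min_le_left _ _))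
      (Metric.ball_subset_ball (min_le_left _ _))
  · intro P hP a b hab
    have hPη : P ∈ Metric.ball Q η := by
      rw [Metric.mem_ball, dist_pi_lt_iff hη0]
      intro l
      exact lt_of_lt_of_le (Metric.mem_ball.mp (hP l)) (min_le_right _ _)
    have h := hη P hPη
    refine ⟨(h (a, b, a) (mem_univ _) hab).1, fun l h1 h2 => (h (a, b, l) (mem_univ _) hab).2 h1 h2⟩

/-- the uniform law on a ball -/
noncomputable def nu (c : ℝ × ℝ) (ε : ℝ) : Measure (ℝ × ℝ) :=
  (volume (Metric.ball c ε))⁻¹ • volume.restrict (Metric.ball c ε)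

theorem nu_apply (c : ℝ × ℝ) (ε : ℝ) (L : Set (ℝ × ℝ)) (hL : MeasurableSet L) :
    nu c ε L = (volume (Metric.ball c ε))⁻¹ * volume (L ∩ Metric.ball c ε) := by
  unfold nu
  rw [Measure.smul_apply, Measure.restrict_apply hL, smul_eq_mul]

theorem nu_one {c : ℝ × ℝ} {ε : ℝ} (hε : 0 < ε) {L : Set (ℝ × ℝ)} (hL : MeasurableSet L)
    (h : Metric.ball c ε ⊆ L) : nu c ε L = 1 := by
  rw [nu_apply c ε L hL, Set.inter_eq_self_of_subset_right h]
  exact ENNReal.inv_mul_cancel (Metric.measure_ball_pos volume c hε).ne' measure_ball_lt_top.ne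

theorem nu_zero {c : ℝ × ℝ} {ε : ℝ} {L : Set (ℝ × ℝ)} (hL : MeasurableSet L)
    (h : Disjoint (Metric.ball c ε) L) : nu c ε L = 0 := by
  rw [nu_apply c ε L hL, (Set.disjoint_iff_inter_eq_empty.mp h.symm), measure_empty, mul_zero]

theorem nu_le_one {c : ℝ × ℝ} {ε : ℝ} (hε : 0 < ε) {L : Set (ℝ × ℝ)} (hL : MeasurableSet L) :
    nu c ε L ≤ 1 :=
  (measure_mono (Set.subset_univ L)).trans (nu_one hε MeasurableSet.univ (Set.subset_univ _)).le

/-- a uniformly chosen ball, then a uniform point of it -/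
noncomputable def mu {m : ℕ} (Q : Fin m → ℝ × ℝ) (ε : ℝ) : Measure (ℝ × ℝ) :=
  ∑ l, (m : ℝ≥0∞)⁻¹ • nu (Q l) ε

theorem mu_apply {m : ℕ} (Q : Fin m → ℝ × ℝ) (ε : ℝ) (L : Set (ℝ × ℝ)) :
    mu Q ε L = ∑ l, (m : ℝ≥0∞)⁻¹ * nu (Q l) ε L := by
  unfold mu
  rw [Measure.finsetSum_apply]
  rfl

theorem mu_prob {m : ℕ} (hm : 0 < m) (Q : Fin m → ℝ × ℝ) {ε : ℝ} (hε : 0 < ε) :
    IsProbabilityMeasure (mu Q ε) := by
  constructor
  rw [mu_apply]
  simp only [nu_one hε MeasurableSet.univ (Set.subset_univ _), mul_one, sum_const, card_univ,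
    Fintype.card_fin, nsmul_eq_mul]
  exact ENNReal.mul_inv_cancel (by exact_mod_cast hm.ne') (ENNReal.natCast_ne_top m)

theorem mu_LN {m : ℕ} (Q : Fin m → ℝ × ℝ) (ε : ℝ) : LN (mu Q ε) := by
  intro a b c hab
  have hm : MeasurableSet {y : ℝ × ℝ | a * y.1 + b * y.2 = c} :=
    measurableSet_eq_fun ((measurable_fst.const_mul a).add (measurable_snd.const_mul b))
      measurable_const
  rw [mu_apply]
  apply sum_eq_zero
  intro l _
  rw [nu_apply _ _ _ hm, measure_mono_null Set.inter_subset_left (Sub.volume_line a b c hab), mul_zero,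
    mul_zero]

theorem mu_ge {m : ℕ} {Q : Fin m → ℝ × ℝ} {ε : ℝ} (hε : 0 < ε) (G : Finset (Fin m))
    {L : Set (ℝ × ℝ)} (hL : MeasurableSet L) (h : ∀ l ∈ G, Metric.ball (Q l) ε ⊆ L) :
    (G.card : ℝ≥0∞) * (m : ℝ≥0∞)⁻¹ ≤ mu Q ε L := by
  rw [mu_apply]
  calc (G.card : ℝ≥0∞) * (m : ℝ≥0∞)⁻¹ = ∑ l ∈ G, (m : ℝ≥0∞)⁻¹ * nu (Q l) ε L := by
        rw [sum_congr rfl (fun l hl => by rw [nu_one hε hL (h l hl), mul_one]), sum_const,
          nsmul_eq_mul]
    _ ≤ _ := sum_le_sum_of_subset (subset_univ G)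

theorem mu_le {m : ℕ} {Q : Fin m → ℝ × ℝ} {ε : ℝ} (hε : 0 < ε) (G : Finset (Fin m))
    {L : Set (ℝ × ℝ)} (hL : MeasurableSet L)
    (h : ∀ l, l ∉ G → Disjoint (Metric.ball (Q l) ε) L) :
    mu Q ε L ≤ (G.card : ℝ≥0∞) * (m : ℝ≥0∞)⁻¹ := by
  classical
  rw [mu_apply]
  calc ∑ l, (m : ℝ≥0∞)⁻¹ * nu (Q l) ε L = ∑ l ∈ G, (m : ℝ≥0∞)⁻¹ * nu (Q l) ε L := by
        symm
        apply sum_subset (subset_univ G)
        intro l _ hl
        rw [nu_zero hL (h l hl), mul_zero]
    _ ≤ ∑ l ∈ G, (m : ℝ≥0∞)⁻¹ := by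
        apply sum_le_sum
        intro l _
        calc _ ≤ (m : ℝ≥0∞)⁻¹ * 1 := mul_le_mul_right (nu_le_one hε hL) _
          _ = _ := mul_one _
    _ = _ := by rw [sum_const, nsmul_eq_mul]

theorem meas_low' (X Y : ℝ × ℝ) : MeasurableSet (low X Y) :=
  meas_low (f := fun _ : ℝ × ℝ => X) (g := fun _ => Y) (h := fun y => y) measurable_const
    measurable_const measurable_id

/-- mass below a pair -/
theorem FF_window {m : ℕ} (hm : 0 < m) {Q : Fin m → ℝ × ℝ} {ε : ℝ} (hε : 0 < ε)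
    (hpert : ∀ P : Fin m → ℝ × ℝ, (∀ l, P l ∈ Metric.ball (Q l) ε) → ∀ a b, (Q b).1 < (Q a).1 →
        (P b).1 < (P a).1 ∧ ∀ l, l ≠ a → l ≠ b →
          (P l ∈ low (P a) (P b) ↔ Q l ∈ low (Q a) (Q b)))
    {a b : Fin m} (hab : (Q b).1 < (Q a).1) {X Y : ℝ × ℝ} (hX : X ∈ Metric.ball (Q a) ε)
    (hY : Y ∈ Metric.ball (Q b) ε) :
    Y.1 < X.1 ∧ (lev Q (a, b) : ℝ) / m ≤ FF (mu Q ε) X Y ∧
      FF (mu Q ε) X Y ≤ ((lev Q (a, b) : ℝ) + 2) / m := by
  classical
  have hne : a ≠ b := by rintro rfl; exact lt_irrefl _ hab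
  have hQ0 : ∀ l, Q l ∈ Metric.ball (Q l) ε := fun l => Metric.mem_ball_self hε
  have hfirst : Y.1 < X.1 := by
    have h := (hpert (Function.update (Function.update Q a X) b Y) (fun l => ?_) a b hab).1
    · rw [Function.update_self, Function.update_of_ne hne, Function.update_self] at h
      exact h
    · by_cases h1 : l = b
      · subst h1; rw [Function.update_self]; exact hY
      · rw [Function.update_of_ne h1]
        by_cases h2 : l = a
        · subst h2; rw [Function.update_self]; exact hX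
        · rw [Function.update_of_ne h2]; exact hQ0 l
  have key : ∀ l, l ≠ a → l ≠ b → ∀ Z ∈ Metric.ball (Q l) ε,
      (Z ∈ low X Y ↔ Q l ∈ low (Q a) (Q b)) := by
    intro l hla hlb Z hZ
    have h := (hpert (Function.update (Function.update (Function.update Q a X) b Y) l Z)
      (fun l' => ?_) a b hab).2 l hla hlb
    · rw [Function.update_self, Function.update_of_ne (Ne.symm hla),
        Function.update_of_ne (Ne.symm hlb), Function.update_self,
        Function.update_of_ne hne, Function.update_self] at h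
      exact h
    · by_cases h0 : l' = l
      · subst h0; rw [Function.update_self]; exact hZ
      · rw [Function.update_of_ne h0]
        by_cases h1 : l' = b
        · subst h1; rw [Function.update_self]; exact hY
        · rw [Function.update_of_ne h1]
          by_cases h2 : l' = a
          · subst h2; rw [Function.update_self]; exact hX
          · rw [Function.update_of_ne h2]; exact hQ0 l'
  refine ⟨hfirst, ?_⟩
  set G : Finset (Fin m) := univ.filter (fun l => Q l ∈ low (Q a) (Q b)) with hG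
  have hGc : G.card = lev Q (a, b) := by unfold lev; rfl
  have hGl : ∀ l ∈ G, l ≠ a ∧ l ≠ b := by
    intro l hl
    rw [hG, mem_filter] at hl
    constructor
    · rintro rfl; exact fst_notMem_low _ _ hl.2
    · rintro rfl; exact snd_notMem_low hab hl.2
  have hG2 : ((G ∪ {a, b}).card : ℝ) ≤ (lev Q (a, b) : ℝ) + 2 := by
    have h1 := card_union_le G {a, b}
    have h2 := card_le_two (a := a) (b := b)
    rw [hGc] at h1
    have : (G ∪ {a, b}).card ≤ lev Q (a, b) + 2 := by omega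
    exact_mod_cast this
  have hge := mu_ge (Q := Q) hε G (meas_low' X Y) (fun l hl Z hZ =>
    (key l (hGl l hl).1 (hGl l hl).2 Z hZ).mpr (by rw [hG, mem_filter] at hl; exact hl.2))
  have hle := mu_le (Q := Q) hε (G ∪ {a, b}) (meas_low' X Y) (fun l hl => by
    rw [mem_union, mem_insert, mem_singleton, not_or, not_or] at hl
    rw [Set.disjoint_left]
    intro Z hZ hZl
    apply hl.1
    rw [hG, mem_filter]
    exact ⟨mem_univ _, (key l hl.2.1 hl.2.2 Z hZ).mp hZl⟩)
  have := mu_prob hm Q hε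
  have hm0 : (0 : ℝ) < m := by exact_mod_cast hm
  have htr : ∀ c : ℕ, ((c : ℝ≥0∞) * (m : ℝ≥0∞)⁻¹).toReal = (c : ℝ) / m := by
    intro c
    rw [ENNReal.toReal_mul, ENNReal.toReal_inv, ENNReal.toReal_natCast, ENNReal.toReal_natCast]
    rfl
  have hfin : ∀ c : ℕ, ((c : ℝ≥0∞) * (m : ℝ≥0∞)⁻¹) ≠ ∞ := fun c =>
    ENNReal.mul_ne_top (ENNReal.natCast_ne_top c)
      (ENNReal.inv_ne_top.mpr (by exact_mod_cast hm.ne'))
  constructor
  · have := ENNReal.toReal_mono (measure_ne_top _ _) hge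
    rw [htr, hGc] at this
    exact this
  · have := ENNReal.toReal_mono (hfin _) hle
    rw [htr] at this
    refine this.trans ?_
    gcongr

end Pool.Agent.H189R2.Iid
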