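import Pool.Agent.H189R2.Iid.Red

/-! Independent lines from the law of an arrangement: a lower bound for the expected number of
crossings of a level. -/

set_option autoImplicit false

namespace Pool.Agent.H189R2.Iid

open Finset MeasureTheory Filter Pool.Agent.H189R2.Lev
open scoped ENNReal Topology

theorem pi_two {μ : Measure (ℝ × ℝ)} [IsProbabilityMeasure μ] {n : ℕ} {i j : Fin n} (hij : i ≠ j)
    (s t : Set (ℝ × ℝ)) :
    Measure.pi (fun _ : Fin n => μ) {P | P i ∈ s ∧ P j ∈ t} = μ s * μ t := by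
  classical
  set u : Fin n → Set (ℝ × ℝ) := fun l => if l = i then s else if l = j then t else Set.univ with hu
  have h1 : {P : Fin n → ℝ × ℝ | P i ∈ s ∧ P j ∈ t} = Set.pi Set.univ u := by
    ext P
    simp only [Set.mem_ofPred_eq, Set.mem_pi, Set.mem_univ, forall_const, hu]
    constructor
    · rintro ⟨h1, h2⟩ l
      by_cases hl : l = i
      · subst hl; rw [if_pos rfl]; exact h1
      · rw [if_neg hl]
        by_cases hl2 : l = j
        · subst hl2; rw [if_pos rfl]; exact h2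
        · rw [if_neg hl2]; trivial
    · intro h
      refine ⟨?_, ?_⟩
      · have := h i; rwa [if_pos rfl] at this
      · have := h j; rwa [if_neg hij.symm, if_pos rfl] at this
  rw [h1, Measure.pi_pi]
  rw [Fintype.prod_eq_mul i j hij]
  · simp only [hu, if_true]
    rw [if_neg hij.symm]
  · rintro l ⟨hl1, hl2⟩
    simp only [hu]
    rw [if_neg hl1, if_neg hl2, measure_univ]

open Classical in
/-- lower bound for the expected number of pairs of level `k` -/
theorem E_ge {m : ℕ} (hm : 0 < m) {Q : Fin m → ℝ × ℝ} {ε : ℝ} (hε : 0 < ε)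
    (hdisj : ∀ a b, a ≠ b → Disjoint (Metric.ball (Q a) ε) (Metric.ball (Q b) ε))
    (hpert : ∀ P : Fin m → ℝ × ℝ, (∀ l, P l ∈ Metric.ball (Q l) ε) → ∀ a b, (Q b).1 < (Q a).1 →
        (P b).1 < (P a).1 ∧ ∀ l, l ≠ a → l ≠ b →
          (P l ∈ low (P a) (P b) ↔ Q l ∈ low (Q a) (Q b)))
    {g n k : ℕ} (hg : 1 ≤ g) (hgm : 6 * (g + 2) ≤ 5 * m) (hn1 : m * g + 2 ≤ n)
    (hn2 : n ≤ 4 * (m * g) + 2) (hk1 : g * (n - 2) ≤ m * k) (hk2 : m * k ≤ (g + 2) * (n - 2)) :
    ENNReal.ofReal (Real.exp (-96) / 16 * g * ((T Q).filter (fun q => lev Q q = g)).card) ≤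
      ∫⁻ P, (((T P).filter (fun q => lev P q = k)).card : ℝ≥0∞)
        ∂Measure.pi (fun _ : Fin n => mu Q ε) := by
  have hprob := mu_prob hm Q hε
  set μ := mu Q ε with hμ
  set C := (T Q).filter (fun q => lev Q q = g) with hC
  set c1 : ℝ := Real.exp (-96) / (16 * g) with hc1
  have hg0 : (0 : ℝ) < g := by exact_mod_cast hg
  have hc10 : 0 ≤ c1 := by positivity
  have hball : ∀ a, MeasurableSet (Metric.ball (Q a) ε) := fun a => measurableSet_ball
  have hmass : ∀ a, (m : ℝ≥0∞)⁻¹ ≤ μ (Metric.ball (Q a) ε) := by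
    intro a
    have := mu_ge (Q := Q) hε {a} (hball a) (fun l hl => by rw [mem_singleton] at hl; rw [hl])
    simpa using this
  have hterm : ∀ q ∈ (univ : Finset (Fin n)).offDiag,
      ENNReal.ofReal c1 * (C.card * ((m : ℝ≥0∞)⁻¹ * (m : ℝ≥0∞)⁻¹)) ≤
      Measure.pi (fun _ : Fin n => μ) {P | P ∈ Ev2 Set.univ q.1 q.2 ∧ lev P (q.1, q.2) = k} := by
    rintro ⟨i, j⟩ hq
    rw [mem_offDiag] at hq
    have hij : i ≠ j := hq.2.2
    rw [lev_prob hij k]
    set π := Measure.pi (fun _ : Fin n => μ) with hπ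
    set D : Fin m × Fin m → Set (Fin n → ℝ × ℝ) := fun q =>
      {P | P i ∈ Metric.ball (Q q.1) ε ∧ P j ∈ Metric.ball (Q q.2) ε} with hD
    have m1 : ∀ i : Fin n, Measurable (fun P : Fin n → ℝ × ℝ => P i) :=
      fun i => measurable_pi_apply i
    have hDm : ∀ q, MeasurableSet (D q) := fun q => ((m1 i) (hball q.1)).inter ((m1 j) (hball q.2))
    have hDd : Set.PairwiseDisjoint (C : Set (Fin m × Fin m)) D := by
      intro q _ q' _ hne
      rw [Function.onFun, Set.disjoint_left]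
      rintro P ⟨h1, h2⟩ ⟨h1', h2'⟩
      apply hne
      ext1
      · by_contra h
        exact (Set.disjoint_left.mp (hdisj _ _ h)) h1 h1'
      · by_contra h
        exact (Set.disjoint_left.mp (hdisj _ _ h)) h2 h2'
    have hUm : MeasurableSet (⋃ q ∈ C, D q) := Finset.measurableSet_biUnion _ (fun q _ => hDm q)
    have hCm : ∀ q ∈ C, (Q q.2).1 < (Q q.1).1 ∧ lev Q (q.1, q.2) = g := by
      intro q hq
      rw [hC, mem_filter, mem_T] at hq
      exact hq
    have hsub : (⋃ q ∈ C, D q) ⊆ Ev2 Set.univ i j := by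
      intro P hP
      simp only [Set.mem_iUnion, exists_prop] at hP
      obtain ⟨q, hqC, h1, h2⟩ := hP
      exact ⟨(FF_window hm hε hpert (hCm q hqC).1 h1 h2).1, trivial⟩
    have hmeas : C.card * ((m : ℝ≥0∞)⁻¹ * (m : ℝ≥0∞)⁻¹) ≤ π (⋃ q ∈ C, D q) := by
      rw [measure_biUnion_finset hDd (fun q _ => hDm q)]
      calc C.card * ((m : ℝ≥0∞)⁻¹ * (m : ℝ≥0∞)⁻¹) = ∑ q ∈ C, ((m : ℝ≥0∞)⁻¹ * (m : ℝ≥0∞)⁻¹) := by
            rw [sum_const, nsmul_eq_mul]
        _ ≤ ∑ q ∈ C, π (D q) := by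
            apply sum_le_sum
            intro q _
            rw [hD, hπ, pi_two hij]
            exact mul_le_mul' (hmass q.1) (hmass q.2)
    calc ENNReal.ofReal c1 * (C.card * ((m : ℝ≥0∞)⁻¹ * (m : ℝ≥0∞)⁻¹))
        ≤ ENNReal.ofReal c1 * π (⋃ q ∈ C, D q) := by gcongr
      _ = ∫⁻ P in (⋃ q ∈ C, D q), ENNReal.ofReal c1 ∂π := by rw [setLIntegral_const]
      _ ≤ ∫⁻ P in (⋃ q ∈ C, D q), ((n - 2).choose k : ℝ≥0∞) * ENNReal.ofReal
          (FF μ (P i) (P j) ^ k * (1 - FF μ (P i) (P j)) ^ (n - 2 - k)) ∂π := by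
          apply setLIntegral_mono' hUm
          intro P hP
          simp only [Set.mem_iUnion, exists_prop] at hP
          obtain ⟨q, hqC, h1, h2⟩ := hP
          have hw := FF_window hm hε hpert (hCm q hqC).1 h1 h2
          rw [(hCm q hqC).2] at hw
          have hb := binom_low (N := n - 2) (k := k) hg hgm (by omega) (by omega) hk1 hk2
            hw.2.1 hw.2.2
          rw [← ENNReal.ofReal_natCast, ← ENNReal.ofReal_mul (Nat.cast_nonneg _)]
          exact ENNReal.ofReal_le_ofReal hb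
      _ = ((n - 2).choose k : ℝ≥0∞) * ∫⁻ P in (⋃ q ∈ C, D q), ENNReal.ofReal
          (FF μ (P i) (P j) ^ k * (1 - FF μ (P i) (P j)) ^ (n - 2 - k)) ∂π := by
          rw [lintegral_const_mul' _ _ (ENNReal.natCast_ne_top _)]
      _ ≤ _ := by
          gcongr
  rw [E_lev k]
  refine le_trans ?_ (sum_le_sum hterm)
  rw [sum_const, offDiag_card, card_univ, Fintype.card_fin, nsmul_eq_mul]
  have hm0 : (0 : ℝ) < m := by exact_mod_cast hm
  have hinv : (m : ℝ≥0∞)⁻¹ = ENNReal.ofReal ((m : ℝ)⁻¹) := by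
    rw [ENNReal.ofReal_inv_of_pos hm0, ENNReal.ofReal_natCast]
  rw [hinv, ← ENNReal.ofReal_natCast (n * n - n), ← ENNReal.ofReal_natCast C.card,
    ← ENNReal.ofReal_mul (by positivity), ← ENNReal.ofReal_mul (by positivity),
    ← ENNReal.ofReal_mul (by positivity), ← ENNReal.ofReal_mul (by positivity)]
  apply ENNReal.ofReal_le_ofReal
  rw [Nat.cast_sub (Nat.le_mul_self n)]
  push_cast
  have hng : (m : ℝ) * g + 2 ≤ n := by exact_mod_cast hn1
  have hmg : 0 < (m : ℝ) * g := by positivity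
  have hnn : (m : ℝ) ^ 2 * g ^ 2 ≤ n * n - n := by nlinarith
  have hCc : (0 : ℝ) ≤ C.card := Nat.cast_nonneg _
  calc Real.exp (-96) / 16 * g * (C.card : ℝ) =
        (m : ℝ) ^ 2 * g ^ 2 * (c1 * (C.card * ((m : ℝ)⁻¹ * (m : ℝ)⁻¹))) := by
        rw [hc1]; field_simp
    _ ≤ _ := mul_le_mul_of_nonneg_right hnn (by positivity)

end Pool.Agent.H189R2.Iid
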