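import Pool.Agent.H189R2.Iid.Gen

/-! The probability that two pairs of a window of masses cross. -/

set_option autoImplicit false

namespace Pool.Agent.H189R2.Iid

open Finset MeasureTheory Filter Pool.Agent.H189R2.Lev
open scoped ENNReal

/-- the mass below the line `pq` -/
noncomputable def FF (μ : Measure (ℝ × ℝ)) (p q : ℝ × ℝ) : ℝ := (μ (low p q)).toReal

/-- pairs with mass within `δ` of `α` -/
def WA (μ : Measure (ℝ × ℝ)) (α δ : ℝ) : Set ((ℝ × ℝ) × (ℝ × ℝ)) :=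
  {z | |FF μ z.1 z.2 - α| ≤ δ}

variable {μ : Measure (ℝ × ℝ)}

theorem measurable_FF [IsProbabilityMeasure μ] :
    Measurable (fun z : (ℝ × ℝ) × (ℝ × ℝ) => FF μ z.1 z.2) := by
  unfold FF
  have h : MeasurableSet {w : ((ℝ × ℝ) × (ℝ × ℝ)) × (ℝ × ℝ) | w.2 ∈ low w.1.1 w.1.2} :=
    meas_low measurable_fst.fst measurable_fst.snd measurable_snd
  exact (measurable_measure_prodMk_left h).ennreal_toReal

theorem meas_WA [IsProbabilityMeasure μ] (α δ : ℝ) : MeasurableSet (WA μ α δ) :=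
  measurableSet_le (measurable_FF.sub measurable_const).abs measurable_const

/-- the set below the line of the points `i`, `j` -/
def lowRS {n : ℕ} {U : Finset (Fin n)} (i j : Fin n) (hU : ∀ l ∈ U, l ≠ i ∧ l ≠ j) :
    RandSet n U (ℝ × ℝ) where
  Lo P y := y ∈ low (P i) (P j)
  meas := by
    have m1 : ∀ i : Fin n, Measurable (fun p : (Fin n → ℝ × ℝ) × (ℝ × ℝ) => p.1 i) :=
      fun i => (measurable_pi_apply i).comp measurable_fst
    exact meas_low (m1 i) (m1 j) measurable_snd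
  inv := by
    intro l hl P y z
    rw [Function.update_of_ne (hU l hl).1.symm, Function.update_of_ne (hU l hl).2.symm]

theorem lowRS_F {n : ℕ} {U : Finset (Fin n)} (i j : Fin n) (hU : ∀ l ∈ U, l ≠ i ∧ l ≠ j)
    (P : Fin n → ℝ × ℝ) : (lowRS i j hU).F μ P = FF μ (P i) (P j) := rfl

open Classical in
theorem lev_cnt {n : ℕ} {U : Finset (Fin n)} (i j : Fin n) (hU : ∀ l ∈ U, l ≠ i ∧ l ≠ j)
    (P : Fin n → ℝ × ℝ) : (lowRS i j hU).cnt P ≤ lev P (i, j) ∧
      lev P (i, j) ≤ (lowRS i j hU).cnt P + (n - U.card) := by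
  unfold RandSet.cnt lev
  constructor
  · apply card_le_card
    intro l hl
    rw [mem_filter] at hl ⊢
    exact ⟨mem_univ _, hl.2⟩
  · have hsub : univ.filter (fun l => P l ∈ low (P i) (P j)) ⊆
        U.filter (fun l => P l ∈ low (P i) (P j)) ∪ Uᶜ := by
      intro l hl
      rw [mem_filter] at hl
      rw [mem_union, mem_filter, mem_compl]
      by_cases h : l ∈ U
      · exact Or.inl ⟨h, hl.2⟩
      · exact Or.inr h
    have := (card_le_card hsub).trans (card_union_le _ _)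
    rw [card_compl, Fintype.card_fin] at this
    exact this

theorem bad_le [IsProbabilityMeasure μ] {n : ℕ} {U : Finset (Fin n)} {i j : Fin n}
    (hU : ∀ l ∈ U, l ≠ i ∧ l ≠ j) (hUc : n ≤ U.card + 4) {B : Set (Fin n → ℝ × ℝ)}
    (hB : MeasurableSet B) (hBU : ∀ l ∈ U, ∀ P y, Function.update P l y ∈ B ↔ P ∈ B)
    {α δ s : ℝ} (hα : 0 < α) (hα1 : α ≤ 1) (hδ0 : 0 ≤ δ) (hδ : δ ≤ α) (hs0 : 0 ≤ s)
    (hs : s ^ 2 = n * α) (hn : n * δ ≤ s) (hBA : ∀ P ∈ B, |FF μ (P i) (P j) - α| ≤ δ) :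
    18 * Measure.pi (fun _ : Fin n => μ)
      {P | P ∈ B ∧ 7 * s + 8 < |(lev P (i, j) : ℝ) - n * α|} ≤
      Measure.pi (fun _ : Fin n => μ) B := by
  set π := Measure.pi (fun _ : Fin n => μ) with hπ
  set R := lowRS i j hU with hR
  have hn0 : (0 : ℝ) < n := by exact_mod_cast i.pos
  have hUn : (U.card : ℝ) ≤ n := by
    have := card_le_univ U
    rw [Fintype.card_fin] at this
    exact_mod_cast this
  have hUn4 : (n : ℝ) ≤ U.card + 4 := by exact_mod_cast hUc
  have h1 := R.chebyshev μ hB hBU (v := 2 * α) (by linarith) (fun P hP => by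
    have e1 := abs_le.mp (hBA P hP)
    have e2 := R.F_nonneg μ P
    have e3 : R.F μ P ≤ 2 * α := by
      show FF μ (P i) (P j) ≤ 2 * α
      linarith [e1.2]
    nlinarith) (t := 6 * s) (by positivity)
  have hsub : {P | P ∈ B ∧ 7 * s + 8 < |(lev P (i, j) : ℝ) - n * α|} ⊆
      {P | P ∈ B ∧ 6 * s ≤ |(R.cnt P : ℝ) - U.card * R.F μ P|} := by
    rintro P ⟨hP, hlt⟩
    refine ⟨hP, ?_⟩
    obtain ⟨l1, l2⟩ := lev_cnt i j hU P
    have l1' : (R.cnt P : ℝ) ≤ lev P (i, j) := Nat.cast_le.mpr l1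
    have l2' : (lev P (i, j) : ℝ) ≤ R.cnt P + 4 := by
      have : lev P (i, j) ≤ R.cnt P + 4 := l2.trans (by
        show R.cnt P + (n - U.card) ≤ R.cnt P + 4
        omega)
      exact_mod_cast this
    have e1 := abs_le.mp (hBA P hP)
    have e2 : R.F μ P = FF μ (P i) (P j) := rfl
    rw [e2]
    set f := FF μ (P i) (P j) with hf
    by_contra hcon
    push Not at hcon
    have e3 := abs_lt.mp hcon
    have e4 : |(lev P (i, j) : ℝ) - n * α| ≤ 7 * s + 8 := by
      have e5 : (U.card : ℝ) * (f - α) ≤ s := by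
        have : (U.card : ℝ) * (f - α) ≤ U.card * δ :=
          mul_le_mul_of_nonneg_left e1.2 (Nat.cast_nonneg _)
        have h2 : (U.card : ℝ) * δ ≤ n * δ := mul_le_mul_of_nonneg_right hUn hδ0
        linarith
      have e6 : -s ≤ (U.card : ℝ) * (f - α) := by
        have : (U.card : ℝ) * (-δ) ≤ U.card * (f - α) :=
          mul_le_mul_of_nonneg_left e1.1 (Nat.cast_nonneg _)
        have h2 : (U.card : ℝ) * δ ≤ n * δ := mul_le_mul_of_nonneg_right hUn hδ0
        linarith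
      have e7 : (n - U.card) * α ≤ 4 := by nlinarith
      have e8 : 0 ≤ (n - U.card) * α := mul_nonneg (by linarith) hα.le
      rw [abs_le]
      constructor <;> nlinarith [e3.1, e3.2]
    linarith
  have h2 := (mul_le_mul_right (measure_mono (μ := π) hsub) (ENNReal.ofReal ((6 * s) ^ 2)))
  have h3 : ENNReal.ofReal (U.card * (2 * α)) * π B ≤ ENNReal.ofReal (2 * (n * α)) * π B := by
    have h3' : (U.card : ℝ) * (2 * α) ≤ 2 * (n * α) := by
      have := mul_le_mul_of_nonneg_right hUn hα.le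
      linarith
    have h3'' := ENNReal.ofReal_le_ofReal h3'
    gcongr
  have h4 := h2.trans (h1.trans h3)
  have e : (6 * s) ^ 2 = 2 * (n * α) * 18 := by rw [mul_pow, hs]; ring
  rw [e, ENNReal.ofReal_mul (by positivity), mul_assoc] at h4
  have h5 : ENNReal.ofReal (2 * (n * α)) ≠ 0 := by
    rw [Ne, ENNReal.ofReal_eq_zero, not_le]
    positivity
  have h6 := (ENNReal.mul_le_mul_iff_right h5 ENNReal.ofReal_ne_top).mp h4
  simpa using h6

open Classical in
theorem measurable_lev {n : ℕ} (q : Fin n × Fin n) :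
    Measurable (fun P : Fin n → ℝ × ℝ => lev P q) := by
  have : (fun P : Fin n → ℝ × ℝ => lev P q) =
      fun P => ∑ l, if P l ∈ low (P q.1) (P q.2) then 1 else 0 := by
    funext P
    unfold lev
    rw [card_filter]
  rw [this]
  have m1 : ∀ i : Fin n, Measurable (fun P : Fin n → ℝ × ℝ => P i) := fun i => measurable_pi_apply i
  exact Finset.measurable_sum _ (fun l _ =>
    Measurable.ite (meas_low (m1 q.1) (m1 q.2) (m1 l)) measurable_const measurable_const)

theorem mem_W {c L : ℝ} (hc : 0 ≤ c + L) {a : ℕ} :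
    a ∈ Icc ⌈c - L⌉₊ ⌊c + L⌋₊ ↔ |(a : ℝ) - c| ≤ L := by
  rw [mem_Icc, Nat.ceil_le, Nat.le_floor_iff hc, abs_le]
  constructor
  · rintro ⟨h1, h2⟩; constructor <;> linarith
  · rintro ⟨h1, h2⟩; constructor <;> linarith

theorem card_W {c L : ℝ} (hL : 0 ≤ L) (hc : 0 ≤ c) :
    ((Icc ⌈c - L⌉₊ ⌊c + L⌋₊).card : ℝ) ≤ 2 * L + 1 := by
  rw [Nat.card_Icc]
  have h1 := Nat.floor_le (by linarith : 0 ≤ c + L)
  have h2 := Nat.le_ceil (c - L)
  by_cases h : ⌈c - L⌉₊ ≤ ⌊c + L⌋₊ + 1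
  · rw [Nat.cast_sub h]
    push_cast
    linarith
  · rw [Nat.sub_eq_zero_of_le (by omega)]
    push_cast
    linarith

open Classical in
theorem cross_upper [IsProbabilityMeasure μ] (hμ : LN μ) {n : ℕ} (A : Set ((ℝ × ℝ) × (ℝ × ℝ)))
    {c L : ℝ} (hc : 0 ≤ c) (hL : 0 ≤ L) :
    ∫⁻ P, ((univ.filter (fun z : (Fin n × Fin n) × (Fin n × Fin n) =>
      P ∈ {P | z.1 ≠ z.2 ∧ P ∈ Ev4 A z.1.1 z.1.2 z.2.1 z.2.2 ∧ |(lev P z.1 : ℝ) - c| ≤ L ∧
        |(lev P z.2 : ℝ) - c| ≤ L})).card : ℝ≥0∞) ∂Measure.pi (fun _ : Fin n => μ) ≤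
      ENNReal.ofReal ((2 * L + 1) ^ 2 * (6 * n * (c + L + 1))) := by
  calc _ ≤ ∫⁻ P : Fin n → ℝ × ℝ, ENNReal.ofReal ((2 * L + 1) ^ 2 * (6 * n * (c + L + 1)))
        ∂Measure.pi (fun _ : Fin n => μ) := by
        apply lintegral_mono_ae
        filter_upwards [ae_GP hμ n] with P hP
        set W := Icc ⌈c - L⌉₊ ⌊c + L⌋₊ with hW
        set K := ⌊c + L⌋₊ with hK
        have h1 := cross_window hP W (K := K) (fun k hk => (mem_Icc.mp hk).2)
        have h2 : univ.filter (fun z : (Fin n × Fin n) × (Fin n × Fin n) =>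
            P ∈ {P | z.1 ≠ z.2 ∧ P ∈ Ev4 A z.1.1 z.1.2 z.2.1 z.2.2 ∧
            |(lev P z.1 : ℝ) - c| ≤ L ∧ |(lev P z.2 : ℝ) - c| ≤ L}) ⊆
            (T P ×ˢ T P).filter (fun q => q.1 ≠ q.2 ∧ lev P q.1 ∈ W ∧ lev P q.2 ∈ W ∧
              CrossP (P q.1.1) (P q.1.2) (P q.2.1) (P q.2.2)) := by
          intro z hz
          rw [mem_filter] at hz
          obtain ⟨_, b1, ⟨b2, b3, b4⟩, b5, b6⟩ := hz
          rw [mem_filter, mem_product, mem_T, mem_T]
          exact ⟨⟨b2.1, b3.1⟩, b1, (mem_W (by linarith)).mpr b5, (mem_W (by linarith)).mpr b6, b4⟩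
        have h3 : ((univ.filter (fun z : (Fin n × Fin n) × (Fin n × Fin n) =>
            P ∈ {P | z.1 ≠ z.2 ∧ P ∈ Ev4 A z.1.1 z.1.2 z.2.1 z.2.2 ∧
            |(lev P z.1 : ℝ) - c| ≤ L ∧ |(lev P z.2 : ℝ) - c| ≤ L})).card : ℝ) ≤
            (2 * L + 1) ^ 2 * (6 * n * (c + L + 1)) := by
          have h4 := (card_le_card h2).trans h1
          have h4' : ((univ.filter (fun z : (Fin n × Fin n) × (Fin n × Fin n) =>
            P ∈ {P | z.1 ≠ z.2 ∧ P ∈ Ev4 A z.1.1 z.1.2 z.2.1 z.2.2 ∧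
            |(lev P z.1 : ℝ) - c| ≤ L ∧ |(lev P z.2 : ℝ) - c| ≤ L})).card : ℝ) ≤
            (W.card : ℝ) ^ 2 * (2 * ((T P).filter (fun q => lev P q ≤ K)).card) := by
            exact_mod_cast h4
          have h5 := low_le hP K
          have h6 : (W.card : ℝ) ≤ 2 * L + 1 := card_W hL hc
          have h7 : (K : ℝ) ≤ c + L := Nat.floor_le (by linarith)
          have h8 : (W.card : ℝ) ^ 2 ≤ (2 * L + 1) ^ 2 :=
            pow_le_pow_left₀ (Nat.cast_nonneg _) h6 2
          have h9 : (2 * ((T P).filter (fun q => lev P q ≤ K)).card : ℝ) ≤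
              6 * n * (c + L + 1) := by
            have : 3 * (n : ℝ) * (K + 1) ≤ 3 * n * (c + L + 1) := by gcongr
            linarith
          refine h4'.trans (mul_le_mul h8 h9 (by positivity) (by positivity))
        rw [← ENNReal.ofReal_natCast]
        exact ENNReal.ofReal_le_ofReal h3
    _ = _ := by rw [lintegral_const, measure_univ, mul_one]

theorem Ev2_update {A : Set ((ℝ × ℝ) × (ℝ × ℝ))} {n : ℕ} {i j l : Fin n} (h1 : i ≠ l) (h2 : j ≠ l)
    (P : Fin n → ℝ × ℝ) (y : ℝ × ℝ) : Function.update P l y ∈ Ev2 A i j ↔ P ∈ Ev2 A i j := by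
  unfold Ev2
  show ((Function.update P l y j).1 < (Function.update P l y i).1 ∧
    (Function.update P l y i, Function.update P l y j) ∈ A) ↔ _
  rw [Function.update_of_ne h1, Function.update_of_ne h2]
  rfl

theorem Ev4_update {A : Set ((ℝ × ℝ) × (ℝ × ℝ))} {n : ℕ} {i j r s l : Fin n} (h1 : i ≠ l)
    (h2 : j ≠ l) (h3 : r ≠ l) (h4 : s ≠ l) (P : Fin n → ℝ × ℝ) (y : ℝ × ℝ) :
    Function.update P l y ∈ Ev4 A i j r s ↔ P ∈ Ev4 A i j r s := by
  unfold Ev4
  show (Function.update P l y ∈ Ev2 A i j ∧ Function.update P l y ∈ Ev2 A r s ∧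
    CrossP (Function.update P l y i) (Function.update P l y j) (Function.update P l y r)
      (Function.update P l y s)) ↔ _
  rw [Ev2_update h1 h2, Ev2_update h3 h4, Function.update_of_ne h1, Function.update_of_ne h2,
    Function.update_of_ne h3, Function.update_of_ne h4]
  rfl

/-- most crossings have their levels in the window -/
theorem good_ge [IsProbabilityMeasure μ] {n : ℕ} {g : Fin 4 → Fin n}
    (hg : Function.Injective g) {α δ s : ℝ} (hα : 0 < α) (hα1 : α ≤ 1) (hδ0 : 0 ≤ δ)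
    (hδ : δ ≤ α) (hs0 : 0 ≤ s) (hs : s ^ 2 = n * α) (hn : n * δ ≤ s) :
    8 / 9 * (xx μ (WA μ α δ)).toReal ≤ (Measure.pi (fun _ : Fin n => μ)
      {P | P ∈ Ev4 (WA μ α δ) (g 0) (g 1) (g 2) (g 3) ∧
        |(lev P (g 0, g 1) : ℝ) - n * α| ≤ 7 * s + 8 ∧
        |(lev P (g 2, g 3) : ℝ) - n * α| ≤ 7 * s + 8}).toReal := by
  classical
  set π := Measure.pi (fun _ : Fin n => μ) with hπ
  set B := Ev4 (WA μ α δ) (g 0) (g 1) (g 2) (g 3) with hB
  have hBm : MeasurableSet B := meas_Ev4 (meas_WA α δ) _ _ _ _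
  set U : Finset (Fin n) := (univ.image g)ᶜ with hU
  have hUl : ∀ l ∈ U, ∀ a, g a ≠ l := by
    intro l hl a h
    rw [hU, mem_compl] at hl
    exact hl (mem_image.mpr ⟨a, mem_univ a, h⟩)
  have hUc : n ≤ U.card + 4 := by
    rw [hU, card_compl, card_image_of_injective _ hg]
    simp only [Fintype.card_fin, card_univ]
    omega
  have hBU : ∀ l ∈ U, ∀ P y, Function.update P l y ∈ B ↔ P ∈ B := fun l hl P y =>
    Ev4_update (hUl l hl 0) (hUl l hl 1) (hUl l hl 2) (hUl l hl 3) P y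
  have b1 := bad_le (μ := μ) (fun l hl => ⟨(hUl l hl 0).symm, (hUl l hl 1).symm⟩) hUc hBm hBU hα
    hα1 hδ0 hδ hs0 hs hn (fun P hP => hP.1.2)
  have b2 := bad_le (μ := μ) (fun l hl => ⟨(hUl l hl 2).symm, (hUl l hl 3).symm⟩) hUc hBm hBU hα
    hα1 hδ0 hδ hs0 hs hn (fun P hP => hP.2.1.2)
  set B1 := {P | P ∈ B ∧ 7 * s + 8 < |(lev P (g 0, g 1) : ℝ) - n * α|} with hB1
  set B2 := {P | P ∈ B ∧ 7 * s + 8 < |(lev P (g 2, g 3) : ℝ) - n * α|} with hB2
  set Gd := {P | P ∈ B ∧ |(lev P (g 0, g 1) : ℝ) - n * α| ≤ 7 * s + 8 ∧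
        |(lev P (g 2, g 3) : ℝ) - n * α| ≤ 7 * s + 8} with hGd
  have hcov : B ⊆ Gd ∪ (B1 ∪ B2) := by
    intro P hP
    by_cases h1 : |(lev P (g 0, g 1) : ℝ) - n * α| ≤ 7 * s + 8
    · by_cases h2 : |(lev P (g 2, g 3) : ℝ) - n * α| ≤ 7 * s + 8
      · exact Or.inl ⟨hP, h1, h2⟩
      · exact Or.inr (Or.inr ⟨hP, not_le.mp h2⟩)
    · exact Or.inr (Or.inl ⟨hP, not_le.mp h1⟩)
  have hx : π B = xx μ (WA μ α δ) := pi_Ev4 (meas_WA α δ) hg
  have hle : π B ≤ π Gd + (π B1 + π B2) :=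
    (measure_mono hcov).trans ((measure_union_le _ _).trans
      (add_le_add le_rfl (measure_union_le _ _)))
  rw [← hx]
  have t1 : (π B).toReal ≤ (π Gd).toReal + ((π B1).toReal + (π B2).toReal) := by
    have := ENNReal.toReal_mono (by finiteness) hle
    rwa [ENNReal.toReal_add (by finiteness) (by finiteness),
      ENNReal.toReal_add (by finiteness) (by finiteness)] at this
  have t2 : 18 * (π B1).toReal ≤ (π B).toReal := by
    have := ENNReal.toReal_mono (by finiteness) b1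
    simpa using this
  have t3 : 18 * (π B2).toReal ≤ (π B).toReal := by
    have := ENNReal.toReal_mono (by finiteness) b2
    simpa using this
  linarith

open Classical in
/-- the crossing probability of a window -/
theorem cross_prob [IsProbabilityMeasure μ] (hμ : LN μ) {n : ℕ} {α δ s : ℝ} (hα : 0 < α)
    (hα1 : α ≤ 1) (hδ0 : 0 ≤ δ) (hδ : δ ≤ α) (hs0 : 0 ≤ s) (hs : s ^ 2 = n * α)
    (hn : n * δ ≤ s) :
    (n.descFactorial 4 : ℝ) * (8 / 9 * (xx μ (WA μ α δ)).toReal) ≤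
      (14 * s + 17) ^ 2 * (6 * n * (s ^ 2 + 7 * s + 9)) := by
  set π := Measure.pi (fun _ : Fin n => μ) with hπ
  set A := WA μ α δ with hA
  set L := 7 * s + 8 with hL
  have hL0 : 0 ≤ L := by positivity
  have hc0 : 0 ≤ (n : ℝ) * α := by positivity
  have hup := cross_upper hμ (n := n) A hc0 hL0
  set Ev : (Fin n × Fin n) × (Fin n × Fin n) → Set (Fin n → ℝ × ℝ) := fun z =>
    {P | z.1 ≠ z.2 ∧ P ∈ Ev4 A z.1.1 z.1.2 z.2.1 z.2.2 ∧ |(lev P z.1 : ℝ) - n * α| ≤ L ∧
        |(lev P z.2 : ℝ) - n * α| ≤ L} with hEv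
  have hlevm : ∀ q : Fin n × Fin n, MeasurableSet {P : Fin n → ℝ × ℝ |
      |(lev P q : ℝ) - n * α| ≤ L} := by
    intro q
    have : Measurable (fun P : Fin n → ℝ × ℝ => (lev P q : ℝ)) :=
      (measurable_from_top (f := fun k : ℕ => (k : ℝ))).comp (measurable_lev q)
    exact measurableSet_le (this.sub measurable_const).abs measurable_const
  have hEvm : ∀ z, MeasurableSet (Ev z) := by
    intro z
    by_cases hz : z.1 = z.2
    · simp [hEv, hz]
    · have : Ev z = Ev4 A z.1.1 z.1.2 z.2.1 z.2.2 ∩ ({P | |(lev P z.1 : ℝ) - n * α| ≤ L} ∩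
          {P | |(lev P z.2 : ℝ) - n * α| ≤ L}) := by
        ext P
        constructor
        · rintro ⟨_, h⟩; exact h
        · intro h; exact ⟨hz, h⟩
      rw [this]
      exact (meas_Ev4 (meas_WA α δ) _ _ _ _).inter ((hlevm _).inter (hlevm _))
  rw [lintegral_card π Ev hEvm] at hup
  set φ : (Fin 4 ↪ Fin n) → (Fin n × Fin n) × (Fin n × Fin n) :=
    fun g => ((g 0, g 1), (g 2, g 3)) with hφ
  have hφinj : Function.Injective φ := by
    intro g g' h
    simp only [hφ, Prod.mk.injEq] at h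
    ext a
    fin_cases a
    · exact congrArg Fin.val h.1.1
    · exact congrArg Fin.val h.1.2
    · exact congrArg Fin.val h.2.1
    · exact congrArg Fin.val h.2.2
  have hlow : (n.descFactorial 4 : ℝ≥0∞) * ENNReal.ofReal (8 / 9 * (xx μ A).toReal) ≤
      ∑ z, π (Ev z) := by
    calc (n.descFactorial 4 : ℝ≥0∞) * ENNReal.ofReal (8 / 9 * (xx μ A).toReal) =
          ∑ g : Fin 4 ↪ Fin n, ENNReal.ofReal (8 / 9 * (xx μ A).toReal) := by
          rw [sum_const, card_univ, Fintype.card_embedding_eq, nsmul_eq_mul]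
          simp
      _ ≤ ∑ g : Fin 4 ↪ Fin n, π (Ev (φ g)) := by
          apply sum_le_sum
          intro g _
          apply ENNReal.ofReal_le_of_le_toReal
          refine (good_ge (μ := μ) g.injective hα hα1 hδ0 hδ hs0 hs hn).trans ?_
          apply ENNReal.toReal_mono (by finiteness)
          apply measure_mono
          rintro P ⟨h1, h2, h3⟩
          refine ⟨?_, h1, h2, h3⟩
          intro h
          have h02 : g 0 = g 2 := congrArg Prod.fst h
          have := g.injective h02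
          exact absurd this (by decide)
      _ = ∑ z ∈ univ.map ⟨φ, hφinj⟩, π (Ev z) := by rw [sum_map]; rfl
      _ ≤ ∑ z, π (Ev z) := sum_le_sum_of_subset (subset_univ _)
  have hfin := hlow.trans hup
  have h1 := ENNReal.toReal_mono ENNReal.ofReal_ne_top hfin
  rw [ENNReal.toReal_mul, ENNReal.toReal_natCast, ENNReal.toReal_ofReal (by positivity),
    ENNReal.toReal_ofReal (by positivity)] at h1
  refine h1.trans (le_of_eq ?_)
  rw [hL, ← hs]
  ring

end Pool.Agent.H189R2.Iid
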